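import Pool.Agent.Work.MP_c07f0d_lc.SX.Sys
import Pool.Agent.Work.MP_c07f0d_lc.AC.Subf

/-!
# Back from Frege proofs of the tautologies to refutations of the contradictions

Substitutions of variables or `⊥` for the variables keep the size and the depth of a formula;
derivations are composed; the negated balanced conjunction is refuted from its members.
-/

set_option linter.unusedSectionVars false

namespace SizeSep

open FregeEF LineSize

/-! ### Substitutions of atoms -/

section Subst1

variable {α β : Type} (σ : α → Fm β) (hσ : ∀ x, σ x = .bot ∨ ∃ y, σ x = .var y)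

include hσ

lemma size_subst1 (φ : Fm α) : (φ.subst σ).size = φ.size := by
  induction φ with
  | var x => rcases hσ x with h | ⟨y, h⟩ <;> simp only [Fm.subst, h, Fm.size]
  | bot => rfl
  | neg a iha => simp only [Fm.subst, Fm.size, iha]
  | and a b iha ihb => simp only [Fm.subst, Fm.size, iha, ihb]
  | or a b iha ihb => simp only [Fm.subst, Fm.size, iha, ihb]
  | imp a b iha ihb => simp only [Fm.subst, Fm.size, iha, ihb]

lemma kind_subst1 (s : ℕ) (φ : Fm α) : AcFrege.kind s (φ.subst σ) = AcFrege.kind s φ := by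
  have hs := size_subst1 σ hσ
  cases φ with
  | var x => rcases hσ x with h | ⟨y, h⟩ <;> simp only [Fm.subst, h, AcFrege.kind]
  | bot => rfl
  | neg a =>
    have e : (Fm.neg (a.subst σ)).size = (Fm.neg a).size := hs (.neg a)
    show AcFrege.kind s (.neg (a.subst σ)) = _
    rw [AcFrege.kind, AcFrege.kind, e]
  | and a b =>
    have e : (Fm.and (a.subst σ) (b.subst σ)).size = (Fm.and a b).size := hs (.and a b)
    show AcFrege.kind s (.and (a.subst σ) (b.subst σ)) = _
    rw [AcFrege.kind, AcFrege.kind, e]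
  | or a b =>
    have e : (Fm.or (a.subst σ) (b.subst σ)).size = (Fm.or a b).size := hs (.or a b)
    show AcFrege.kind s (.or (a.subst σ) (b.subst σ)) = _
    rw [AcFrege.kind, AcFrege.kind, e]
  | imp a b =>
    have e : (Fm.imp (a.subst σ) (b.subst σ)).size = (Fm.imp a b).size := hs (.imp a b)
    show AcFrege.kind s (.imp (a.subst σ) (b.subst σ)) = _
    rw [AcFrege.kind, AcFrege.kind, e]

lemma depth_subst1 (s : ℕ) (φ : Fm α) : AcFrege.depth s (φ.subst σ) = AcFrege.depth s φ := by
  have hs := size_subst1 σ hσ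
  have hk := kind_subst1 σ hσ s
  induction φ with
  | var x => rcases hσ x with h | ⟨y, h⟩ <;> simp only [Fm.subst, h, AcFrege.depth]
  | bot => rfl
  | neg a iha =>
    have e : (Fm.neg (a.subst σ)).size = (Fm.neg a).size := hs (.neg a)
    show AcFrege.depth s (.neg (a.subst σ)) = _
    rw [AcFrege.depth, AcFrege.depth, e, iha]
  | and a b iha ihb =>
    have e : (Fm.and (a.subst σ) (b.subst σ)).size = (Fm.and a b).size := hs (.and a b)
    show AcFrege.depth s (.and (a.subst σ) (b.subst σ)) = _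
    rw [AcFrege.depth, AcFrege.depth, e, hk a, hk b, iha, ihb]
  | or a b iha ihb =>
    have e : (Fm.or (a.subst σ) (b.subst σ)).size = (Fm.or a b).size := hs (.or a b)
    show AcFrege.depth s (.or (a.subst σ) (b.subst σ)) = _
    rw [AcFrege.depth, AcFrege.depth, e, hk a, hk b, iha, ihb]
  | imp a b iha ihb =>
    have e : (Fm.imp (a.subst σ) (b.subst σ)).size = (Fm.imp a b).size := hs (.imp a b)
    show AcFrege.depth s (.imp (a.subst σ) (b.subst σ)) = _
    rw [AcFrege.depth, AcFrege.depth, e, hk b, iha, ihb]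

end Subst1

section Depth

variable {α : Type}

lemma depth_eq_zero {s : ℕ} {φ : Fm α} (h : φ.size ≤ s) : AcFrege.depth s φ = 0 :=
  AcFrege.depth_of_size_le h

/-- A formula which is a block of conjunctions for the larger threshold is one for the smaller
threshold. -/
lemma kind_anti {s s' : ℕ} (h : s ≤ s') (φ : Fm α) :
    AcFrege.kind s' φ = .small ∨ AcFrege.kind s' φ = AcFrege.kind s φ := by
  by_cases h1 : φ.size ≤ s'
  · exact Or.inl (AcFrege.kind_of_size_le h1)
  · right
    have h2 : ¬ φ.size ≤ s := fun h3 => h1 (h3.trans h)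
    cases φ with
    | var x => rfl
    | bot => rfl
    | neg a => rw [AcFrege.kind, AcFrege.kind, if_neg h1, if_neg h2]
    | and a b => rw [AcFrege.kind, AcFrege.kind, if_neg h1, if_neg h2]
    | or a b => rw [AcFrege.kind, AcFrege.kind, if_neg h1, if_neg h2]
    | imp a b => rw [AcFrege.kind, AcFrege.kind, if_neg h1, if_neg h2]

/-- The depth of a formula of the kind `small`. -/
lemma depth_of_kind_small {s : ℕ} {φ : Fm α} (h : AcFrege.kind s φ = .small) :
    AcFrege.depth s φ = 0 := by
  cases φ with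
  | var x => rfl
  | bot => rfl
  | neg a =>
    rw [AcFrege.kind] at h
    split_ifs at h with h1
    exact AcFrege.depth_of_size_le h1
  | and a b =>
    rw [AcFrege.kind] at h
    split_ifs at h with h1
    exact AcFrege.depth_of_size_le h1
  | or a b =>
    rw [AcFrege.kind] at h
    split_ifs at h with h1
    exact AcFrege.depth_of_size_le h1
  | imp a b =>
    rw [AcFrege.kind] at h
    split_ifs at h with h1
    exact AcFrege.depth_of_size_le h1

/-- A larger threshold gives a smaller depth. -/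
lemma depth_anti {s s' : ℕ} (h : s ≤ s') (φ : Fm α) :
    AcFrege.depth s' φ ≤ AcFrege.depth s φ := by
  have key : ∀ (ψ : Fm α), AcFrege.depth s' ψ ≤ AcFrege.depth s ψ → ∀ P : AcFrege.Kind → Prop,
      ∀ [DecidablePred P], ¬ P .small → ¬ P .neg →
      (if P (AcFrege.kind s' ψ) then AcFrege.depth s' ψ else AcFrege.depth s' ψ + 1) ≤
        (if P (AcFrege.kind s ψ) then AcFrege.depth s ψ else AcFrege.depth s ψ + 1) := by
    intro ψ hψ P _ hP hP'
    rcases kind_anti h ψ with h1 | h1
    · rw [h1, if_neg hP, depth_of_kind_small h1]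
      split_ifs with h2
      · refine AcFrege.one_le_depth ?_
        cases h3 : AcFrege.kind s ψ with
        | small => rw [h3] at h2; exact absurd h2 hP
        | neg => rw [h3] at h2; exact absurd h2 hP'
        | and => exact Or.inl rfl
        | or => exact Or.inr (Or.inl rfl)
        | imp => exact Or.inr (Or.inr rfl)
      · omega
    · rw [h1]
      split_ifs <;> omega
  induction φ with
  | var x => exact le_rfl
  | bot => exact le_rfl
  | neg a iha =>
    rw [AcFrege.depth_neg, AcFrege.depth_neg]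
    exact iha
  | and a b iha ihb =>
    by_cases h1 : (Fm.and a b).size ≤ s'
    · rw [AcFrege.depth_of_size_le h1]
      exact Nat.zero_le _
    · rw [AcFrege.depth_and_of_lt (by omega), AcFrege.depth_and_of_lt (by omega)]
      exact max_le_max (key a iha (· = .and) (by simp) (by simp))
        (key b ihb (· = .and) (by simp) (by simp))
  | or a b iha ihb =>
    by_cases h1 : (Fm.or a b).size ≤ s'
    · rw [AcFrege.depth_of_size_le h1]
      exact Nat.zero_le _
    · rw [AcFrege.depth_or_of_lt (by omega), AcFrege.depth_or_of_lt (by omega)]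
      exact max_le_max (key a iha (fun k => k = .or ∨ k = .imp) (by simp) (by simp))
        (key b ihb (fun k => k = .or ∨ k = .imp) (by simp) (by simp))
  | imp a b iha ihb =>
    by_cases h1 : (Fm.imp a b).size ≤ s'
    · rw [AcFrege.depth_of_size_le h1]
      exact Nat.zero_le _
    · rw [AcFrege.depth_imp_of_lt (by omega), AcFrege.depth_imp_of_lt (by omega)]
      exact max_le_max (Nat.add_le_add_right iha 1)
        (key b ihb (fun k => k = .or ∨ k = .imp) (by simp) (by simp))

end Depth

/-! ### Composition of derivations -/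

section Cut

variable {α : Type} {R : List Rule}

lemma cut_hyp {Γ Γ' L L0 : List (Fm α)} (h : IsDeriv R Γ L) (h0 : IsDeriv R Γ' L0)
    (hΓ : ∀ p ∈ Γ, p ∈ L0 ∨ p ∈ Γ') :
    ∃ L', IsDeriv R Γ' L' ∧ (∀ p ∈ L', p ∈ L ∨ p ∈ L0) ∧ L ⊆ L' ∧ L0 ⊆ L' ∧
      lsize L' ≤ lsize L + lsize L0 := by
  induction h with
  | nil => exact ⟨L0, h0, fun p hp => Or.inr hp, by simp, fun _ hp => hp, by simp [lsize]⟩
  | @hyp L φ _ hφ ih =>
    obtain ⟨L', h1, h2, h3, h4, h5⟩ := ih
    rcases hΓ φ hφ with h6 | h6
    · refine ⟨L', h1, ?_, ?_, h4, by rw [lsize_cons]; omega⟩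
      · intro p hp
        rcases h2 p hp with h | h
        · exact Or.inl (List.mem_cons_of_mem _ h)
        · exact Or.inr h
      · intro p hp
        rcases List.mem_cons.1 hp with rfl | hp
        · exact h4 h6
        · exact h3 hp
    · refine ⟨φ :: L', h1.hyp h6, ?_, ?_, fun p hp => List.mem_cons_of_mem _ (h4 hp),
        by rw [lsize_cons, lsize_cons]; omega⟩
      · intro p hp
        rcases List.mem_cons.1 hp with rfl | hp
        · exact Or.inl (List.mem_cons_self ..)
        · rcases h2 p hp with h | h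
          · exact Or.inl (List.mem_cons_of_mem _ h)
          · exact Or.inr h
      · intro p hp
        rcases List.mem_cons.1 hp with rfl | hp
        · exact List.mem_cons_self ..
        · exact List.mem_cons_of_mem _ (h3 hp)
  | @step L φ _ hi ih =>
    obtain ⟨L', h1, h2, h3, h4, h5⟩ := ih
    refine ⟨φ :: L', h1.step (hi.mono fun x hx => h3 hx), ?_, ?_,
      fun p hp => List.mem_cons_of_mem _ (h4 hp), by rw [lsize_cons, lsize_cons]; omega⟩
    · intro p hp
      rcases List.mem_cons.1 hp with rfl | hp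
      · exact Or.inl (List.mem_cons_self ..)
      · rcases h2 p hp with h | h
        · exact Or.inl (List.mem_cons_of_mem _ h)
        · exact Or.inr h
    · intro p hp
      rcases List.mem_cons.1 hp with rfl | hp
      · exact List.mem_cons_self ..
      · exact List.mem_cons_of_mem _ (h3 hp)

end Cut

/-! ### Closing the negated conjunction -/

section Close

variable {α : Type}

/-- Adding a small inference to a derivation from hypotheses. -/
lemma fr_rule (F : FregeSystem) {Γ L : List (Fm α)} (hL : IsDeriv F.rules Γ L) {M : ℕ}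
    (hM : 1 ≤ M) (prem : List (Fm ℕ)) (concl : Fm ℕ) (θ : List (Fm α))
    (ht : smallTest prem concl = true)
    (hv : ∀ v : ℕ → Prop, (∀ p ∈ prem, p.eval v) → concl.eval v)
    (hθ : ∀ x ∈ θ, x.size ≤ M) (hp : ∀ p ∈ prem, p.subst (sub θ) ∈ L) :
    ∃ L', IsDeriv F.rules Γ L' ∧ L ⊆ L' ∧ concl.subst (sub θ) ∈ L' ∧
      lsize L' ≤ lsize L + F.K * M := by
  obtain ⟨L₀, h1, h2, h3⟩ := F.K_spec prem concl ht hv
  have key : ∀ Q : List (Fm ℕ), IsDeriv F.rules prem Q →
      ∃ L', IsDeriv F.rules Γ L' ∧ L ⊆ L' ∧ (∀ ψ ∈ Q, ψ.subst (sub θ) ∈ L') ∧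
        lsize L' ≤ lsize L + lsize (Q.map (Fm.subst (sub θ))) := by
    intro Q hQ
    induction hQ with
    | nil => exact ⟨L, hL, fun _ h => h, by simp, by simp [lsize]⟩
    | @hyp Q φ _ hφ ih =>
      obtain ⟨L', a, b, c, d⟩ := ih
      refine ⟨L', a, b, ?_, by rw [List.map_cons, lsize_cons]; omega⟩
      intro ψ hψ
      rcases List.mem_cons.1 hψ with rfl | hψ
      · exact b (hp _ hφ)
      · exact c ψ hψ
    | @step Q φ _ hi ih =>
      obtain ⟨L', a, b, c, d⟩ := ih
      refine ⟨φ.subst (sub θ) :: L', a.step ?_, fun ψ hψ => List.mem_cons_of_mem _ (b hψ), ?_,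
        by rw [List.map_cons, lsize_cons, lsize_cons]; omega⟩
      · exact (hi.subst (sub θ)).mono (by
          intro x hx
          obtain ⟨p, hp, rfl⟩ := List.mem_map.1 hx
          exact c p hp)
      · intro ψ hψ
        rcases List.mem_cons.1 hψ with rfl | hψ
        · exact List.mem_cons_self ..
        · exact List.mem_cons_of_mem _ (c ψ hψ)
  obtain ⟨L', a, b, c, d⟩ := key L₀ h1
  refine ⟨L', a, b, c _ h2, d.trans ?_⟩
  have h5 := lsize_map_subst_le (sub θ) M hM L₀ (sub_size hM hθ)
  have h6 : lsize L₀ * M ≤ F.K * M := Nat.mul_le_mul_right _ h3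
  omega

lemma bk_and_valid (v : ℕ → Prop) (h : ∀ p ∈ [Fm.var 0, Fm.var 1], p.eval v) :
    (Fm.and (.var 0) (.var 1)).eval v := by
  simp only [List.mem_cons, List.not_mem_nil, or_false, forall_eq_or_imp, forall_eq, Fm.eval] at h ⊢
  exact h

lemma bk_contra_valid (v : ℕ → Prop) (h : ∀ p ∈ [Fm.neg (.var 0), Fm.var 0], p.eval v) :
    (Fm.bot : Fm ℕ).eval v := by
  simp only [List.mem_cons, List.not_mem_nil, or_false, forall_eq_or_imp, forall_eq, Fm.eval] at h
  exact h.1 h.2

/-- The balanced conjunction is built from its members. -/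
lemma build_conj (F : FregeSystem) (E : ℕ → Fm α) {a : ℕ} (hE : ∀ i, (E i).size ≤ a)
    {Γ : List (Fm α)} (hΓ : ∀ i, E i ∈ Γ ∨ E i = .neg .bot) : ∀ (κ s₀ : ℕ) (L : List (Fm α)),
    IsDeriv F.rules Γ L → ∃ L', IsDeriv F.rules Γ L' ∧ L ⊆ L' ∧ conjT E κ s₀ ∈ L' ∧
      lsize L' ≤ lsize L + F.K * (a + 1) * (2 ^ κ * (κ + 1)) := by
  have hK := F.K_pos
  intro κ
  induction κ with
  | zero =>
    intro s₀ L hL
    have e : F.K * (a + 1) * (2 ^ 0 * (0 + 1)) = F.K * a + F.K := by ring
    rw [e]
    rcases hΓ s₀ with h | h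
    · refine ⟨E s₀ :: L, hL.hyp h, fun p hp => List.mem_cons_of_mem _ hp,
        List.mem_cons_self .., ?_⟩
      rw [lsize_cons]
      have h1 := hE s₀
      have h2 : a ≤ F.K * a := Nat.le_mul_of_pos_left _ hK
      omega
    · obtain ⟨L', b1, b2, b3, b4⟩ := fr_rule F hL (M := 1) le_rfl [] (.neg .bot) [] (by decide)
        (by intro v _; exact fun h => h) (by simp) (by simp)
      refine ⟨L', b1, b2, ?_, by omega⟩
      show E s₀ ∈ L'
      rw [h]
      exact b3
  | succ κ ih =>
    intro s₀ L hL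
    obtain ⟨L1, a1, a2, a3, a4⟩ := ih s₀ L hL
    obtain ⟨L2, b1, b2, b3, b4⟩ := ih (s₀ + 2 ^ κ) L1 a1
    have z1 := conjT_size E hE κ s₀
    have z2 := conjT_size E hE κ (s₀ + 2 ^ κ)
    set Z := 2 ^ κ * (a + 1) with hZ
    obtain ⟨L3, c1, c2, c3, c4⟩ := fr_rule F b1 (M := Z) (by omega) [.var 0, .var 1]
      (.and (.var 0) (.var 1)) [conjT E κ s₀, conjT E κ (s₀ + 2 ^ κ)] (by decide) bk_and_valid (by
        simp only [List.mem_cons, List.not_mem_nil, or_false, forall_eq_or_imp, forall_eq]
        omega) (by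
        simp only [List.mem_cons, List.not_mem_nil, or_false, forall_eq_or_imp, forall_eq]
        refine ⟨?_, ?_⟩
        · simpa [Fm.subst, sub] using b2 a3
        · simpa [Fm.subst, sub] using b3)
    refine ⟨L3, c1, fun p hp => c2 (b2 (a2 hp)), ?_, ?_⟩
    · simpa [Fm.subst, sub, conjT] using c3
    · have e1 : F.K * (a + 1) * (2 ^ (κ + 1) * (κ + 1 + 1))
          = F.K * (a + 1) * (2 ^ κ * (κ + 1)) + F.K * (a + 1) * (2 ^ κ * (κ + 1))
            + 2 * (F.K * Z) := by
        rw [hZ]
        ring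
      rw [e1]
      omega

/-- The negated balanced conjunction is refuted from its members. -/
theorem close_conj (F : FregeSystem) (E : ℕ → Fm α) {a : ℕ} (hE : ∀ i, (E i).size ≤ a)
    (κ : ℕ) (Γ : List (Fm α)) (hΓ : ∀ i, E i ∈ Γ ∨ E i = .neg .bot) :
    ∃ L, IsDeriv F.rules (.neg (conjT E κ 0) :: Γ) L ∧ .bot ∈ L ∧
      lsize L ≤ 20 * F.K * (a + 1) * (2 ^ κ * (κ + 1)) := by
  have hK := F.K_pos
  obtain ⟨L1, a1, -, a3, a4⟩ := build_conj F E hE (Γ := .neg (conjT E κ 0) :: Γ) (by
    intro i
    rcases hΓ i with h | h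
    · exact Or.inl (List.mem_cons_of_mem _ h)
    · exact Or.inr h) κ 0 [] .nil
  have z := conjT_size E hE κ 0
  set Z := 2 ^ κ * (a + 1) with hZ
  have b1 : IsDeriv F.rules (.neg (conjT E κ 0) :: Γ) (.neg (conjT E κ 0) :: L1) :=
    a1.hyp (List.mem_cons_self ..)
  obtain ⟨L2, c1, c2, c3, c4⟩ := fr_rule F b1 (M := Z) (by omega) [.neg (.var 0), .var 0] .bot
    [conjT E κ 0] (by decide) bk_contra_valid (by
      simp only [List.mem_cons, List.not_mem_nil, or_false, forall_eq]
      omega) (by
      simp only [List.mem_cons, List.not_mem_nil, or_false, forall_eq_or_imp, forall_eq]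
      refine ⟨?_, ?_⟩
      · simp [Fm.subst, sub]
      · simpa [Fm.subst, sub] using Or.inr a3)
  refine ⟨L2, c1, by simpa [Fm.subst] using c3, ?_⟩
  rw [lsize_cons] at c4
  simp only [Fm.size] at c4
  have e0 : lsize ([] : List (Fm α)) = 0 := rfl
  have e1 : F.K * (a + 1) * (2 ^ κ * (κ + 1)) = F.K * Z * (κ + 1) := by
    rw [hZ]
    ring
  have e2 : 20 * F.K * (a + 1) * (2 ^ κ * (κ + 1)) = 20 * (F.K * Z * (κ + 1)) := by
    rw [hZ]
    ring
  have e3 : F.K * Z ≤ F.K * Z * (κ + 1) := Nat.le_mul_of_pos_right _ (by omega)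
  have e4 : Z ≤ F.K * Z := Nat.le_mul_of_pos_left _ hK
  rw [e1] at a4
  rw [e2]
  omega

end Close

end SizeSep
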