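import Pool.Agent.Work.MP_c07f0d_lc.SX.Sys

/-!
# Extended Frege proofs of almost linear size of contradictory lists of small parity equations
-/

set_option linter.unusedSectionVars false

namespace SizeSep

open FregeEF LineSize GridLine GridLine.Xor

variable {F : FregeSystem} {τ : Fm ℕ}

/-! ### One tree -/

lemma cnt_par_le (t : XT ℕ) (N : ℕ) : cnt (fun x => t.par x) N ≤ t.fm.size := by
  induction t with
  | leaf o =>
    cases o with
    | none =>
      rw [cnt_le_of_false (f := fun x => (XT.leaf none : XT ℕ).par x) N (fun i _ => rfl)]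
      exact Nat.zero_le _
    | some y =>
      have e : (fun x => (XT.leaf (some y) : XT ℕ).par x) = fun i => decide (i = y) := by
        funext x
        simp only [XT.par, eq_comm]
      rw [e]
      exact (cnt_single y N).trans (Fm.size_pos _)
  | node a b iha ihb =>
    have h := cnt_xor (fun x => a.par x) (fun x => b.par x) N
    have e : (fun x => (XT.node a b).par x) = fun x => xor (a.par x) (b.par x) := rfl
    rw [e]
    simp only [XT.fm, xor2, Fm.size]
    omega

/-- The premises at a node. -/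
def nodePremX : List (Fm ℕ) :=
  [Fm.iff (.var 0) (.var 1), Fm.iff (.var 2) (.var 3), Fm.iff (.var 4) (xor2 (.var 0) (.var 2))]

lemma node_validX (v : ℕ → Prop) (h : ∀ p ∈ nodePremX, p.eval v) :
    (Fm.iff (.var 4) (xor2 (.var 1) (.var 3))).eval v := by
  simp only [nodePremX, List.mem_cons, List.not_mem_nil, or_false, forall_eq_or_imp, forall_eq,
    Fm.eval, Fm.iff, xor2] at h ⊢
  obtain ⟨h1, h2, h3⟩ := h
  by_cases a1 : v 1 <;> by_cases a3 : v 3 <;> simp_all

/-- A chain for a tree of exclusive ors. -/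
lemma tree_chain {n : ℕ} (t : XT ℕ) : ∀ (s : St F τ), (∀ x, t.Occ x → x < n) → n ≤ s.k →
    ∃ (s' : St F τ) (Q : ℕ → Fm ℕ), Cont (50 * F.K * t.fm.size) s s' ∧
      Chain s'.L s'.k (fun x => t.par x) n Q ∧ Fm.iff (Q n) t.fm ∈ s'.L := by
  have hK := F.K_pos
  induction t with
  | leaf o =>
    cases o with
    | none =>
      intro s _ hn
      obtain ⟨s1, Q, a1, b1⟩ := mk_chain s (fun x => (XT.leaf none : XT ℕ).par x) n hn
      have h0 : Q n = .bot := by
        rw [b1.const (i := 0) (Nat.zero_le n) le_rfl (fun _ _ _ => rfl), b1.zero]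
      obtain ⟨s2, a2, k2, m2⟩ := s1.rule (M := 1) le_rfl [] (Fm.iff .bot .bot) []
        (by decide) (by intro v _; simp only [Fm.eval, Fm.iff]; tauto) (by simp) (by simp)
        (by simp)
      refine ⟨s2, Q, ?_, b1.cont a2, ?_⟩
      · refine (a1.trans a2 le_rfl).mono ?_
        rw [cnt_le_of_false (f := fun x => (XT.leaf none : XT ℕ).par x) n (fun i _ => rfl)]
        simp only [XT.fm, Fm.size]
        omega
      · rw [h0]
        simpa [Fm.subst, Fm.iff, XT.fm] using m2
    | some y =>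
      intro s hocc hn
      have hy : y < n := hocc y rfl
      have e : (fun x => (XT.leaf (some y) : XT ℕ).par x) = fun i => decide (i = y) := by
        funext x
        simp only [XT.par, eq_comm]
      obtain ⟨s1, Q, a1, b1⟩ := mk_chain s (fun i => decide (i = y)) n hn
      obtain ⟨s2, a2, k2, m2⟩ := single s1 hy b1 (hn.trans a1.2.1)
      refine ⟨s2, Q, ?_, ?_, m2⟩
      · refine (a1.trans a2 le_rfl).mono ?_
        have := cnt_single y n
        simp only [XT.fm, Fm.size]
        omega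
      · rw [e]
        exact b1.cont a2
  | node a b iha ihb =>
    intro s hocc hn
    obtain ⟨s1, P, a1, b1, c1⟩ := iha s (fun x hx => hocc x (Or.inl hx)) hn
    obtain ⟨s2, Q, a2, b2, c2⟩ := ihb s1 (fun x hx => hocc x (Or.inr hx)) (hn.trans a1.2.1)
    have hn2 : n ≤ s2.k := (hn.trans a1.2.1).trans a2.2.1
    obtain ⟨s3, R, a3, b3⟩ := mk_chain s2 (fun x => xor (a.par x) (b.par x)) n hn2
    have hn3 : n ≤ s3.k := hn2.trans a3.2.1
    have hP := b1.cont (a2.trans a3 le_rfl)
    have hQ := b2.cont a3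
    obtain ⟨s4, a4, k4, m4⟩ := merge s3 hP hQ b3 hn3 n le_rfl
    have hfa : Bel s4.k a.fm := (XT.bel_fm a fun x hx => hocc x (Or.inl hx)).mono (by omega)
    have hfb : Bel s4.k b.fm := (XT.bel_fm b fun x hx => hocc x (Or.inr hx)).mono (by omega)
    have hz : (XT.node a b).fm.size = 2 * a.fm.size + 2 * b.fm.size + 5 := by
      simp only [XT.fm, xor2, Fm.size]
      ring
    have hθ : ∀ t ∈ [P n, a.fm, Q n, b.fm, R n], t.size ≤ (XT.node a b).fm.size ∧ Bel s4.k t := by
      intro t ht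
      have hz1 := hz
      simp only [List.mem_cons, List.not_mem_nil, or_false] at ht
      rcases ht with rfl | rfl | rfl | rfl | rfl
      · refine ⟨?_, ?_⟩
        · have := hP.size _ le_rfl
          omega
        · rw [k4]; exact hP.bel _ le_rfl
      · exact ⟨by omega, hfa⟩
      · refine ⟨?_, ?_⟩
        · have := hQ.size _ le_rfl
          omega
        · rw [k4]; exact hQ.bel _ le_rfl
      · exact ⟨by omega, hfb⟩
      · refine ⟨?_, ?_⟩
        · have := b3.size _ le_rfl
          omega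
        · rw [k4]; exact b3.bel _ le_rfl
    obtain ⟨s5, a5, k5, m5⟩ := s4.rule (M := (XT.node a b).fm.size) (Fm.size_pos _) nodePremX
      (Fm.iff (.var 4) (xor2 (.var 1) (.var 3))) [P n, a.fm, Q n, b.fm, R n] (by decide) node_validX
      (fun t ht => (hθ t ht).1) (fun t ht => (hθ t ht).2) (by
        simp only [nodePremX, List.mem_cons, List.not_mem_nil, or_false, forall_eq_or_imp, forall_eq]
        refine ⟨?_, ?_, ?_⟩
        · simpa [Fm.subst, sub, Fm.iff] using a4.1 (a3.1 (a2.1 c1))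
        · simpa [Fm.subst, sub, Fm.iff] using a4.1 (a3.1 c2)
        · simpa [Fm.subst, sub, xor2, Fm.iff] using m4)
    refine ⟨s5, R, ?_, b3.cont (a4.trans a5 le_rfl), ?_⟩
    · refine (((a1.trans a2 le_rfl).trans a3 le_rfl).trans (a4.trans a5 le_rfl) le_rfl).mono ?_
      have e1 := cnt_par_le a n
      have e2 := cnt_par_le b n
      have e3 := cnt_xor (fun x => a.par x) (fun x => b.par x) n
      rw [hz]
      generalize a.fm.size = za at *
      generalize b.fm.size = zb at *
      have e4 : F.K * (1 + cnt (fun x => a.par x) n + cnt (fun x => b.par x) n)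
          ≤ F.K * (1 + za + zb) := Nat.mul_le_mul_left _ (by omega)
      have e5 : 23 * cnt (fun x => xor (a.par x) (b.par x)) n ≤ F.K * (23 * (za + zb)) := by
        calc 23 * cnt (fun x => xor (a.par x) (b.par x)) n ≤ 1 * (23 * (za + zb)) := by omega
          _ ≤ F.K * (23 * (za + zb)) := Nat.mul_le_mul_right _ hK
      have e6 : F.K * (1 + za + zb) = F.K + F.K * za + F.K * zb := by ring
      have e7 : F.K * (23 * (za + zb)) = 23 * (F.K * za) + 23 * (F.K * zb) := by ring
      have e8 : F.K * (2 * za + 2 * zb + 5) = 2 * (F.K * za) + 2 * (F.K * zb) + 5 * F.K := by ring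
      have e9 : 50 * F.K * (2 * za + 2 * zb + 5)
          = 100 * (F.K * za) + 100 * (F.K * zb) + 250 * F.K := by ring
      have e10 : 50 * F.K * za = 50 * (F.K * za) := by ring
      have e11 : 50 * F.K * zb = 50 * (F.K * zb) := by ring
      rw [e8, e9, e10, e11]
      omega
    · simpa [Fm.subst, sub, xor2, Fm.iff, XT.fm] using m5

/-! ### One equation -/

/-- The premises for one equation. -/
def eqPremX (r : Bool) : List (Fm ℕ) :=
  [.imp (.var 0) (LineSize.litF r (.var 1)), Fm.iff (.var 2) (.var 1)]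

lemma eq_testX (r : Bool) :
    smallTest (eqPremX r) (.imp (.var 0) (LineSize.litF r (.var 2))) = true := by
  cases r <;> decide

lemma eq_validX (r : Bool) (v : ℕ → Prop) (h : ∀ p ∈ eqPremX r, p.eval v) :
    (Fm.imp (.var 0) (LineSize.litF r (.var 2))).eval v := by
  simp only [eqPremX, List.mem_cons, List.not_mem_nil, or_false, forall_eq_or_imp, forall_eq] at h
  obtain ⟨h1, h2⟩ := h
  cases r <;>
    simp only [LineSize.litF, Fm.iff, Fm.eval, Bool.false_eq_true, if_false, if_true]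
      at h1 h2 ⊢ <;>
    (by_cases a1 : v 1 <;> simp_all)

/-- One equation. -/
lemma leafX {n : ℕ} (s : St F τ) (t : XT ℕ) (r : Bool) (G : Fm ℕ) (hG : G.size ≤ 1)
    (hGk : Bel s.k G) (hocc : ∀ x, t.Occ x → x < n) (hn : n ≤ s.k)
    (hE : Fm.imp G (LineSize.litF r t.fm) ∈ s.L) :
    ∃ (s' : St F τ) (Q : ℕ → Fm ℕ), Cont (51 * F.K * t.fm.size) s s' ∧
      Chain s'.L s'.k (fun x => t.par x) n Q ∧ Fm.imp G (LineSize.litF r (Q n)) ∈ s'.L := by
  obtain ⟨s1, Q, a1, b1, c1⟩ := tree_chain t s hocc hn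
  have hz := t.fm.size_pos
  have hθ : ∀ p ∈ [G, t.fm, Q n], p.size ≤ t.fm.size ∧ Bel s1.k p := by
    intro p hp
    simp only [List.mem_cons, List.not_mem_nil, or_false] at hp
    rcases hp with rfl | rfl | rfl
    · exact ⟨by omega, hGk.mono a1.2.1⟩
    · exact ⟨le_rfl, (XT.bel_fm t hocc).mono (hn.trans a1.2.1)⟩
    · have := b1.size _ le_rfl
      exact ⟨by omega, b1.bel _ le_rfl⟩
  obtain ⟨s2, a2, k2, m2⟩ := s1.rule (M := t.fm.size) hz (eqPremX r)
    (.imp (.var 0) (LineSize.litF r (.var 2))) [G, t.fm, Q n] (eq_testX r) (eq_validX r)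
    (fun p hp => (hθ p hp).1) (fun p hp => (hθ p hp).2) (by
      simp only [eqPremX, List.mem_cons, List.not_mem_nil, or_false, forall_eq_or_imp, forall_eq]
      refine ⟨?_, ?_⟩
      · simpa [litF_substN, Fm.subst, sub] using a1.1 hE
      · simpa [Fm.subst, sub, Fm.iff] using c1)
  refine ⟨s2, Q, ?_, b1.cont a2, ?_⟩
  · refine (a1.trans a2 le_rfl).mono ?_
    have e : 51 * F.K * t.fm.size = 50 * F.K * t.fm.size + F.K * t.fm.size := by ring
    omega
  · simpa [litF_substN, Fm.subst, sub] using m2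

/-! ### The sum of a list of equations -/

/-- The variables of the sum of a list of equations. -/
def Sys.flE (S : Sys) (l : List ℕ) : ℕ → Bool := fun i => valB (fun u => (S.T u).par i) l

/-- The right hand side of the sum. -/
def Sys.blE (S : Sys) (l : List ℕ) : Bool := valB S.r l

lemma Sys.cnt_flE (S : Sys) (l : List ℕ) (N : ℕ) : cnt (S.flE l) N ≤ S.a * l.length := by
  induction l with
  | nil =>
    rw [cnt_le_of_false (f := S.flE []) N (fun i _ => rfl)]
    omega
  | cons u l ih =>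
    have h1 := cnt_xor (fun i => (S.T u).par i) (S.flE l) N
    have h2 : cnt (fun i => (S.T u).par i) N ≤ S.a := by
      have h4 := cnt_par_le (S.T u) N
      have h5 := S.size u
      omega
    have h3 : cnt (S.flE (u :: l)) N = cnt (fun i => xor ((S.T u).par i) (S.flE l i)) N := rfl
    rw [h3, List.length_cons, Nat.mul_succ]
    omega

/-- The sum of a list of equations, by repeated halving. -/
lemma sum_treeX (S : Sys) (G : Fm ℕ) (hG : G.size ≤ 1) : ∀ (κ : ℕ) (l : List ℕ)
    (s : St F τ), l.length ≤ 2 ^ κ → Bel s.k G → S.n ≤ s.k →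
    (∀ u ∈ l, Fm.imp G (LineSize.litF (S.r u) (S.T u).fm) ∈ s.L) →
    ∃ (s' : St F τ) (Q : ℕ → Fm ℕ), Cont (51 * S.a * F.K * (2 ^ κ * (κ + 1))) s s' ∧
      Chain s'.L s'.k (S.flE l) S.n Q ∧ Fm.imp G (LineSize.litF (S.blE l) (Q S.n)) ∈ s'.L := by
  have hK := F.K_pos
  have ha := S.two_le_a
  have hKa : F.K ≤ S.a * F.K := Nat.le_mul_of_pos_left _ (by omega)
  intro κ
  induction κ with
  | zero =>
    intro l s hl hGk hn hE
    match l, hl, hE with
    | [], _, _ =>
      obtain ⟨s1, Q, a1, b1⟩ := mk_chain s (S.flE []) S.n hn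
      have h0 : Q S.n = .bot := by
        rw [b1.const (i := 0) (Nat.zero_le _) le_rfl (fun _ _ _ => rfl), b1.zero]
      obtain ⟨s2, a2, k2, m2⟩ := s1.rule (M := 1) le_rfl [] (.imp (.var 0) (.neg .bot)) [G]
        (by decide) (by intro v _; exact fun _ h => h) (by simpa using hG)
        (by simpa using hGk.mono a1.2.1) (by simp)
      refine ⟨s2, Q, ?_, b1.cont a2, ?_⟩
      · refine (a1.trans a2 le_rfl).mono ?_
        rw [cnt_le_of_false (f := S.flE []) S.n (fun i _ => rfl)]
        have e : 51 * S.a * F.K * (2 ^ 0 * (0 + 1)) = 51 * (S.a * F.K) := by ring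
        rw [e]
        omega
      · rw [h0]
        have : S.blE [] = false := rfl
        rw [this]
        simpa [LineSize.litF, Fm.subst, sub] using m2
    | [u], _, hE =>
      have h1 := hE u (List.mem_singleton.2 rfl)
      obtain ⟨s', Q, a, b, c⟩ := leafX s (S.T u) (S.r u) G hG hGk (S.below u) hn h1
      have e1 : S.flE [u] = fun x => (S.T u).par x := by
        funext i
        simp [Sys.flE, valB]
      have e2 : S.blE [u] = S.r u := by simp [Sys.blE, valB]
      refine ⟨s', Q, a.mono ?_, ?_, ?_⟩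
      · have h2 := S.size u
        have h3 : 51 * F.K * (S.T u).fm.size ≤ 51 * F.K * S.a :=
          Nat.mul_le_mul_left _ (by omega)
        have e : 51 * S.a * F.K * (2 ^ 0 * (0 + 1)) = 51 * F.K * S.a := by ring
        rw [e]
        exact h3
      · rw [e1]
        exact b
      · rw [e2]
        exact c
    | _ :: _ :: _, hl, _ => simp at hl
  | succ κ ih =>
    intro l s hl hGk hn hE
    have l1 : (l.take (2 ^ κ)).length ≤ 2 ^ κ := by
      rw [List.length_take]
      omega
    have l2 : (l.drop (2 ^ κ)).length ≤ 2 ^ κ := by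
      rw [List.length_drop]
      rw [pow_succ] at hl
      omega
    obtain ⟨s1, P, a1, b1, c1⟩ := ih (l.take (2 ^ κ)) s l1 hGk hn
      (fun u hu => hE u (List.mem_of_mem_take hu))
    obtain ⟨s2, Q, a2, b2, c2⟩ := ih (l.drop (2 ^ κ)) s1 l2 (hGk.mono a1.2.1) (hn.trans a1.2.1)
      (fun u hu => a1.1 (hE u (List.mem_of_mem_drop hu)))
    have hfl : S.flE l = fun i => xor (S.flE (l.take (2 ^ κ)) i) (S.flE (l.drop (2 ^ κ)) i) := by
      funext i
      show valB _ l = xor (valB _ _) (valB _ _)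
      rw [← valB_append, List.take_append_drop]
    have hbl : S.blE l = xor (S.blE (l.take (2 ^ κ))) (S.blE (l.drop (2 ^ κ))) := by
      show valB _ l = xor (valB _ _) (valB _ _)
      rw [← valB_append, List.take_append_drop]
    have hn2 : S.n ≤ s2.k := (hn.trans a1.2.1).trans a2.2.1
    obtain ⟨s3, R, a3, b3⟩ := mk_chain s2 (S.flE l) S.n hn2
    have hn3 : S.n ≤ s3.k := hn2.trans a3.2.1
    have b3' := b3
    rw [hfl] at b3'
    have hP := b1.cont (a2.trans a3 le_rfl)
    have hQ := b2.cont a3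
    obtain ⟨s4, a4, k4, m4⟩ := merge s3 hP hQ b3' hn3 S.n le_rfl
    have hθ : ∀ t ∈ [G, P S.n, Q S.n, R S.n], t.size ≤ 1 ∧ Bel s4.k t := by
      intro t ht
      rw [k4]
      simp only [List.mem_cons, List.not_mem_nil, or_false] at ht
      rcases ht with rfl | rfl | rfl | rfl
      · exact ⟨hG, hGk.mono ((a1.2.1.trans a2.2.1).trans a3.2.1)⟩
      · exact ⟨hP.size _ le_rfl, hP.bel _ le_rfl⟩
      · exact ⟨hQ.size _ le_rfl, hQ.bel _ le_rfl⟩
      · exact ⟨b3.size _ le_rfl, b3.bel _ le_rfl⟩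
    obtain ⟨s5, a5, k5, m5⟩ := s4.rule (M := 1) le_rfl
      (sPrem (S.blE (l.take (2 ^ κ))) (S.blE (l.drop (2 ^ κ))))
      (.imp (.var 0) (LineSize.litF (xor (S.blE (l.take (2 ^ κ))) (S.blE (l.drop (2 ^ κ)))) (.var 3)))
      [G, P S.n, Q S.n, R S.n] (s_test _ _) (s_valid _ _) (fun t ht => (hθ t ht).1)
      (fun t ht => (hθ t ht).2) (by
        simp only [sPrem, List.mem_cons, List.not_mem_nil, or_false, forall_eq_or_imp, forall_eq]
        refine ⟨?_, ?_, ?_⟩
        · simpa [litF_substN, Fm.subst, sub] using a4.1 (a3.1 (a2.1 c1))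
        · simpa [litF_substN, Fm.subst, sub] using a4.1 (a3.1 c2)
        · simpa [Fm.subst, sub, xor2, Fm.iff] using m4)
    refine ⟨s5, R, ?_, b3.cont (a4.trans a5 le_rfl), ?_⟩
    · refine (((a1.trans a2 le_rfl).trans a3 le_rfl).trans (a4.trans a5 le_rfl) le_rfl).mono ?_
      have e1 := S.cnt_flE l S.n
      have e2 := S.cnt_flE (l.take (2 ^ κ)) S.n
      have e3 := S.cnt_flE (l.drop (2 ^ κ)) S.n
      have hp : 1 ≤ 2 ^ κ := Nat.one_le_two_pow
      rw [pow_succ] at hl ⊢
      generalize 2 ^ κ = p at *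
      have d1 : S.a * l.length ≤ 2 * (S.a * p) := by
        calc S.a * l.length ≤ S.a * (p * 2) := Nat.mul_le_mul_left _ hl
          _ = 2 * (S.a * p) := by ring
      have d2 : S.a * (l.take p).length ≤ S.a * p := Nat.mul_le_mul_left _ l1
      have d3 : S.a * (l.drop p).length ≤ S.a * p := Nat.mul_le_mul_left _ l2
      have e4 : F.K * (1 + cnt (S.flE (l.take p)) S.n + cnt (S.flE (l.drop p)) S.n)
          ≤ F.K * (1 + 2 * (S.a * p)) := Nat.mul_le_mul_left _ (by omega)
      have e5 : 23 * cnt (S.flE l) S.n ≤ F.K * (46 * (S.a * p)) := by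
        calc 23 * cnt (S.flE l) S.n ≤ 1 * (46 * (S.a * p)) := by omega
          _ ≤ F.K * (46 * (S.a * p)) := Nat.mul_le_mul_right _ hK
      have e6 : 2 * F.K ≤ F.K * (S.a * p) := by
        calc 2 * F.K = F.K * (2 * 1) := by ring
          _ ≤ F.K * (S.a * p) := Nat.mul_le_mul_left _ (Nat.mul_le_mul ha hp)
      have e7 : 51 * S.a * F.K * (p * 2 * (κ + 1 + 1)) = 51 * S.a * F.K * (p * (κ + 1))
          + 51 * S.a * F.K * (p * (κ + 1)) + 102 * (F.K * (S.a * p)) := by ring
      have e8 : F.K * (1 + 2 * (S.a * p)) = F.K + 2 * (F.K * (S.a * p)) := by ring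
      have e9 : F.K * (46 * (S.a * p)) = 46 * (F.K * (S.a * p)) := by ring
      rw [e7]
      omega
    · rw [hbl]
      simpa [litF_substN, Fm.subst, sub] using m5

/-! ### The extended Frege proof -/

/-- The constant in the size of the extended Frege proofs. -/
def cE (a : ℕ) : ℕ := 200 * a

/-- Every extended Frege proof has a continuation which proves the tautology of `S`. -/
theorem ef_sys (S : Sys) (s : St F τ) (hn : S.n ≤ s.k) :
    ∃ s' : St F τ, Cont (cE S.a * F.K * (S.m * (Nat.clog 2 S.m + 1))) s s' ∧ S.tau ∈ s'.L := by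
  have hK := F.K_pos
  have ha := S.two_le_a
  set κ := Nat.clog 2 S.m with hκ
  have hkm : 2 ^ κ ≤ 2 * S.m := two_pow_clog_le S.hm
  have hmk : S.m ≤ 2 ^ κ := Nat.le_pow_clog (by norm_num) _
  obtain ⟨s1, G, a1, g1, h1, i1, j1⟩ := conj_ef (a := S.a) (by omega) S.E S.E_size κ 0 s
    (fun i => (S.E_bel i).mono hn)
  have hn1 : S.n ≤ s1.k := hn.trans a1.2.1
  obtain ⟨s2, Q, a2, b2, c2⟩ := sum_treeX S G g1 κ (List.range S.m) s1
    (by rw [List.length_range]; exact hmk) h1 hn1 (by
    intro u hu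
    have hu' : u < S.m := List.mem_range.1 hu
    have h := j1 u (hu'.trans_le hmk)
    rw [Nat.zero_add] at h
    unfold Sys.E at h
    rw [if_pos hu'] at h
    exact h)
  have hQ : Q S.n = .bot := by
    rw [b2.const (i := 0) (Nat.zero_le _) le_rfl (fun i _ _ => S.sum i), b2.zero]
  have hb : S.blE (List.range S.m) = true := S.charge
  rw [hb, hQ] at c2
  have c2' : Fm.imp G .bot ∈ s2.L := c2
  have z := conjT_size S.E S.E_size κ 0
  have hp : 1 ≤ 2 ^ κ := Nat.one_le_two_pow
  have hM : 1 ≤ 2 ^ κ * (S.a + 1) := Nat.mul_pos hp (by omega)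
  obtain ⟨s3, a3, k3, m3⟩ := s2.rule (M := 2 ^ κ * (S.a + 1)) hM
    [.imp (.var 0) (.var 1), Fm.imp (.var 1) .bot] (.neg (.var 0)) [conjT S.E κ 0, G] (by decide)
    f_valid (by
      simp only [List.mem_cons, List.not_mem_nil, or_false, forall_eq_or_imp, forall_eq]
      exact ⟨by omega, by omega⟩) (by
      simp only [List.mem_cons, List.not_mem_nil, or_false, forall_eq_or_imp, forall_eq]
      exact ⟨conjT_bel S.E (fun i => (S.E_bel i).mono (hn1.trans a2.2.1)) κ _,
        h1.mono a2.2.1⟩) (by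
      simp only [List.mem_cons, List.not_mem_nil, or_false, forall_eq_or_imp, forall_eq]
      refine ⟨?_, ?_⟩
      · simpa [Fm.subst, sub] using a2.1 i1
      · simpa [Fm.subst, sub] using c2')
  have m3' : S.tau ∈ s3.L := by
    have h9 : Fm.neg (conjT S.E κ 0) ∈ s3.L := by simpa [Fm.subst, sub] using m3
    exact h9
  refine ⟨s3, ((a1.trans a2 le_rfl).trans a3 le_rfl).mono ?_, m3'⟩
  have k1 : 2 ^ κ * (κ + 1) ≤ 2 * S.m * (κ + 1) := Nat.mul_le_mul_right _ hkm
  have k2 : 2 ^ κ * 1 ≤ 2 ^ κ * (κ + 1) := Nat.mul_le_mul_left _ (by omega)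
  have k3 : 20 * F.K * (S.a + 1) * (2 ^ κ * (κ + 1)) + 51 * S.a * F.K * (2 ^ κ * (κ + 1))
      + F.K * (2 ^ κ * (S.a + 1))
      = (71 * S.a + 20) * F.K * (2 ^ κ * (κ + 1)) + (S.a + 1) * F.K * (2 ^ κ * 1) := by ring
  rw [k3]
  calc (71 * S.a + 20) * F.K * (2 ^ κ * (κ + 1)) + (S.a + 1) * F.K * (2 ^ κ * 1)
      ≤ (71 * S.a + 20) * F.K * (2 ^ κ * (κ + 1)) + (S.a + 1) * F.K * (2 ^ κ * (κ + 1)) :=
        Nat.add_le_add_left (Nat.mul_le_mul_left _ k2) _
    _ = (72 * S.a + 21) * F.K * (2 ^ κ * (κ + 1)) := by ring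
    _ ≤ (72 * S.a + 21) * F.K * (2 * S.m * (κ + 1)) := Nat.mul_le_mul_left _ k1
    _ = (144 * S.a + 42) * (F.K * (S.m * (κ + 1))) := by ring
    _ ≤ (200 * S.a) * (F.K * (S.m * (κ + 1))) := Nat.mul_le_mul_right _ (by omega)
    _ = _ := by
      unfold cE
      ring

end SizeSep
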