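import Pool.Agent.Work.MP_c07f0d_lc.SX.Subs

/-!
# The elimination of few extension axioms

An extended Frege proof with `M` extension axioms gives `2 ^ M` Frege proofs, one for every choice
of the truth values of the extension variables, relative to the conjunction of the instances of the
extension axioms.  These are put together by `M` rounds of case distinctions.
-/

set_option linter.unusedSectionVars false

namespace SizeSep

open FregeEF AcFrege

/-! ### The Frege system -/

lemma deriv_mono {α : Type} {R R' : List Rule} (h : R ⊆ R') {Γ L : List (Fm α)}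
    (hL : IsDeriv R Γ L) : IsDeriv R' Γ L := by
  induction hL with
  | nil => exact .nil
  | hyp _ hφ ih => exact ih.hyp hφ
  | step _ hi ih =>
    obtain ⟨r, hr, σ, h1, h2⟩ := hi
    exact ih.step ⟨r, h hr, σ, h1, h2⟩

/-- The formula with all variables shifted by one. -/
def shF (φ : Fm ℕ) : Fm ℕ := φ.subst fun x => .var (x + 1)

/-- The rule relative to a premise. -/
def relR (r : Rule) : Rule :=
  ⟨r.prem.map fun p => .imp (.var 0) (shF p), .imp (.var 0) (shF r.concl)⟩

/-- The additional rules. -/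
def xRules : List Rule :=
  [⟨[], .imp (.and (.var 0) (.var 1)) (.var 1)⟩,
   ⟨[.imp (.var 0) (.var 2)], .imp (.and (.var 0) (.var 1)) (.var 2)⟩,
   ⟨[.imp (.and (.var 0) (Fm.iff .bot (.var 1))) (.var 2),
      .imp (.and (.var 0) (Fm.iff (.neg .bot) (.var 1))) (.var 2)], .imp (.var 0) (.var 2)⟩,
   ⟨[.imp (.neg .bot) (.var 0)], .var 0⟩]

/-- The Frege system in which the extension variables are eliminated. -/
def exF (F : FregeSystem) : FregeSystem where
  rules := F.rules ++ (F.rules.map relR ++ xRules)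
  sound := by
    intro r hr v hv
    rcases List.mem_append.1 hr with h | h
    · exact F.sound r h v hv
    rcases List.mem_append.1 h with h | h
    · obtain ⟨r', hr', rfl⟩ := List.mem_map.1 h
      intro h0
      have h1 : (shF r'.concl).eval v ↔ r'.concl.eval fun x => v (x + 1) := by
        unfold shF
        rw [Fm.eval_subst]
        rfl
      show (shF r'.concl).eval v
      rw [h1]
      refine F.sound r' hr' _ fun p hp => ?_
      have h2 := hv _ (List.mem_map_of_mem hp)
      have h3 : (shF p).eval v := h2 h0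
      unfold shF at h3
      rw [Fm.eval_subst] at h3
      exact h3
    · simp only [xRules, List.mem_cons, List.not_mem_nil, or_false] at h
      rcases h with rfl | rfl | rfl | rfl
      · exact fun h => h.2
      · have h1 := hv _ (List.mem_cons_self ..)
        exact fun h => h1 h.1
      · have h1 := hv _ (List.mem_cons_self ..)
        have h2 := hv _ (List.mem_cons_of_mem _ (List.mem_cons_self ..))
        intro h0
        by_cases h3 : v 1
        · exact h2 ⟨h0, fun _ => h3, fun _ h => h⟩
        · exact h1 ⟨h0, fun h => h.elim, fun h => h3 h⟩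
      · have h1 := hv _ (List.mem_cons_self ..)
        exact h1 fun h => h
  complete := by
    intro Γ φ h
    obtain ⟨L, hL⟩ := F.complete Γ φ h
    exact ⟨L, deriv_mono (List.subset_append_left _ _) hL⟩

lemma xRules_sub (F : FregeSystem) {r : Rule} (h : r ∈ xRules) : r ∈ (exF F).rules :=
  List.mem_append_right _ (List.mem_append_right _ h)

/-- The substitution of three formulas. -/
def s3 {α : Type} (a b c : Fm α) : ℕ → Fm α
  | 0 => a
  | 1 => b
  | _ => c

variable {F : FregeSystem}

lemma inf_rel {α β : Type} {L : List (Fm α)} {φ : Fm α} (h : Infers F.rules L φ) (P : Fm β)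
    (σ : α → Fm β) {D : List (Fm β)} (hD : ∀ ψ ∈ L, .imp P (ψ.subst σ) ∈ D) :
    Infers (exF F).rules D (.imp P (φ.subst σ)) := by
  obtain ⟨r, hr, ρ, h1, h2⟩ := h
  have key : ∀ p : Fm ℕ, (Fm.imp (.var 0) (shF p)).subst
      (fun x => Nat.casesOn x P fun y => (ρ y).subst σ) = .imp P ((p.subst ρ).subst σ) := by
    intro p
    rw [Fm.subst_subst]
    show Fm.imp P ((shF p).subst _) = _
    unfold shF
    rw [Fm.subst_subst]
    rfl
  refine ⟨relR r, List.mem_append_right _ (List.mem_append_left _ (List.mem_map_of_mem hr)),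
    fun x => Nat.casesOn x P fun y => (ρ y).subst σ, ?_, ?_⟩
  · intro p hp
    obtain ⟨p', hp', rfl⟩ := List.mem_map.1 hp
    rw [key]
    exact hD _ (h1 p' hp')
  · rw [← h2]
    exact key _

lemma inf_e1 {α : Type} (P X : Fm α) (D : List (Fm α)) :
    Infers (exF F).rules D (.imp (.and P X) X) :=
  ⟨⟨[], .imp (.and (.var 0) (.var 1)) (.var 1)⟩, xRules_sub F (by simp [xRules]), s3 P X X,
    by simp, rfl⟩

lemma inf_e2 {α : Type} {P X Y : Fm α} {D : List (Fm α)} (h : .imp P Y ∈ D) :
    Infers (exF F).rules D (.imp (.and P X) Y) :=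
  ⟨⟨[.imp (.var 0) (.var 2)], .imp (.and (.var 0) (.var 1)) (.var 2)⟩,
    xRules_sub F (by simp [xRules]), s3 P X Y, by
      intro p hp
      rw [List.mem_singleton] at hp
      subst hp
      exact h, rfl⟩

lemma inf_e3 {α : Type} {P X Y : Fm α} {D : List (Fm α)}
    (h : .imp (.and P (Fm.iff .bot X)) Y ∈ D)
    (h' : .imp (.and P (Fm.iff (.neg .bot) X)) Y ∈ D) :
    Infers (exF F).rules D (.imp P Y) :=
  ⟨⟨[.imp (.and (.var 0) (Fm.iff .bot (.var 1))) (.var 2),
      .imp (.and (.var 0) (Fm.iff (.neg .bot) (.var 1))) (.var 2)], .imp (.var 0) (.var 2)⟩,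
    xRules_sub F (by simp [xRules]), s3 P X Y, by
      intro p hp
      rcases List.mem_cons.1 hp with rfl | hp
      · exact h
      · rw [List.mem_singleton] at hp
        subst hp
        exact h', rfl⟩

lemma inf_e4 {α : Type} {Y : Fm α} {D : List (Fm α)} (h : .imp (.neg .bot) Y ∈ D) :
    Infers (exF F).rules D Y :=
  ⟨⟨[.imp (.neg .bot) (.var 0)], .var 0⟩, xRules_sub F (by simp [xRules]), s3 Y Y Y, by
      intro p hp
      rw [List.mem_singleton] at hp
      subst hp
      exact h, rfl⟩

lemma deriv_map_append {α β : Type} {R : List Rule} {Γ D : List (Fm α)} (hD : IsDeriv R Γ D)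
    {f : β → Fm α} : ∀ {L : List β}, (∀ ψ ∈ L, Infers R D (f ψ)) → IsDeriv R Γ (L.map f ++ D)
  | [], _ => hD
  | ψ :: L, h => by
    refine IsDeriv.step (deriv_map_append hD fun χ hχ => h χ (List.mem_cons_of_mem _ hχ)) ?_
    exact (h ψ (List.mem_cons_self ..)).mono fun x hx => List.mem_append_right _ hx

/-! ### The assignments of truth values to the extension variables -/

/-- The constants. -/
def cst : Bool → Fm ℕ
  | true => .neg .bot
  | false => .bot

/-- The values of the extension variables. -/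
def assign : List (ℕ × Fm ℕ) → List Bool → ℕ → Fm ℕ
  | p :: E, b :: bs => fun x => if x = p.1 then cst b else assign E bs x
  | _, _ => fun x => .var x

/-- The conjunction of the instances of the extension axioms. -/
def PE : List (ℕ × Fm ℕ) → List Bool → Fm ℕ
  | p :: E, b :: bs => .and (PE E bs) (Fm.iff (cst b) (p.2.subst (assign E bs)))
  | _, _ => .neg .bot

lemma PE_nil (E : List (ℕ × Fm ℕ)) : PE E [] = .neg .bot := by
  cases E <;> rfl

lemma assign_nil (E : List (ℕ × Fm ℕ)) : assign E [] = fun x => .var x := by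
  cases E <;> rfl

lemma assign_or (E : List (ℕ × Fm ℕ)) : ∀ (bs : List Bool) (x : ℕ),
    assign E bs x = .bot ∨ assign E bs x = .neg .bot ∨ ∃ y, assign E bs x = .var y := by
  induction E with
  | nil => exact fun bs x => Or.inr (Or.inr ⟨x, rfl⟩)
  | cons p E ih =>
    intro bs x
    cases bs with
    | nil => exact Or.inr (Or.inr ⟨x, rfl⟩)
    | cons b bs =>
      have e : assign (p :: E) (b :: bs) x = if x = p.1 then cst b else assign E bs x := rfl
      rw [e]
      split_ifs
      · cases b
        · exact Or.inl rfl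
        · exact Or.inr (Or.inl rfl)
      · exact ih bs x

lemma assign_size (E : List (ℕ × Fm ℕ)) (bs : List Bool) (x : ℕ) : (assign E bs x).size ≤ 2 := by
  rcases assign_or E bs x with h | h | ⟨y, h⟩ <;> rw [h] <;> simp [Fm.size]

lemma subst_assign_cons {φ ψ : Fm ℕ} {q : ℕ} {E : List (ℕ × Fm ℕ)} {b : Bool} {bs : List Bool}
    (h : ¬ ψ.Occurs q) : ψ.subst (assign ((q, φ) :: E) (b :: bs)) = ψ.subst (assign E bs) := by
  refine Fm.subst_congr fun x hx => ?_
  have hne : x ≠ q := by
    rintro rfl
    exact h hx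
  show (if x = q then cst b else assign E bs x) = _
  rw [if_neg hne]

lemma subst_assign_iff {φ : Fm ℕ} {q : ℕ} {E : List (ℕ × Fm ℕ)} {b : Bool} {bs : List Bool}
    (h : ¬ φ.Occurs q) : (Fm.iff (.var q) φ).subst (assign ((q, φ) :: E) (b :: bs))
      = Fm.iff (cst b) (φ.subst (assign E bs)) := by
  have h1 := subst_assign_cons (φ := φ) (E := E) (b := b) (bs := bs) h
  have h2 : assign ((q, φ) :: E) (b :: bs) q = cst b := by
    show (if q = q then cst b else _) = _
    rw [if_pos rfl]
  unfold Fm.iff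
  simp only [Fm.subst, h1, h2]

lemma subst_assign_self {τ : Fm ℕ} {E : List (ℕ × Fm ℕ)} (h : ∀ p ∈ E, ¬ τ.Occurs p.1)
    (bs : List Bool) : τ.subst (assign E bs) = τ := by
  refine Eq.trans (Fm.subst_congr (ρ := fun x => .var x) fun x hx => ?_) (Fm.subst_var τ)
  induction E generalizing bs with
  | nil => rfl
  | cons p E ih =>
    cases bs with
    | nil => rfl
    | cons b bs =>
      have hne : x ≠ p.1 := by
        rintro rfl
        exact h p (List.mem_cons_self ..) hx
      show (if x = p.1 then cst b else assign E bs x) = _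
      rw [if_neg hne]
      exact ih (fun p hp => h p (List.mem_cons_of_mem _ hp)) bs

lemma isEF_mem {R : List Rule} {τ : Fm ℕ} {L : List (Fm ℕ)} {E : List (ℕ × Fm ℕ)}
    (h : IsEF R τ L E) : ∀ p ∈ E, Fm.iff (.var p.1) p.2 ∈ L ∧ ¬ p.2.Occurs p.1 ∧
      ¬ τ.Occurs p.1 := by
  induction h with
  | nil => simp
  | step _ _ ih => exact fun p hp => ⟨List.mem_cons_of_mem _ (ih p hp).1, (ih p hp).2⟩
  | ext q φ _ h1 h2 h3 ih =>
    intro p hp
    rcases List.mem_cons.1 hp with rfl | hp
    · exact ⟨List.mem_cons_self .., h1, h3⟩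
    · exact ⟨List.mem_cons_of_mem _ (ih p hp).1, (ih p hp).2⟩

/-! ### The branches -/

/-- The lines of the new proof. -/
def Good (L : List (Fm ℕ)) (E : List (ℕ × Fm ℕ)) (χ : Fm ℕ) : Prop :=
  ∃ j ≤ E.length, ∃ cs : List Bool, cs.length = E.length - j ∧
    ∃ ψ ∈ L, χ = .imp (PE (E.drop j) cs) (ψ.subst (assign (E.drop j) cs))

lemma Good.mono {L L' : List (Fm ℕ)} {E : List (ℕ × Fm ℕ)} {χ : Fm ℕ} (h : Good L E χ)
    (hL : L ⊆ L') : Good L' E χ := by
  obtain ⟨j, hj, cs, h1, ψ, hψ, h2⟩ := h
  exact ⟨j, hj, cs, h1, ψ, hL hψ, h2⟩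

lemma Good.cons {L : List (Fm ℕ)} {E : List (ℕ × Fm ℕ)} {χ : Fm ℕ} (p : ℕ × Fm ℕ)
    (h : Good L E χ) : Good L (p :: E) χ := by
  obtain ⟨j, hj, cs, h1, ψ, hψ, h2⟩ := h
  exact ⟨j + 1, by simpa using hj, cs, by simpa using h1, ψ, hψ, h2⟩

lemma good_zero {L : List (Fm ℕ)} {E : List (ℕ × Fm ℕ)} {bs : List Bool}
    (hbs : bs.length = E.length) {ψ : Fm ℕ} (hψ : ψ ∈ L) :
    Good L E (.imp (PE E bs) (ψ.subst (assign E bs))) :=
  ⟨0, Nat.zero_le _, bs, by simpa using hbs, ψ, hψ, rfl⟩

/-- The derivation of one branch. -/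
theorem branch {τ : Fm ℕ} {L : List (Fm ℕ)} {E : List (ℕ × Fm ℕ)} (h : IsEF F.rules τ L E) :
    ∀ bs : List Bool, bs.length = E.length → ∃ D, IsDeriv (exF F).rules [] D ∧
      (∀ ψ ∈ L, .imp (PE E bs) (ψ.subst (assign E bs)) ∈ D) ∧ ∀ χ ∈ D, Good L E χ := by
  induction h with
  | nil => exact fun bs _ => ⟨[], .nil, by simp, by simp⟩
  | @step L E φ _ hi ih =>
    intro bs hbs
    obtain ⟨D, h1, h2, h3⟩ := ih bs hbs
    refine ⟨_ :: D, h1.step (inf_rel hi (PE E bs) (assign E bs) h2), ?_, ?_⟩
    · intro ψ hψ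
      rcases List.mem_cons.1 hψ with rfl | hψ
      · exact List.mem_cons_self ..
      · exact List.mem_cons_of_mem _ (h2 ψ hψ)
    · intro χ hχ
      rcases List.mem_cons.1 hχ with rfl | hχ
      · exact good_zero hbs (List.mem_cons_self ..)
      · exact (h3 χ hχ).mono (List.subset_cons_self _ _)
  | @ext L E q φ _ hq1 hq2 hq3 ih =>
    intro bs hbs
    rcases bs with _ | ⟨b, bs⟩
    · simp at hbs
    have hbs' : bs.length = E.length := by simpa using hbs
    obtain ⟨D, h1, h2, h3⟩ := ih bs hbs'
    have e1 := subst_assign_iff (E := E) (b := b) (bs := bs) hq1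
    have e2 : ∀ ψ ∈ L, ψ.subst (assign ((q, φ) :: E) (b :: bs)) = ψ.subst (assign E bs) :=
      fun ψ hψ => subst_assign_cons (hq2 ψ hψ)
    have h4 : IsDeriv (exF F).rules []
        (L.map (fun ψ => .imp (PE ((q, φ) :: E) (b :: bs))
          (ψ.subst (assign ((q, φ) :: E) (b :: bs)))) ++ D) := by
      refine deriv_map_append h1 fun ψ hψ => ?_
      rw [e2 ψ hψ]
      exact inf_e2 (h2 ψ hψ)
    refine ⟨_ :: _, h4.step (φ := .imp (PE ((q, φ) :: E) (b :: bs))
      ((Fm.iff (.var q) φ).subst (assign ((q, φ) :: E) (b :: bs)))) ?_, ?_, ?_⟩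
    · rw [e1]
      exact inf_e1 _ _ _
    · intro ψ hψ
      rcases List.mem_cons.1 hψ with rfl | hψ
      · exact List.mem_cons_self ..
      · exact List.mem_cons_of_mem _ (List.mem_append_left _ (List.mem_map.2 ⟨ψ, hψ, rfl⟩))
    · intro χ hχ
      rcases List.mem_cons.1 hχ with rfl | hχ
      · exact good_zero hbs (List.mem_cons_self ..)
      rcases List.mem_append.1 hχ with hχ | hχ
      · obtain ⟨ψ, hψ, rfl⟩ := List.mem_map.1 hχ
        exact good_zero hbs (List.mem_cons_of_mem _ hψ)
      · exact ((h3 χ hχ).mono (List.subset_cons_self _ _)).cons _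

/-- The branches are merged. -/
theorem merged {τ : Fm ℕ} {L : List (Fm ℕ)} {E : List (ℕ × Fm ℕ)} (h : IsEF F.rules τ L E)
    (hτ : τ ∈ L) : ∀ j ≤ E.length, ∀ cs : List Bool, cs.length = E.length - j →
      ∃ D, IsDeriv (exF F).rules [] D ∧ .imp (PE (E.drop j) cs) τ ∈ D ∧ ∀ χ ∈ D, Good L E χ := by
  have hE := isEF_mem h
  have hs : ∀ j (cs : List Bool), τ.subst (assign (E.drop j) cs) = τ := fun j cs =>
    subst_assign_self (fun p hp => (hE p (List.mem_of_mem_drop hp)).2.2) cs
  intro j
  induction j with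
  | zero =>
    intro _ cs hcs
    obtain ⟨D, h1, h2, h3⟩ := branch h cs (by simpa using hcs)
    refine ⟨D, h1, ?_, h3⟩
    have := h2 τ hτ
    rwa [show τ.subst (assign E cs) = τ from hs 0 cs] at this
  | succ j ih =>
    intro hj cs hcs
    have hlt : j < E.length := by omega
    have e : E.drop j = E[j] :: E.drop (j + 1) := List.drop_eq_getElem_cons hlt
    obtain ⟨D0, a1, a2, a3⟩ := ih (by omega) (false :: cs) (by rw [List.length_cons]; omega)
    obtain ⟨D1, b1, b2, b3⟩ := ih (by omega) (true :: cs) (by rw [List.length_cons]; omega)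
    rw [e] at a2 b2
    refine ⟨_ :: (D0 ++ D1), (a1.append b1).step (φ := .imp (PE (E.drop (j + 1)) cs) τ)
      (inf_e3 (X := (E[j]).2.subst (assign (E.drop (j + 1)) cs))
        (List.mem_append_left _ a2) (List.mem_append_right _ b2)), List.mem_cons_self .., ?_⟩
    intro χ hχ
    rcases List.mem_cons.1 hχ with rfl | hχ
    · exact ⟨j + 1, hj, cs, hcs, τ, hτ, by rw [hs]⟩
    rcases List.mem_append.1 hχ with hχ | hχ
    · exact a3 χ hχ
    · exact b3 χ hχ

/-- The Frege proof without extension variables. -/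
theorem unext {τ : Fm ℕ} {L : List (Fm ℕ)} {E : List (ℕ × Fm ℕ)} (h : F.IsEFProof τ L E) :
    ∃ L', (exF F).IsProof τ L' ∧ ∀ χ ∈ L', χ = τ ∨ Good L E χ := by
  obtain ⟨h1, h2⟩ := h
  have hτ : τ ∈ L := List.mem_of_mem_head? (by rw [h2]; rfl)
  obtain ⟨D, a1, a2, a3⟩ := merged h1 hτ E.length le_rfl [] (by simp)
  rw [PE_nil] at a2
  refine ⟨τ :: D, ⟨a1.step (inf_e4 a2), rfl⟩, ?_⟩
  intro χ hχ
  rcases List.mem_cons.1 hχ with rfl | hχ
  · exact Or.inl rfl
  · exact Or.inr (a3 χ hχ)

/-! ### The depth of the lines -/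

lemma kind_substT {α β : Type} {σ : α → Fm β} {T t : ℕ} (hT : 1 ≤ T) (hσ : ∀ x, (σ x).size ≤ T)
    (ht : 1 ≤ t) (φ : Fm α) : kind (t * T) (φ.subst σ) = .small ∨
      kind (t * T) (φ.subst σ) = kind t φ := by
  by_cases h1 : (φ.subst σ).size ≤ t * T
  · exact Or.inl (kind_of_size_le h1)
  · have h2 : ¬ φ.size ≤ t := by
      intro h3
      have h4 := Fm.size_subst_le σ T hT φ fun x _ => hσ x
      exact h1 (h4.trans (Nat.mul_le_mul_right _ h3))
    cases φ with
    | var x => exact absurd ht h2
    | bot => exact absurd ht h2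
    | neg a =>
      right
      have h3 : ¬ (Fm.neg (a.subst σ)).size ≤ t * T := h1
      show kind (t * T) (.neg (a.subst σ)) = _
      rw [kind, kind, if_neg h3, if_neg h2]
    | and a b =>
      right
      have h3 : ¬ (Fm.and (a.subst σ) (b.subst σ)).size ≤ t * T := h1
      show kind (t * T) (.and (a.subst σ) (b.subst σ)) = _
      rw [kind, kind, if_neg h3, if_neg h2]
    | or a b =>
      right
      have h3 : ¬ (Fm.or (a.subst σ) (b.subst σ)).size ≤ t * T := h1
      show kind (t * T) (.or (a.subst σ) (b.subst σ)) = _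
      rw [kind, kind, if_neg h3, if_neg h2]
    | imp a b =>
      right
      have h3 : ¬ (Fm.imp (a.subst σ) (b.subst σ)).size ≤ t * T := h1
      show kind (t * T) (.imp (a.subst σ) (b.subst σ)) = _
      rw [kind, kind, if_neg h3, if_neg h2]

/-- The depth after a substitution of small formulas. -/
lemma depth_substT {α β : Type} {σ : α → Fm β} {T t : ℕ} (hT : 1 ≤ T)
    (hσ : ∀ x, (σ x).size ≤ T) (ht : 1 ≤ t) (φ : Fm α) :
    depth (t * T) (φ.subst σ) ≤ depth t φ := by
  have hsz : ∀ ψ : Fm α, ¬ (ψ.subst σ).size ≤ t * T → t < ψ.size := by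
    intro ψ h1
    by_contra h3
    have h4 := Fm.size_subst_le σ T hT ψ fun x _ => hσ x
    exact h1 (h4.trans (Nat.mul_le_mul_right _ (by omega)))
  have key : ∀ (ψ : Fm α), depth (t * T) (ψ.subst σ) ≤ depth t ψ → ∀ P : Kind → Prop,
      ∀ [DecidablePred P], ¬ P .small → ¬ P .neg →
      (if P (kind (t * T) (ψ.subst σ)) then depth (t * T) (ψ.subst σ)
        else depth (t * T) (ψ.subst σ) + 1) ≤
        (if P (kind t ψ) then depth t ψ else depth t ψ + 1) := by
    intro ψ hψ P _ hP hP'
    rcases kind_substT hT hσ ht ψ with h1 | h1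
    · rw [h1, if_neg hP, depth_of_kind_small h1]
      split_ifs with h2
      · refine one_le_depth ?_
        cases h3 : kind t ψ with
        | small => rw [h3] at h2; exact absurd h2 hP
        | neg => rw [h3] at h2; exact absurd h2 hP'
        | and => exact Or.inl rfl
        | or => exact Or.inr (Or.inl rfl)
        | imp => exact Or.inr (Or.inr rfl)
      · omega
    · rw [h1]
      split_ifs <;> omega
  induction φ with
  | var x =>
    rw [show (Fm.var x).subst σ = σ x from rfl, depth_of_size_le (s := t * T)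
      ((hσ x).trans (Nat.le_mul_of_pos_left _ ht))]
    exact Nat.zero_le _
  | bot => exact le_rfl
  | neg a iha =>
    show depth (t * T) (.neg (a.subst σ)) ≤ _
    rw [depth_neg, depth_neg]
    exact iha
  | and a b iha ihb =>
    show depth (t * T) (.and (a.subst σ) (b.subst σ)) ≤ _
    by_cases h1 : (Fm.and (a.subst σ) (b.subst σ)).size ≤ t * T
    · rw [depth_of_size_le h1]
      exact Nat.zero_le _
    · rw [depth_and_of_lt (by omega), depth_and_of_lt (hsz (.and a b) h1)]
      exact max_le_max (key a iha (· = .and) (by simp) (by simp))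
        (key b ihb (· = .and) (by simp) (by simp))
  | or a b iha ihb =>
    show depth (t * T) (.or (a.subst σ) (b.subst σ)) ≤ _
    by_cases h1 : (Fm.or (a.subst σ) (b.subst σ)).size ≤ t * T
    · rw [depth_of_size_le h1]
      exact Nat.zero_le _
    · rw [depth_or_of_lt (by omega), depth_or_of_lt (hsz (.or a b) h1)]
      exact max_le_max (key a iha (fun k => k = .or ∨ k = .imp) (by simp) (by simp))
        (key b ihb (fun k => k = .or ∨ k = .imp) (by simp) (by simp))
  | imp a b iha ihb =>
    show depth (t * T) (.imp (a.subst σ) (b.subst σ)) ≤ _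
    by_cases h1 : (Fm.imp (a.subst σ) (b.subst σ)).size ≤ t * T
    · rw [depth_of_size_le h1]
      exact Nat.zero_le _
    · rw [depth_imp_of_lt (by omega), depth_imp_of_lt (hsz (.imp a b) h1)]
      exact max_le_max (Nat.add_le_add_right iha 1)
        (key b ihb (fun k => k = .or ∨ k = .imp) (by simp) (by simp))

lemma depth_and_le {α : Type} {s m : ℕ} {a b : Fm α} (ha : depth s a ≤ m)
    (ha' : kind s a = .small ∨ kind s a = .and) (hb : depth s b ≤ m)
    (hb' : kind s b = .small ∨ kind s b = .and) (hm : 1 ≤ m) : depth s (.and a b) ≤ m := by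
  by_cases h : (Fm.and a b).size ≤ s
  · rw [depth_of_size_le h]
    exact Nat.zero_le _
  · rw [depth_and_of_lt (by omega)]
    refine max_le ?_ ?_
    · rcases ha' with h1 | h1
      · rw [depth_of_kind_small h1]
        split_ifs <;> omega
      · rw [if_pos h1]
        exact ha
    · rcases hb' with h1 | h1
      · rw [depth_of_kind_small h1]
        split_ifs <;> omega
      · rw [if_pos h1]
        exact hb

lemma kind_and_or {α : Type} (s : ℕ) (a b : Fm α) :
    kind s (.and a b) = .small ∨ kind s (.and a b) = .and := by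
  rw [kind]
  split_ifs
  · exact Or.inl rfl
  · exact Or.inr rfl

/-- The depth of the premises. -/
lemma depth_PE {t d : ℕ} (ht : 1 ≤ t) : ∀ (E : List (ℕ × Fm ℕ)) (bs : List Bool),
    (∀ p ∈ E, ¬ p.2.Occurs p.1 ∧ depth t (Fm.iff (.var p.1) p.2) ≤ d) →
    depth (t * 2) (PE E bs) ≤ d + 1 ∧
      (kind (t * 2) (PE E bs) = .small ∨ kind (t * 2) (PE E bs) = .and) := by
  have h0 : depth (t * 2) (Fm.neg (.bot : Fm ℕ)) ≤ d + 1 ∧
      (kind (t * 2) (Fm.neg (.bot : Fm ℕ)) = .small ∨
        kind (t * 2) (Fm.neg (.bot : Fm ℕ)) = .and) := by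
    have h1 : (Fm.neg (.bot : Fm ℕ)).size ≤ t * 2 := by
      simp only [Fm.size]
      omega
    rw [depth_of_size_le h1]
    exact ⟨Nat.zero_le _, Or.inl (kind_of_size_le h1)⟩
  intro E
  induction E with
  | nil => exact fun bs _ => h0
  | cons p E ih =>
    intro bs hE
    rcases bs with _ | ⟨b, bs⟩
    · exact h0
    obtain ⟨h1, h2⟩ := ih bs fun p hp => hE p (List.mem_cons_of_mem _ hp)
    obtain ⟨h3, h4⟩ := hE p (List.mem_cons_self ..)
    refine ⟨?_, kind_and_or _ _ _⟩
    have h5 : depth (t * 2) (Fm.iff (cst b) (p.2.subst (assign E bs))) ≤ d := by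
      rw [← subst_assign_iff (E := E) (b := b) (bs := bs) h3]
      exact (depth_substT (by norm_num) (assign_size _ _) ht _).trans h4
    exact depth_and_le h1 h2 (h5.trans (by omega)) (kind_and_or _ _ _) (by omega)

/-- The depth of the lines of the new proof. -/
theorem depth_good {τ : Fm ℕ} {L : List (Fm ℕ)} {E : List (ℕ × Fm ℕ)} (h : IsEF F.rules τ L E)
    {t d : ℕ} (ht : 1 ≤ t) (hd : ∀ φ ∈ L, depth t φ ≤ d) {χ : Fm ℕ} (hχ : Good L E χ) :
    depth (t * 2) χ ≤ d + 2 := by
  obtain ⟨j, -, cs, -, ψ, hψ, rfl⟩ := hχ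
  have hE := isEF_mem h
  have h1 := (depth_PE (d := d) ht (E.drop j) cs fun p hp =>
    ⟨(hE p (List.mem_of_mem_drop hp)).2.1, hd _ (hE p (List.mem_of_mem_drop hp)).1⟩).1
  have h2 : depth (t * 2) (ψ.subst (assign (E.drop j) cs)) ≤ d :=
    (depth_substT (by norm_num) (assign_size _ _) ht _).trans (hd ψ hψ)
  by_cases h3 : (Fm.imp (PE (E.drop j) cs) (ψ.subst (assign (E.drop j) cs))).size ≤ t * 2
  · rw [depth_of_size_le h3]
    exact Nat.zero_le _
  · rw [depth_imp_of_lt (by omega)]
    refine max_le (by omega) ?_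
    split_ifs <;> omega

/-! ### The number of subformulas -/

lemma subf_subst2 {σ : ℕ → Fm ℕ} (hσ : ∀ x, σ x = .bot ∨ σ x = .neg .bot ∨ ∃ y, σ x = .var y)
    (φ : Fm ℕ) : subf (φ.subst σ) ⊆ (subf φ).image (Fm.subst σ) ∪ {.bot} := by
  induction φ with
  | var x =>
    intro χ hχ
    change χ ∈ subf (σ x) at hχ
    have h0 : σ x ∈ (subf (.var x)).image (Fm.subst σ) :=
      Finset.mem_image.2 ⟨.var x, self_mem_subf _, rfl⟩
    rcases hσ x with h | h | ⟨y, h⟩
    · rw [h] at hχ
      exact Finset.mem_union_right _ (by simpa [subf] using hχ)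
    · rw [h] at hχ h0
      simp only [subf, Finset.mem_insert, Finset.mem_singleton] at hχ
      rcases hχ with rfl | rfl
      · exact Finset.mem_union_left _ h0
      · exact Finset.mem_union_right _ (by simp)
    · rw [h] at hχ h0
      simp only [subf, Finset.mem_singleton] at hχ
      subst hχ
      exact Finset.mem_union_left _ h0
  | bot =>
    intro χ hχ
    exact Finset.mem_union_right _ (by simpa [subf, Fm.subst] using hχ)
  | neg φ ih =>
    intro χ hχ
    rcases Finset.mem_insert.1 hχ with rfl | h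
    · exact Finset.mem_union_left _ (Finset.mem_image.2 ⟨.neg φ, self_mem_subf _, rfl⟩)
    · rcases Finset.mem_union.1 (ih h) with h | h
      · obtain ⟨ψ, h1, h2⟩ := Finset.mem_image.1 h
        exact Finset.mem_union_left _ (Finset.mem_image.2 ⟨ψ, mem_subf_neg h1, h2⟩)
      · exact Finset.mem_union_right _ h
  | and φ ψ ih1 ih2 =>
    intro χ hχ
    rcases Finset.mem_insert.1 hχ with rfl | h
    · exact Finset.mem_union_left _ (Finset.mem_image.2 ⟨.and φ ψ, self_mem_subf _, rfl⟩)
    · rcases Finset.mem_union.1 h with h | h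
      · rcases Finset.mem_union.1 (ih1 h) with h | h
        · obtain ⟨θ, h1, h2⟩ := Finset.mem_image.1 h
          exact Finset.mem_union_left _ (Finset.mem_image.2 ⟨θ, mem_subf_and_left h1, h2⟩)
        · exact Finset.mem_union_right _ h
      · rcases Finset.mem_union.1 (ih2 h) with h | h
        · obtain ⟨θ, h1, h2⟩ := Finset.mem_image.1 h
          exact Finset.mem_union_left _ (Finset.mem_image.2 ⟨θ, mem_subf_and_right h1, h2⟩)
        · exact Finset.mem_union_right _ h
  | or φ ψ ih1 ih2 =>
    intro χ hχ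
    rcases Finset.mem_insert.1 hχ with rfl | h
    · exact Finset.mem_union_left _ (Finset.mem_image.2 ⟨.or φ ψ, self_mem_subf _, rfl⟩)
    · rcases Finset.mem_union.1 h with h | h
      · rcases Finset.mem_union.1 (ih1 h) with h | h
        · obtain ⟨θ, h1, h2⟩ := Finset.mem_image.1 h
          exact Finset.mem_union_left _ (Finset.mem_image.2 ⟨θ, mem_subf_or_left h1, h2⟩)
        · exact Finset.mem_union_right _ h
      · rcases Finset.mem_union.1 (ih2 h) with h | h
        · obtain ⟨θ, h1, h2⟩ := Finset.mem_image.1 h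
          exact Finset.mem_union_left _ (Finset.mem_image.2 ⟨θ, mem_subf_or_right h1, h2⟩)
        · exact Finset.mem_union_right _ h
  | imp φ ψ ih1 ih2 =>
    intro χ hχ
    rcases Finset.mem_insert.1 hχ with rfl | h
    · exact Finset.mem_union_left _ (Finset.mem_image.2 ⟨.imp φ ψ, self_mem_subf _, rfl⟩)
    · rcases Finset.mem_union.1 h with h | h
      · rcases Finset.mem_union.1 (ih1 h) with h | h
        · obtain ⟨θ, h1, h2⟩ := Finset.mem_image.1 h
          exact Finset.mem_union_left _ (Finset.mem_image.2 ⟨θ, mem_subf_imp_left h1, h2⟩)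
        · exact Finset.mem_union_right _ h
      · rcases Finset.mem_union.1 (ih2 h) with h | h
        · obtain ⟨θ, h1, h2⟩ := Finset.mem_image.1 h
          exact Finset.mem_union_left _ (Finset.mem_image.2 ⟨θ, mem_subf_imp_right h1, h2⟩)
        · exact Finset.mem_union_right _ h

lemma card_allLists_bool (n : ℕ) : (allLists (Finset.univ : Finset Bool) n).card + 1
    ≤ 2 ^ (n + 1) := by
  induction n with
  | zero => simp [allLists]
  | succ n ih =>
    have h1 : (allLists (Finset.univ : Finset Bool) (n + 1)).card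
        ≤ 1 + 2 * (allLists (Finset.univ : Finset Bool) n).card := by
      simp only [allLists]
      refine (Finset.card_union_le _ _).trans ?_
      refine Nat.add_le_add (by simp) (Finset.card_image_le.trans ?_)
      rw [Finset.card_product]
      simp
    rw [pow_succ]
    omega

/-- The finite set of all subformulas of the lines of the new proof. -/
noncomputable def bigS (L : List (Fm ℕ)) (E : List (ℕ × Fm ℕ)) : Finset (Fm ℕ) :=
  (allLists (Finset.univ : Finset Bool) E.length).biUnion fun cs =>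
    {PE (E.drop (E.length - cs.length)) cs, .bot, .neg .bot} ∪
      ((subfL L).image (Fm.subst (assign (E.drop (E.length - cs.length)) cs)) ∪
      (subfL L).image fun ψ => .imp (PE (E.drop (E.length - cs.length)) cs)
        (ψ.subst (assign (E.drop (E.length - cs.length)) cs)))

lemma card_bigS (L : List (Fm ℕ)) (E : List (ℕ × Fm ℕ)) :
    (bigS L E).card ≤ 2 ^ (E.length + 1) * (2 * (subfL L).card + 3) := by
  unfold bigS
  refine (Finset.card_biUnion_le_card_mul _ _ (2 * (subfL L).card + 3) ?_).trans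
    (Nat.mul_le_mul_right _ (by have := card_allLists_bool E.length; omega))
  intro cs _
  refine (Finset.card_union_le _ _).trans ?_
  have h1 : ({PE (E.drop (E.length - cs.length)) cs, .bot, .neg .bot} : Finset (Fm ℕ)).card ≤ 3 :=
    Finset.card_le_three
  have h2 := Finset.card_union_le
    ((subfL L).image (Fm.subst (assign (E.drop (E.length - cs.length)) cs)))
    ((subfL L).image fun ψ => Fm.imp (PE (E.drop (E.length - cs.length)) cs)
        (ψ.subst (assign (E.drop (E.length - cs.length)) cs)))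
  have h3 : ((subfL L).image (Fm.subst (assign (E.drop (E.length - cs.length)) cs))).card
      ≤ (subfL L).card := Finset.card_image_le
  have h4 : ((subfL L).image fun ψ => Fm.imp (PE (E.drop (E.length - cs.length)) cs)
      (ψ.subst (assign (E.drop (E.length - cs.length)) cs))).card ≤ (subfL L).card :=
    Finset.card_image_le
  omega

lemma mem_bigS {L : List (Fm ℕ)} {E : List (ℕ × Fm ℕ)} {χ : Fm ℕ} (cs : List Bool)
    (hcs : cs.length ≤ E.length)
    (h : χ = PE (E.drop (E.length - cs.length)) cs ∨ χ = .bot ∨ χ = .neg .bot ∨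
      (∃ ψ ∈ subfL L, ψ.subst (assign (E.drop (E.length - cs.length)) cs) = χ) ∨
      ∃ ψ ∈ subfL L, Fm.imp (PE (E.drop (E.length - cs.length)) cs)
        (ψ.subst (assign (E.drop (E.length - cs.length)) cs)) = χ) : χ ∈ bigS L E := by
  unfold bigS
  refine Finset.mem_biUnion.2 ⟨cs, mem_allLists cs (fun x _ => Finset.mem_univ x) _ hcs, ?_⟩
  rcases h with h | h | h | h | h
  · exact Finset.mem_union_left _ (by simp [h])
  · exact Finset.mem_union_left _ (by simp [h])
  · exact Finset.mem_union_left _ (by simp [h])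
  · exact Finset.mem_union_right _ (Finset.mem_union_left _ (Finset.mem_image.2 h))
  · exact Finset.mem_union_right _ (Finset.mem_union_right _ (Finset.mem_image.2 h))

lemma subf_subst_bigS {L : List (Fm ℕ)} {E : List (ℕ × Fm ℕ)} {ψ : Fm ℕ} (hψ : ψ ∈ L)
    (cs : List Bool) (hcs : cs.length ≤ E.length) :
    subf (ψ.subst (assign (E.drop (E.length - cs.length)) cs)) ⊆ bigS L E := by
  intro χ hχ
  rcases Finset.mem_union.1 (subf_subst2 (assign_or _ _) ψ hχ) with h | h
  · obtain ⟨θ, h1, h2⟩ := Finset.mem_image.1 h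
    exact mem_bigS cs hcs (Or.inr (Or.inr (Or.inr (Or.inl ⟨θ, mem_subfL.2 ⟨ψ, hψ, h1⟩, h2⟩))))
  · exact mem_bigS cs hcs (Or.inr (Or.inl (by simpa using h)))

lemma subf_PE_bigS {L : List (Fm ℕ)} {E : List (ℕ × Fm ℕ)}
    (hE : ∀ p ∈ E, Fm.iff (.var p.1) p.2 ∈ L ∧ ¬ p.2.Occurs p.1) :
    ∀ cs : List Bool, cs.length ≤ E.length →
      subf (PE (E.drop (E.length - cs.length)) cs) ⊆ bigS L E := by
  intro cs
  induction cs with
  | nil =>
    intro _ χ hχ
    rw [PE_nil] at hχ
    refine mem_bigS [] (by simp) ?_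
    simp only [subf, Finset.mem_insert, Finset.mem_singleton] at hχ
    rcases hχ with h | h
    · exact Or.inr (Or.inr (Or.inl h))
    · exact Or.inr (Or.inl h)
  | cons b cs ih =>
    intro hcs
    rw [List.length_cons] at hcs
    have hlt : E.length - (b :: cs).length < E.length := by
      rw [List.length_cons]
      omega
    have e : E.drop (E.length - (b :: cs).length)
        = E[E.length - (b :: cs).length] :: E.drop (E.length - cs.length) := by
      rw [List.drop_eq_getElem_cons hlt]
      congr 2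
      rw [List.length_cons]
      omega
    set p := E[E.length - (b :: cs).length] with hp
    obtain ⟨h1, h2⟩ := hE p (List.getElem_mem hlt)
    intro χ hχ
    have hχ' := hχ
    rw [e] at hχ'
    change χ ∈ subf (.and (PE (E.drop (E.length - cs.length)) cs)
      (Fm.iff (cst b) (p.2.subst (assign (E.drop (E.length - cs.length)) cs)))) at hχ'
    rcases Finset.mem_insert.1 hχ' with h | h
    · refine mem_bigS (b :: cs) (by rw [List.length_cons]; omega) (Or.inl ?_)
      rw [h, e]
      rfl
    · rcases Finset.mem_union.1 h with h | h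
      · exact ih (by omega) h
      · rw [← subst_assign_iff (E := E.drop (E.length - cs.length)) (b := b) (bs := cs) h2] at h
        refine subf_subst_bigS h1 (b :: cs) (by rw [List.length_cons]; omega) ?_
        rw [e]
        exact h

/-- The number of the different subformulas of the new proof. -/
theorem card_unext {τ : Fm ℕ} {L L' : List (Fm ℕ)} {E : List (ℕ × Fm ℕ)}
    (h : IsEF F.rules τ L E) (hτ : τ ∈ L) (hL' : ∀ χ ∈ L', χ = τ ∨ Good L E χ) :
    (subfL L').card ≤ 2 ^ (E.length + 4) * (subfL L).card := by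
  have hE := isEF_mem h
  have h1 : subfL L' ⊆ bigS L E := by
    intro χ hχ
    obtain ⟨φ, hφ, hχ⟩ := mem_subfL.1 hχ
    rcases hL' φ hφ with rfl | ⟨j, hj, cs, hcs, ψ, hψ, rfl⟩
    · refine mem_bigS [] (by simp) (Or.inr (Or.inr (Or.inr (Or.inl
        ⟨χ, mem_subfL.2 ⟨φ, hτ, hχ⟩, ?_⟩))))
      rw [assign_nil]
      exact Fm.subst_var χ
    · have e : j = E.length - cs.length := by omega
      subst e
      have hcs' : cs.length ≤ E.length := by omega
      rcases Finset.mem_insert.1 hχ with h | h
      · exact mem_bigS cs hcs' (Or.inr (Or.inr (Or.inr (Or.inr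
          ⟨ψ, mem_subfL_of_mem hψ, h.symm⟩))))
      · rcases Finset.mem_union.1 h with h | h
        · exact subf_PE_bigS (fun p hp => ⟨(hE p hp).1, (hE p hp).2.1⟩) cs hcs' h
        · exact subf_subst_bigS hψ cs hcs' h
  have h2 : 1 ≤ (subfL L).card := Finset.card_pos.2 ⟨τ, mem_subfL_of_mem hτ⟩
  calc (subfL L').card ≤ (bigS L E).card := Finset.card_le_card h1
    _ ≤ 2 ^ (E.length + 1) * (2 * (subfL L).card + 3) := card_bigS L E
    _ ≤ 2 ^ (E.length + 1) * (8 * (subfL L).card) := Nat.mul_le_mul_left _ (by omega)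
    _ = 2 ^ (E.length + 4) * (subfL L).card := by ring

end SizeSep
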