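import Pool.Agent.Work.MP_c07f0d_lc.SX.FinalU
import Pool.Agent.Work.MP_c07f0d_lc.SX.FewExt

/-!
# Extended Frege proofs with few extension axioms need exponential size, if the lines are small
-/

set_option linter.unusedSectionVars false

namespace SizeSep

open FregeEF LineSize Filter AcFrege

lemma subf_card_and {α : Type} [DecidableEq α] (a b : Fm α) :
    (subf b).card + 1 ≤ (subf (.and a b)).card := by
  have h : Fm.and a b ∉ subf b := by
    intro h
    have := size_le_of_mem_subf h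
    simp only [Fm.size] at this
    omega
  rw [← Finset.card_insert_of_notMem h]
  refine Finset.card_le_card fun x hx => ?_
  rcases Finset.mem_insert.1 hx with rfl | hx
  · exact self_mem_subf _
  · exact mem_subf_and_right hx

lemma card_subf_conjL (f : ℕ → Fm ℕ) (j : ℕ) : j + 1 ≤ (subf (conjL f j)).card := by
  induction j with
  | zero => exact Finset.card_pos.2 ⟨_, self_mem_subf _⟩
  | succ j ih => exact (Nat.add_le_add_right ih 1).trans (subf_card_and _ _)

lemma card_subf_tauX {n : ℕ} (hn : 2 ^ 15 ≤ n) : 16 ≤ (subf (tauX n)).card := by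
  have h1 : 15 ≤ Nat.log 2 n := Nat.le_log_of_pow_le (by norm_num) hn
  have h2 := card_subf_conjL (piece n) (gj n)
  have h3 := subf_card_and (padF (Nat.clog 2 (n + 1))) (conjL (piece n) (gj n))
  have h4 : gj n = Nat.log 2 n + 1 := rfl
  unfold tauX
  omega

/-- The exponential lower bound for extended Frege proofs with few extension axioms. -/
theorem tauX_few (ε : ℝ) (hε : 0 < ε) : ∃ δ : ℝ, 0 < δ ∧ ∀ F : FregeSystem, ∃ n₀ : ℕ,
    ∀ n ≥ n₀, ∀ (d : ℕ) (L : List (Fm ℕ)) (E : List (ℕ × Fm ℕ)), F.IsEFProof (tauX n) L E →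
      (E.length : ℝ) ≤ ((tauX n).size : ℝ) ^ (δ / 5 ^ d) →
      (∀ φ ∈ L, AcFrege.depth ⌊((tauX n).size : ℝ) ^ (2 - ε)⌋₊ φ ≤ d) →
      (2 : ℝ) ^ (((tauX n).size : ℝ) ^ (δ / 5 ^ d)) < (subfL L).card := by
  set ε' := min ε 1 with hε'
  have h0 : 0 < ε' := lt_min hε one_pos
  have h1 : ε' ≤ 1 := min_le_right _ _
  obtain ⟨δ, hδ, hF⟩ := tauX_hardU (ε' / 2) (half_pos h0)
  refine ⟨δ / 50, by positivity, fun F => ?_⟩
  obtain ⟨n₁, hn₁⟩ := hF (exF F)
  obtain ⟨N, hN⟩ := exists_nat_ge ((2 : ℝ) ^ (2 / ε'))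
  refine ⟨max n₁ (max (2 ^ 15) N), fun n hn d L E hL hE hdep => ?_⟩
  have hn1 : n₁ ≤ n := (le_max_left _ _).trans hn
  have hn2 : 2 ^ 15 ≤ n := (le_max_left _ _).trans ((le_max_right _ _).trans hn)
  have hn3 : N ≤ n := (le_max_right _ _).trans ((le_max_right _ _).trans hn)
  set s : ℝ := ((tauX n).size : ℝ) with hs
  have hs1 : (1 : ℝ) ≤ s := by
    rw [hs]
    exact_mod_cast (tauX n).size_pos
  have hsn : (n : ℝ) ≤ s := by
    have h4 := tauX_ge n
    have h5 : n ≤ (tauX n).size := by omega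
    rw [hs]
    exact_mod_cast h5
  have hs2 : (2 : ℝ) ≤ s ^ (ε' / 2) := by
    have h2 : (2 : ℝ) ^ (2 / ε') ≤ s := hN.trans ((by exact_mod_cast hn3 : (N : ℝ) ≤ n).trans hsn)
    calc (2 : ℝ) = ((2 : ℝ) ^ (2 / ε')) ^ (ε' / 2) := by
          rw [← Real.rpow_mul (by norm_num)]
          have : 2 / ε' * (ε' / 2) = 1 := by field_simp
          rw [this, Real.rpow_one]
      _ ≤ s ^ (ε' / 2) := Real.rpow_le_rpow (by positivity) h2 (by positivity)
  -- the thresholds
  set t := ⌊s ^ (2 - ε')⌋₊ with ht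
  have ht1 : 1 ≤ t := Nat.le_floor (by
    rw [Nat.cast_one]
    exact Real.one_le_rpow hs1 (by linarith))
  have hdep1 : ∀ φ ∈ L, AcFrege.depth t φ ≤ d := by
    intro φ hφ
    refine (depth_anti ?_ φ).trans (hdep φ hφ)
    apply Nat.floor_le_floor
    exact Real.rpow_le_rpow_of_exponent_le hs1 (by
      have := min_le_left ε 1
      linarith)
  have ht2 : t ≤ t * 2 := by omega
  have ht3 : t * 2 ≤ ⌊s ^ (2 - ε' / 2)⌋₊ := by
    apply Nat.le_floor
    have h2 : (t : ℝ) ≤ s ^ (2 - ε') := Nat.floor_le (by positivity)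
    calc ((t * 2 : ℕ) : ℝ) = (t : ℝ) * 2 := by push_cast; ring
      _ ≤ s ^ (2 - ε') * s ^ (ε' / 2) := mul_le_mul h2 hs2 (by norm_num) (by positivity)
      _ = s ^ (2 - ε' / 2) := by
          rw [← Real.rpow_add (by linarith)]
          congr 1
          ring
  -- the Frege proof
  obtain ⟨L', hL', hg⟩ := unext hL
  have hτ : tauX n ∈ L := List.mem_of_mem_head? (by rw [hL.2]; rfl)
  have h3 := hn₁ n hn1 (d + 2) L' hL' (by
    intro χ hχ
    refine (depth_anti ht3 χ).trans ?_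
    rcases hg χ hχ with rfl | h
    · exact ((depth_anti ht2 _).trans (hdep1 _ hτ)).trans (by omega)
    · exact depth_good hL.1 ht1 hdep1 h)
  have h4 := card_unext hL.1 hτ hg
  have h5 : 16 ≤ (subfL L).card := by
    refine (card_subf_tauX hn2).trans (Finset.card_le_card fun χ hχ => ?_)
    exact mem_subfL.2 ⟨_, hτ, hχ⟩
  -- the comparison
  set y : ℝ := s ^ (δ / 50 / 5 ^ d) with hy
  have hY : s ^ (δ / 5 ^ (d + 2)) = y * y := by
    rw [hy, ← Real.rpow_add (by linarith)]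
    congr 1
    rw [pow_add]
    ring
  rw [hY] at h3
  by_contra hcon
  push Not at hcon
  have h6 : (2 : ℝ) ^ (4 : ℝ) ≤ (2 : ℝ) ^ y := by
    refine le_trans ?_ hcon
    have h7 : ((16 : ℕ) : ℝ) ≤ ((subfL L).card : ℝ) := by exact_mod_cast h5
    refine le_trans (le_of_eq ?_) h7
    have : ((4 : ℕ) : ℝ) = (4 : ℝ) := by norm_num
    rw [← this, Real.rpow_natCast]
    norm_num
  have h7 : (4 : ℝ) ≤ y := (Real.rpow_le_rpow_left_iff (by norm_num)).1 h6
  have h8 : (2 : ℝ) ^ (y * y) < (2 : ℝ) ^ (y + 4 + y) := by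
    refine h3.trans_le ?_
    calc ((subfL L').card : ℝ) ≤ ((2 ^ (E.length + 4) * (subfL L).card : ℕ) : ℝ) := by
          exact_mod_cast h4
      _ = (2 : ℝ) ^ ((E.length : ℝ) + 4) * ((subfL L).card : ℝ) := by
          push_cast
          congr 1
          rw [← Real.rpow_natCast]
          congr 1
          push_cast
          ring
      _ ≤ (2 : ℝ) ^ (y + 4) * (2 : ℝ) ^ y := by
          refine mul_le_mul ?_ hcon (Nat.cast_nonneg _) (by positivity)
          exact Real.rpow_le_rpow_of_exponent_le (by norm_num) (by linarith)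
      _ = (2 : ℝ) ^ (y + 4 + y) := by rw [← Real.rpow_add (by norm_num)]
  have h9 : y * y < y + 4 + y := (Real.rpow_lt_rpow_left_iff (by norm_num)).1 h8
  nlinarith

/-- The lower bound for the size, and the exponential lower bound, with the same exponent. -/
theorem tauX_few2 (ε : ℝ) (hε : 0 < ε) : ∃ δ : ℝ, 0 < δ ∧ ∀ F : FregeSystem, ∃ n₀ : ℕ,
    ∀ n ≥ n₀, ∀ (L : List (Fm ℕ)) (E : List (ℕ × Fm ℕ)), F.IsEFProof (tauX n) L E →
      ((E.length : ℝ) ≤ ((tauX n).size : ℝ) ^ δ → ((tauX n).size : ℝ) ^ (2 - ε) ≤ lsize L) ∧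
      ∀ d : ℕ, (E.length : ℝ) ≤ ((tauX n).size : ℝ) ^ (δ / 5 ^ d) →
        (∀ φ ∈ L, AcFrege.depth ⌊((tauX n).size : ℝ) ^ (2 - ε)⌋₊ φ ≤ d) →
        (2 : ℝ) ^ (((tauX n).size : ℝ) ^ (δ / 5 ^ d)) < (subfL L).card := by
  obtain ⟨δ, hδ, hF⟩ := tauX_few ε hε
  refine ⟨δ, hδ, fun F => ?_⟩
  obtain ⟨n₁, h1⟩ := hF F
  obtain ⟨n₂, h2⟩ := eventually_atTop.1 (pow_le_two_rpow hδ 2 1 one_pos)
  refine ⟨max n₁ n₂, fun n hn L E hL => ⟨fun hE => ?_, fun d hE hdep =>
    h1 n ((le_max_left _ _).trans hn) d L E hL hE hdep⟩⟩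
  by_contra hcon
  push Not at hcon
  have h3 := h1 n ((le_max_left _ _).trans hn) 0 L E hL (by simpa using hE) (by
    intro φ hφ
    rw [depth_eq_zero]
    exact (size_le_lsize hφ).trans (Nat.le_floor hcon.le))
  rw [pow_zero, div_one] at h3
  have hge : n₂ ≤ (tauX n).size := by
    have h4 := tauX_ge n
    have h5 : n₂ ≤ n := (le_max_right _ _).trans hn
    omega
  have h4 := h2 _ hge
  rw [one_mul] at h4
  have h5 : ((subfL L).card : ℝ) ≤ lsize L := by exact_mod_cast card_subfL_le L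
  have h6 : (1 : ℝ) ≤ ((tauX n).size : ℝ) := by exact_mod_cast (tauX n).size_pos
  have h7 : ((tauX n).size : ℝ) ^ (2 - ε) ≤ ((tauX n).size : ℝ) ^ (2 : ℝ) :=
    Real.rpow_le_rpow_of_exponent_le h6 (by linarith)
  linarith

/-- Frege proofs are the extended Frege proofs without extension axioms. -/
theorem isProof_iff (F : FregeSystem) (τ : Fm ℕ) (L : List (Fm ℕ)) :
    F.IsProof τ L ↔ F.IsEFProof τ L [] := by
  have h1 : ∀ {L : List (Fm ℕ)}, IsDeriv F.rules [] L → IsEF F.rules τ L [] := by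
    intro L h
    induction h with
    | nil => exact .nil
    | hyp _ hφ _ => simp at hφ
    | step _ hi ih => exact ih.step hi
  have h2 : ∀ {L : List (Fm ℕ)} {E : List (ℕ × Fm ℕ)}, IsEF F.rules τ L E → E = [] →
      IsDeriv F.rules [] L := by
    intro L E h
    induction h with
    | nil => exact fun _ => .nil
    | step _ hi ih => exact fun h => (ih h).step hi
    | ext q φ _ _ _ _ _ => exact fun h => by simp at h
  exact ⟨fun h => ⟨h1 h.1, h.2⟩, fun h => ⟨h2 h.1 rfl, h.2⟩⟩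

end SizeSep
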