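import Pool.Agent.Work.MP_c07f0d_lc.SZ.Arith
import Mathlib

/-!
# Arithmetic of the weights
-/

namespace SizeSep

open Filter Topology

/-- The largest `u ≤ n` with `W * u ^ p ≤ n` (`0` if there is none). -/
def rt (W p n : ℕ) : ℕ := Nat.findGreatest (fun u => W * u ^ p ≤ n) n

lemma rt_spec {W p n : ℕ} (hp : 1 ≤ p) : W * rt W p n ^ p ≤ n := by
  have h0 : W * 0 ^ p ≤ n := by
    rw [zero_pow (by omega)]
    omega
  exact Nat.findGreatest_spec (P := fun u => W * u ^ p ≤ n) (Nat.zero_le n) h0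

lemma le_rt {W p n u : ℕ} (hW : 1 ≤ W) (hp : 1 ≤ p) (h : W * u ^ p ≤ n) : u ≤ rt W p n := by
  refine Nat.le_findGreatest ?_ h
  calc u ≤ u ^ p := Nat.le_self_pow (by omega) u
    _ ≤ W * u ^ p := Nat.le_mul_of_pos_left _ hW
    _ ≤ n := h

lemma lt_rt_succ {W p n : ℕ} (hW : 1 ≤ W) (hp : 1 ≤ p) : n < W * (rt W p n + 1) ^ p := by
  by_contra h
  push Not at h
  have := le_rt hW hp h
  omega

lemma lt_rt {W p n : ℕ} (hW : 1 ≤ W) (hp : 1 ≤ p) (h : 1 ≤ rt W p n) :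
    n < W * 2 ^ p * rt W p n ^ p := by
  refine (lt_rt_succ hW hp).trans_le ?_
  calc W * (rt W p n + 1) ^ p ≤ W * (2 * rt W p n) ^ p :=
        Nat.mul_le_mul_left _ (Nat.pow_le_pow_left (by omega) p)
    _ = W * 2 ^ p * rt W p n ^ p := by rw [mul_pow]; ring

lemma rt_mono {W p n n' : ℕ} (hW : 1 ≤ W) (hp : 1 ≤ p) (h : n ≤ n') : rt W p n ≤ rt W p n' :=
  le_rt hW hp ((rt_spec hp).trans h)

/-- The root tends to infinity. -/
lemma rt_large {W p : ℕ} (hW : 1 ≤ W) (hp : 1 ≤ p) (u : ℕ) :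
    ∃ n₀ : ℕ, ∀ n ≥ n₀, u ≤ rt W p n :=
  ⟨W * u ^ p, fun _ hn => le_rt hW hp hn⟩

lemma rt_tendsto {W p : ℕ} (hW : 1 ≤ W) (hp : 1 ≤ p) : Tendsto (fun n => rt W p n) atTop atTop := by
  rw [tendsto_atTop]
  intro u
  obtain ⟨n₀, h⟩ := rt_large hW hp u
  filter_upwards [eventually_ge_atTop n₀] with n hn
  exact h n hn

/-- The total cost of all the pieces. -/
lemma sum_weights (A W p : ℕ → ℕ) (hp : ∀ k, 1 ≤ p k) (hW : ∀ k, 2 ^ (k + 1) * A k ≤ W k)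
    (n j : ℕ) : ∑ k ∈ Finset.range j, A k * rt (W k) (p k) n ^ p k ≤ n := by
  have key : ∀ k, 2 ^ (k + 1) * (A k * rt (W k) (p k) n ^ p k) ≤ n := by
    intro k
    calc 2 ^ (k + 1) * (A k * rt (W k) (p k) n ^ p k)
        = 2 ^ (k + 1) * A k * rt (W k) (p k) n ^ p k := by ring
      _ ≤ W k * rt (W k) (p k) n ^ p k := Nat.mul_le_mul_right _ (hW k)
      _ ≤ n := rt_spec (hp k)
  -- by induction: the sum of the first `j` terms times `2 ^ j` is at most `(2 ^ j - 1) n`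
  have h2 : 2 ^ j * ∑ k ∈ Finset.range j, A k * rt (W k) (p k) n ^ p k + n ≤ 2 ^ j * n := by
    induction j with
    | zero => simp
    | succ j ih =>
      rw [Finset.sum_range_succ, pow_succ]
      have := key j
      rw [pow_succ] at this
      nlinarith
  have hp2 : 1 ≤ 2 ^ j := Nat.one_le_two_pow
  by_contra hcon
  push Not at hcon
  have : 2 ^ j * n ≤ 2 ^ j * ∑ k ∈ Finset.range j, A k * rt (W k) (p k) n ^ p k :=
    Nat.mul_le_mul_left _ hcon.le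
  rcases Nat.eq_zero_or_pos n with h0 | h0
  · subst h0
    have h3 : 2 ^ j * (∑ k ∈ Finset.range j, A k * rt (W k) (p k) 0 ^ p k) = 0 := by omega
    have h4 : 0 < 2 ^ j * (∑ k ∈ Finset.range j, A k * rt (W k) (p k) 0 ^ p k) :=
      Nat.mul_pos hp2 hcon
    omega
  · omega

/-- The same for squares. -/
lemma sum_weights_sq (A W p : ℕ → ℕ) (hp : ∀ k, 1 ≤ p k) (hA : ∀ k, 1 ≤ A k)
    (hW : ∀ k, 2 ^ (k + 1) * A k ≤ W k) (n j : ℕ) :
    ∑ k ∈ Finset.range j, A k * (rt (W k) (p k) n ^ p k) ^ 2 ≤ n ^ 2 := by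
  have h1 := sum_weights A W p hp hW n j
  calc ∑ k ∈ Finset.range j, A k * (rt (W k) (p k) n ^ p k) ^ 2
      ≤ ∑ k ∈ Finset.range j, n * (A k * rt (W k) (p k) n ^ p k) := by
        refine Finset.sum_le_sum fun k hk => ?_
        have h2 : rt (W k) (p k) n ^ p k ≤ n := by
          refine le_trans ?_ (rt_spec (W := W k) (n := n) (hp k))
          refine Nat.le_mul_of_pos_left _ ?_
          have := hW k
          have h3 : 1 ≤ 2 ^ (k + 1) * A k := Nat.mul_pos (Nat.pow_pos (by norm_num)) (hA k)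
          omega
        calc A k * (rt (W k) (p k) n ^ p k) ^ 2
            = rt (W k) (p k) n ^ p k * (A k * rt (W k) (p k) n ^ p k) := by ring
          _ ≤ n * (A k * rt (W k) (p k) n ^ p k) := Nat.mul_le_mul_right _ h2
    _ = n * ∑ k ∈ Finset.range j, A k * rt (W k) (p k) n ^ p k := by rw [Finset.mul_sum]
    _ ≤ n * n := Nat.mul_le_mul_left _ h1
    _ = n ^ 2 := by ring

/-- Comparison of the thresholds: `(a n) ^ (2 - ε) ≤ (b n) ^ (2 - ε / 2)` for large `n`. -/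
lemma arith_threshold {a b ε : ℝ} (ha : 0 < a) (hb : 0 < b) (hε : 0 < ε) :
    ∀ᶠ n : ℕ in atTop, (a * n) ^ (2 - ε) ≤ (b * n) ^ (2 - ε / 2) := by
  have h1 := (nat_rpow_tendsto (half_pos hε)).eventually_ge_atTop
    (a ^ (2 - ε) / b ^ (2 - ε / 2))
  filter_upwards [h1, eventually_ge_atTop 1] with n hn hn1
  have hn0 : (0 : ℝ) < n := by exact_mod_cast hn1
  rw [Real.mul_rpow ha.le hn0.le, Real.mul_rpow hb.le hn0.le]
  have h2 : (n : ℝ) ^ (2 - ε / 2) = (n : ℝ) ^ (ε / 2) * (n : ℝ) ^ (2 - ε) := by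
    rw [← Real.rpow_add hn0]
    congr 1
    ring
  rw [h2]
  have hb2 : 0 < b ^ (2 - ε / 2) := Real.rpow_pos_of_pos hb _
  rw [div_le_iff₀ hb2] at hn
  calc a ^ (2 - ε) * (n : ℝ) ^ (2 - ε) ≤ ((n : ℝ) ^ (ε / 2) * b ^ (2 - ε / 2)) * (n : ℝ) ^ (2 - ε) :=
        mul_le_mul_of_nonneg_right hn (by positivity)
    _ = _ := by ring

/-- Almost linear is less than `(b n) ^ (2 - ε)`. -/
lemma arith_linlog {a b ε : ℝ} (ha : 0 ≤ a) (hb : 0 < b) (hε : 0 < ε) (hε' : ε ≤ 1 / 2) :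
    ∀ᶠ n : ℕ in atTop, a * (n * (Nat.log 2 n + 2)) ≤ (b * n) ^ (2 - ε) := by
  have h1 := (nat_rpow_tendsto (show (0 : ℝ) < 1 / 4 by norm_num)).eventually_ge_atTop
    (a / b ^ (2 - ε))
  have h2 : ∀ᶠ n : ℕ in atTop, ((Nat.log 2 n : ℕ) : ℝ) + 2 ≤ (n : ℝ) ^ (1 / 4 : ℝ) := by
    have h3 : Tendsto (fun n : ℕ => (n : ℝ) ^ (1 / 4 : ℝ)) atTop atTop :=
      nat_rpow_tendsto (by norm_num)
    have h4 := (isLittleO_log_rpow_atTop (show (0 : ℝ) < 1 / 4 by norm_num)).comp_tendsto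
      tendsto_natCast_atTop_atTop
    have h5 := h4.def (c := Real.log 2 / 2) (by have := Real.log_pos (show (1 : ℝ) < 2 by norm_num); positivity)
    have h6 := h3.eventually_ge_atTop 4
    filter_upwards [h5, h6, eventually_ge_atTop 1] with n h5 h6 hn
    have hn0 : (1 : ℝ) ≤ n := by exact_mod_cast hn
    simp only [Function.comp] at h5
    rw [Real.norm_of_nonneg (Real.log_nonneg hn0), Real.norm_of_nonneg (by positivity)] at h5
    have h7 : ((Nat.log 2 n : ℕ) : ℝ) ≤ Real.log n / Real.log 2 := by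
      rw [← Real.logb]
      exact Real.natLog_le_logb n 2
    have hl2 : 0 < Real.log 2 := Real.log_pos (by norm_num)
    have h8 : Real.log n / Real.log 2 ≤ (n : ℝ) ^ (1 / 4 : ℝ) / 2 := by
      rw [div_le_div_iff₀ hl2 (by norm_num)]
      linarith
    linarith
  filter_upwards [h1, h2, eventually_ge_atTop 1] with n hn h2 hn1
  have hn1' : (1 : ℝ) ≤ n := by exact_mod_cast hn1
  have hn0 : (0 : ℝ) < n := by linarith
  rw [Real.mul_rpow hb.le hn0.le]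
  have hb2 : 0 < b ^ (2 - ε) := Real.rpow_pos_of_pos hb _
  rw [div_le_iff₀ hb2] at hn
  have h3 : (n : ℝ) * ((n : ℝ) ^ (1 / 4 : ℝ) * (n : ℝ) ^ (1 / 4 : ℝ)) ≤ (n : ℝ) ^ (2 - ε) := by
    have e : (n : ℝ) * ((n : ℝ) ^ (1 / 4 : ℝ) * (n : ℝ) ^ (1 / 4 : ℝ)) = (n : ℝ) ^ (3 / 2 : ℝ) := by
      rw [← Real.rpow_add hn0]
      nth_rewrite 1 [← Real.rpow_one (n : ℝ)]
      rw [← Real.rpow_add hn0]
      norm_num
    rw [e]
    exact Real.rpow_le_rpow_of_exponent_le hn1' (by linarith)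
  have h4 : (0 : ℝ) ≤ (n : ℝ) ^ (1 / 4 : ℝ) := by positivity
  calc a * (n * (Nat.log 2 n + 2)) ≤ a * (n * (n : ℝ) ^ (1 / 4 : ℝ)) := by
        apply mul_le_mul_of_nonneg_left _ ha
        exact mul_le_mul_of_nonneg_left h2 hn0.le
    _ = a * ((n : ℝ) * (n : ℝ) ^ (1 / 4 : ℝ)) := by ring
    _ ≤ ((n : ℝ) ^ (1 / 4 : ℝ) * b ^ (2 - ε)) * ((n : ℝ) * (n : ℝ) ^ (1 / 4 : ℝ)) :=
        mul_le_mul_of_nonneg_right hn (by positivity)
    _ = b ^ (2 - ε) * ((n : ℝ) * ((n : ℝ) ^ (1 / 4 : ℝ) * (n : ℝ) ^ (1 / 4 : ℝ))) := by ring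
    _ ≤ b ^ (2 - ε) * (n : ℝ) ^ (2 - ε) := mul_le_mul_of_nonneg_left h3 hb2.le

/-- The comparison of the sizes: `2 ^ ((a n) ^ (δ / 2)) + b n ^ 2 < 2 ^ ((c n) ^ δ)`. -/
lemma arith_size {a b c δ : ℝ} (ha : 0 < a) (hb : 0 < b) (hc : 0 < c) (hδ : 0 < δ) :
    ∀ᶠ n : ℕ in atTop, (2 : ℝ) ^ ((a * n) ^ (δ / 2)) + b * (n : ℝ) ^ (2 : ℝ)
      ≤ (2 : ℝ) ^ ((c * n) ^ δ) := by
  have hδ2 := half_pos hδ
  have h1 := (nat_rpow_tendsto hδ2).eventually_ge_atTop ((a ^ (δ / 2) + 1) / c ^ δ)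
  have h1' := (nat_rpow_tendsto hδ2).eventually_ge_atTop 1
  have h2 := pow_le_two_rpow hδ2 2 (b) hb
  have h3 := (nat_rpow_tendsto hδ2).eventually_ge_atTop (1 / a ^ (δ / 2) / 1)
  have h2' := pow_le_two_rpow (δ := δ / 2) hδ2 2 b hb
  have h4 := (nat_rpow_tendsto hδ2).eventually_ge_atTop (2 / c ^ δ)
  filter_upwards [h1, h1', h2, h4, eventually_ge_atTop 1] with n hn hn' h2 h4 hn1
  have hn0 : (0 : ℝ) < n := by exact_mod_cast hn1
  have hcδ : 0 < c ^ δ := Real.rpow_pos_of_pos hc _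
  have haδ : 0 < a ^ (δ / 2) := Real.rpow_pos_of_pos ha _
  rw [Real.mul_rpow ha.le hn0.le, Real.mul_rpow hc.le hn0.le]
  have e : (n : ℝ) ^ δ = (n : ℝ) ^ (δ / 2) * (n : ℝ) ^ (δ / 2) := by
    rw [← Real.rpow_add hn0]
    congr 1
    ring
  rw [e]
  rw [div_le_iff₀ hcδ] at hn h4
  set x := (n : ℝ) ^ (δ / 2) with hx
  have hx0 : 0 < x := by positivity
  -- both terms are at most half of the right hand side
  have k1 : a ^ (δ / 2) * x + 1 ≤ c ^ δ * (x * x) := by nlinarith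
  have k2 : x + 1 ≤ c ^ δ * (x * x) := by nlinarith
  have k3 : (2 : ℝ) ^ (a ^ (δ / 2) * x) * 2 ≤ (2 : ℝ) ^ (c ^ δ * (x * x)) := by
    calc (2 : ℝ) ^ (a ^ (δ / 2) * x) * 2 = (2 : ℝ) ^ (a ^ (δ / 2) * x + 1) := by
          rw [Real.rpow_add (by norm_num), Real.rpow_one]
      _ ≤ _ := Real.rpow_le_rpow_of_exponent_le (by norm_num) k1
  have k4 : (2 : ℝ) ^ x * 2 ≤ (2 : ℝ) ^ (c ^ δ * (x * x)) := by
    calc (2 : ℝ) ^ x * 2 = (2 : ℝ) ^ (x + 1) := by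
          rw [Real.rpow_add (by norm_num), Real.rpow_one]
      _ ≤ _ := Real.rpow_le_rpow_of_exponent_le (by norm_num) k2
  linarith

end SizeSep
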