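import Pool.Agent.Work.MP_c07f0d_lc.SX.Subs
import Pool.Agent.Work.MP_c07f0d_lc.SX.Weights

/-!
# The lower bound for the glued tautologies, uniformly in the depth
-/

set_option linter.unusedSectionVars false

namespace SizeSep

open FregeEF LineSize GridLine Filter AcFrege

lemma unif_small {K : ℝ} (hK : 0 ≤ K) : ∃ l₀ : ℕ, ∀ l : ℕ, l₀ ≤ l → ∀ q : ℝ,
    q < ((l : ℝ) + 1) ^ 2 → K * √√q < l := by
  obtain ⟨l₁, hl₁⟩ := exists_nat_gt (2 * K ^ 2)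
  refine ⟨l₁ + 1, fun l hl q hq => ?_⟩
  have hl1 : (1 : ℝ) ≤ l := by
    have : 1 ≤ l := by omega
    exact_mod_cast this
  have hl2 : 2 * K ^ 2 < l := hl₁.trans_le (by
    have : l₁ ≤ l := by omega
    exact_mod_cast this)
  have h1 : √q ≤ (l : ℝ) + 1 := by
    calc √q ≤ √(((l : ℝ) + 1) ^ 2) := Real.sqrt_le_sqrt hq.le
      _ = (l : ℝ) + 1 := Real.sqrt_sq (by linarith)
  have h2 : √√q ≤ √((l : ℝ) + 1) := Real.sqrt_le_sqrt h1
  calc K * √√q ≤ K * √((l : ℝ) + 1) := mul_le_mul_of_nonneg_left h2 hK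
    _ = √(K ^ 2 * ((l : ℝ) + 1)) := by
        rw [Real.sqrt_mul (by positivity), Real.sqrt_sq hK]
    _ < l := by
        rw [Real.sqrt_lt' (by linarith)]
        nlinarith

lemma unif_big {K : ℝ} (hK : 0 ≤ K) (A : ℕ) (T₀ : ℝ) : ∃ l₀ : ℕ, ∀ l : ℕ, l₀ ≤ l → ∀ n : ℕ,
    n < 2 ^ (l + 1) → ∀ q : ℝ, ((l : ℝ) + 1) ^ 2 ≤ q →
    T₀ < q ∧ (2 : ℝ) ^ (K * √√q) + 3 * (A : ℝ) * (n : ℝ) ^ 2 ≤ (2 : ℝ) ^ q := by
  obtain ⟨l₁, hl₁⟩ := exists_nat_ge (max T₀ K)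
  refine ⟨l₁ + 3 * A + 2, fun l hl n hn q hq => ?_⟩
  have hl2 : (2 : ℝ) ≤ l := by
    have : 2 ≤ l := by omega
    exact_mod_cast this
  have hl3 : max T₀ K ≤ l := hl₁.trans (by
    have : l₁ ≤ l := by omega
    exact_mod_cast this)
  have hT : T₀ ≤ l := (le_max_left _ _).trans hl3
  have hKl : K ≤ l := (le_max_right _ _).trans hl3
  have hq0 : 0 ≤ q := (sq_nonneg _).trans hq
  refine ⟨by nlinarith, ?_⟩
  have h1 : (l : ℝ) + 1 ≤ √q := by
    rw [Real.le_sqrt (by linarith) hq0]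
    exact hq
  have h2 : √√q ≤ √q := by
    rw [Real.sqrt_le_left (by linarith)]
    nlinarith
  have h3 : K * √√q ≤ q - 1 := by
    have h4 : √q * √q = q := Real.mul_self_sqrt hq0
    have h5 : K * √√q ≤ K * √q := mul_le_mul_of_nonneg_left h2 hK
    nlinarith
  have h4 : (2 : ℝ) ^ (K * √√q) ≤ (2 : ℝ) ^ (q - 1) :=
    Real.rpow_le_rpow_of_exponent_le (by norm_num) h3
  have h5 : 3 * (A : ℝ) * (n : ℝ) ^ 2 ≤ (2 : ℝ) ^ (q - 1) := by
    have h6 : 3 * A * n ^ 2 ≤ 2 ^ (3 * l + 2) := by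
      have e1 : 3 * A ≤ 2 ^ l := by
        have : 3 * A < 2 ^ (3 * A) := Nat.lt_two_pow_self
        exact this.le.trans (Nat.pow_le_pow_right (by norm_num) (by omega))
      have e2 : n ^ 2 ≤ (2 ^ (l + 1)) ^ 2 := Nat.pow_le_pow_left hn.le 2
      calc 3 * A * n ^ 2 ≤ 2 ^ l * (2 ^ (l + 1)) ^ 2 := Nat.mul_le_mul e1 e2
        _ = 2 ^ (3 * l + 2) := by
            rw [← pow_mul, ← pow_add]
            congr 1
            ring
    have h7 : (3 * (A : ℝ) * (n : ℝ) ^ 2) ≤ (2 : ℝ) ^ (3 * l + 2) := by exact_mod_cast h6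
    refine h7.trans ?_
    rw [← Real.rpow_natCast]
    apply Real.rpow_le_rpow_of_exponent_le (by norm_num)
    push_cast
    nlinarith
  have h6 : (2 : ℝ) ^ q = (2 : ℝ) ^ (q - 1) + (2 : ℝ) ^ (q - 1) := by
    have h7 : (2 : ℝ) ^ q = (2 : ℝ) ^ (q - 1) * 2 := by
      rw [← Real.rpow_add_one (by norm_num)]
      congr 1
      ring
    rw [h7]
    ring
  linarith

/-- The lower bound for glued tautologies one component of which is a hard grid contradiction of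
linear size. -/
theorem hard_absU (F : FregeSystem) {D v i C : ℕ} {δ ε₁ ε b : ℝ} (hD : 1 ≤ D) (hδ : 0 < δ)
    (hb : 0 < b) (hε : 0 < ε) (hε2 : ε ≤ 1 / 2) (hε₁ : ε₁ ≤ ε / 2)
    (P : ℕ → Fm ℕ) (f : ℕ → ℕ → Fm ℕ) (j : ℕ → ℕ)
    (hhard : ∃ c : ℕ, ∀ u ≥ c, ∀ d : ℕ, c ^ 5 ^ d ≤ u → ∀ L : List (Fm (GE D (u ^ v))),
      IsDeriv F.rules (gridAxioms D (u ^ v)) L → .bot ∈ L →
      (∀ φ ∈ L, AcFrege.depth ⌊(Fintype.card (GE D (u ^ v)) : ℝ) ^ (2 - ε₁)⌋₊ φ ≤ d) →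
      (2 : ℝ) ^ ((Fintype.card (GE D (u ^ v)) : ℝ) ^ (δ / 5 ^ d)) < (subfL L).card)
    (hcomp : ∀ U : ℕ, ∃ n₀ : ℕ, ∀ n ≥ n₀, ∃ (u : ℕ) (hM : 2 ≤ u ^ v), U ≤ u ∧
      f n i = (gridSys D (u ^ v) hD hM).tau ∧ b * n ≤ Fintype.card (GE D (u ^ v)) ∧
      (u ^ v) ^ D ≤ n ∧ i < j n)
    (hsize : ∀ n, (Fm.and (P n) (conjL (f n) (j n))).size ≤ C * (n + 1))
    (hj : ∀ n, j n ≤ Nat.log 2 n + 1) :
    ∃ n₀ : ℕ, ∀ n ≥ n₀, ∀ (d : ℕ) (L : List (Fm ℕ)), IsDeriv F.rules [] L →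
      Fm.and (P n) (conjL (f n) (j n)) ∈ L →
      (∀ φ ∈ L, AcFrege.depth
        ⌊((Fm.and (P n) (conjL (f n) (j n))).size : ℝ) ^ (2 - ε)⌋₊ φ ≤ d) →
      (2 : ℝ) ^ (((Fm.and (P n) (conjL (f n) (j n))).size : ℝ) ^ (δ / 4 / 5 ^ d))
        < (subfL L).card := by
  have hK := F.K_pos
  have hC : 1 ≤ C := by
    have h1 := hsize 0
    have h2 := (Fm.and (P 0) (conjL (f 0) (j 0))).size_pos
    omega
  have hC0 : (0 : ℝ) < 2 * C := by
    have : (1 : ℝ) ≤ C := by exact_mod_cast hC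
    linarith
  obtain ⟨c, hc⟩ := hhard
  obtain ⟨n₀, hn₀⟩ := hcomp (c + D)
  set A : ℕ := 8 * F.K * C + 40 * F.K * (64 * D ^ 2 + 1) with hA
  have hA1 : 1 ≤ A := by
    have : 1 ≤ F.K * C := Nat.mul_pos hK hC
    rw [hA, Nat.mul_assoc 8]
    omega
  have hA0 : (0 : ℝ) < (A : ℝ) := by exact_mod_cast hA1
  -- the constants of the comparison of the exponents
  set R : ℝ := max 1 (2 * C / b) with hR
  have hR1 : 1 ≤ R := le_max_left _ _
  set K₁ : ℝ := R ^ (δ / 4) with hK₁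
  have hK₁0 : 0 ≤ K₁ := Real.rpow_nonneg (by linarith) _
  obtain ⟨l₁, hl₁⟩ := unif_small (mul_nonneg (zero_le_two (α := ℝ)) hK₁0)
  obtain ⟨l₂, hl₂⟩ := unif_big hK₁0 A (((c : ℝ) ^ (v * D + 1)) ^ δ)
  have e1 := arith_threshold hC0 hb hε
  have e2 := arith_linlog (a := (A : ℝ)) (b := b) (ε := ε / 2) hA0.le hb (half_pos hε) (by linarith)
  obtain ⟨N₀, hN₀⟩ := eventually_atTop.1 (e1.and e2)
  obtain ⟨N₁, hN₁⟩ := exists_nat_ge (1 / b + 1 / b ^ 2)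
  refine ⟨max (max n₀ N₀) (max (max N₁ 1) (2 ^ (l₁ + l₂))), fun n hn d L hL hτ hdepth => ?_⟩
  have hn1 : n₀ ≤ n := (le_max_left _ _).trans ((le_max_left _ _).trans hn)
  have hn2 : N₀ ≤ n := (le_max_right _ _).trans ((le_max_left _ _).trans hn)
  have hn3 : N₁ ≤ n :=
    (le_max_left _ _).trans ((le_max_left _ _).trans ((le_max_right _ _).trans hn))
  have hn4 : 1 ≤ n :=
    (le_max_right _ _).trans ((le_max_left _ _).trans ((le_max_right _ _).trans hn))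
  have hn5 : 2 ^ (l₁ + l₂) ≤ n := (le_max_right _ _).trans ((le_max_right _ _).trans hn)
  have hlog : l₁ + l₂ ≤ Nat.log 2 n := Nat.le_log_of_pow_le (by norm_num) hn5
  obtain ⟨g1, g2⟩ := hN₀ n hn2
  obtain ⟨u, hM, hu, hf, hbn, hun, hij⟩ := hn₀ n hn1
  set s := (Fm.and (P n) (conjL (f n) (j n))).size with hs
  have hs1 : s ≤ 2 * C * n := by
    refine (hsize n).trans ?_
    have : C * (n + 1) ≤ C * (2 * n) := Nat.mul_le_mul_left _ (by omega)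
    calc C * (n + 1) ≤ C * (2 * n) := this
      _ = 2 * C * n := by ring
  have hs0 : 1 ≤ s := Fm.size_pos _
  have hsr : (s : ℝ) ≤ 2 * (C : ℝ) * n := by exact_mod_cast hs1
  have hs0r : (0 : ℝ) < (s : ℝ) := by exact_mod_cast hs0
  have hnr : (1 : ℝ) ≤ (n : ℝ) := by exact_mod_cast hn4
  set N : ℕ := Fintype.card (GE D (u ^ v)) with hN
  have hN₁n : 1 / b + 1 / b ^ 2 ≤ (n : ℝ) := hN₁.trans (by exact_mod_cast hn3)
  have hbn1 : (1 : ℝ) ≤ b * n := by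
    have h1 : 1 / b ≤ (n : ℝ) := by
      have : (0 : ℝ) ≤ 1 / b ^ 2 := by positivity
      linarith
    rw [div_le_iff₀ hb] at h1
    linarith [mul_comm b (n : ℝ)]
  have hbn2 : (n : ℝ) ≤ (b * n) ^ 2 := by
    have h1 : 1 / b ^ 2 ≤ (n : ℝ) := by
      have : (0 : ℝ) ≤ 1 / b := by positivity
      linarith
    rw [div_le_iff₀ (by positivity)] at h1
    calc (n : ℝ) = n * 1 := (mul_one _).symm
      _ ≤ n * (n * b ^ 2) := mul_le_mul_of_nonneg_left h1 (by linarith)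
      _ = (b * n) ^ 2 := by ring
  have hN1 : (1 : ℝ) ≤ (N : ℝ) := hbn1.trans hbn
  -- the comparison of the exponents
  set q : ℝ := (N : ℝ) ^ (δ / 5 ^ d) with hq
  have h5d : (1 : ℝ) ≤ (5 : ℝ) ^ d := one_le_pow₀ (by norm_num)
  have hsN : (s : ℝ) ≤ R * N := by
    have h1 : (2 * C : ℝ) ≤ R * b := by
      have := le_max_right (1 : ℝ) (2 * C / b)
      rwa [← hR, div_le_iff₀ hb] at this
    calc (s : ℝ) ≤ 2 * (C : ℝ) * n := hsr
      _ ≤ R * b * n := mul_le_mul_of_nonneg_right h1 (by linarith)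
      _ = R * (b * n) := by ring
      _ ≤ R * N := mul_le_mul_of_nonneg_left hbn (by linarith)
  have hexp : (s : ℝ) ^ (δ / 4 / 5 ^ d) ≤ K₁ * √√q := by
    have e0 : 0 ≤ δ / 4 / 5 ^ d := by positivity
    have e3 : (N : ℝ) ^ (δ / 4 / 5 ^ d) = √√q := by
      have e4 : (0 : ℝ) ≤ N := by linarith
      rw [Real.sqrt_eq_rpow, Real.sqrt_eq_rpow, hq,
        ← Real.rpow_mul (Real.rpow_nonneg e4 _), ← Real.rpow_mul e4]
      congr 1
      ring
    calc (s : ℝ) ^ (δ / 4 / 5 ^ d) ≤ (R * N) ^ (δ / 4 / 5 ^ d) :=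
          Real.rpow_le_rpow hs0r.le hsN e0
      _ = R ^ (δ / 4 / 5 ^ d) * (N : ℝ) ^ (δ / 4 / 5 ^ d) :=
          Real.mul_rpow (by linarith) (by linarith)
      _ ≤ K₁ * (N : ℝ) ^ (δ / 4 / 5 ^ d) := by
          refine mul_le_mul_of_nonneg_right ?_ (Real.rpow_nonneg (by linarith) _)
          exact Real.rpow_le_rpow_of_exponent_le hR1 (div_le_self (by positivity) h5d)
      _ = K₁ * √√q := by rw [e3]
  have hexp2 : (2 : ℝ) ^ ((s : ℝ) ^ (δ / 4 / 5 ^ d)) ≤ (2 : ℝ) ^ (K₁ * √√q) :=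
    Real.rpow_le_rpow_of_exponent_le (by norm_num) hexp
  by_cases hqs : q < ((Nat.log 2 n : ℝ) + 1) ^ 2
  · -- the bound is smaller than the size of the tautology
    have h1 := hl₁ (Nat.log 2 n) (by omega) q hqs
    have h2 : ((2 : ℝ) ^ (K₁ * √√q)) ^ 2 < (2 : ℝ) ^ Nat.log 2 n := by
      rw [← Real.rpow_natCast 2 (Nat.log 2 n), ← Real.rpow_natCast _ 2,
        ← Real.rpow_mul (by norm_num)]
      apply Real.rpow_lt_rpow_of_exponent_lt (by norm_num)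
      push_cast
      linarith
    have h3 : ((2 : ℝ) ^ Nat.log 2 n) ≤ n := by
      exact_mod_cast Nat.pow_log_le_self 2 (by omega : n ≠ 0)
    have h4 : (N : ℝ) ≤ (subfL L).card := by
      exact_mod_cast card_edges_le hD hM hij hf hτ
    have h5 : (2 : ℝ) ^ (K₁ * √√q) < b * n :=
      lt_of_pow_lt_pow_left₀ 2 (by linarith) (by linarith)
    linarith
  push Not at hqs
  obtain ⟨hT, hbig⟩ := hl₂ (Nat.log 2 n) (by omega) n
    (Nat.lt_pow_succ_log_self (by norm_num) n) q hqs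
  -- the depth is small
  have hcd : c ^ 5 ^ d ≤ u := by
    by_contra hcon
    push Not at hcon
    have h1 : N ≤ u ^ (v * D + 1) := by
      calc N ≤ D * (u ^ v) ^ D := card_GE_le
        _ ≤ u * (u ^ v) ^ D := Nat.mul_le_mul_right _ (by omega)
        _ = u ^ (v * D + 1) := by rw [← pow_mul]; ring
    have h2 : N ≤ (c ^ 5 ^ d) ^ (v * D + 1) := h1.trans (Nat.pow_le_pow_left hcon.le _)
    have h3 : (N : ℝ) ≤ ((c : ℝ) ^ (v * D + 1)) ^ (5 ^ d) := by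
      have : (N : ℝ) ≤ ((c : ℝ) ^ 5 ^ d) ^ (v * D + 1) := by exact_mod_cast h2
      rwa [← pow_mul, mul_comm, pow_mul] at this
    have h4 : q ≤ ((c : ℝ) ^ (v * D + 1)) ^ δ := by
      calc q ≤ (((c : ℝ) ^ (v * D + 1)) ^ (5 ^ d)) ^ (δ / 5 ^ d) :=
            Real.rpow_le_rpow (by linarith) h3 (by positivity)
        _ = ((c : ℝ) ^ (v * D + 1)) ^ δ := by
            rw [← Real.rpow_natCast ((c : ℝ) ^ (v * D + 1)) (5 ^ d),
              ← Real.rpow_mul (by positivity)]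
            congr 1
            push_cast
            field_simp
    linarith
  -- the additional cost
  set B : ℕ := A * (n * (Nat.log 2 n + 2)) with hB
  have hBle : 2 * F.K * (j n + 2) * s
      + 20 * F.K * (64 * D ^ 2 + 1) * (2 ^ Nat.clog 2 ((u ^ v) ^ D)
        * (Nat.clog 2 ((u ^ v) ^ D) + 1)) ≤ B := by
    have hm1 : 1 ≤ (u ^ v) ^ D := Nat.one_le_pow _ _ (by omega)
    have q1 : 2 ^ Nat.clog 2 ((u ^ v) ^ D) ≤ 2 * n :=
      (two_pow_clog_le hm1).trans (Nat.mul_le_mul_left _ hun)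
    have q2 : Nat.clog 2 ((u ^ v) ^ D) ≤ Nat.log 2 n + 1 := by
      apply Nat.clog_le_of_le_pow
      exact hun.trans (Nat.lt_pow_succ_log_self (b := 2) (by norm_num) n).le
    have q3 : 2 ^ Nat.clog 2 ((u ^ v) ^ D) * (Nat.clog 2 ((u ^ v) ^ D) + 1)
        ≤ 2 * n * (Nat.log 2 n + 2) := Nat.mul_le_mul q1 (by omega)
    have q4 : 2 * F.K * (j n + 2) * s ≤ 2 * F.K * (2 * (Nat.log 2 n + 2)) * (2 * C * n) :=
      Nat.mul_le_mul (Nat.mul_le_mul_left _ (by have := hj n; omega)) hs1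
    have q5 := Nat.mul_le_mul_left (20 * F.K * (64 * D ^ 2 + 1)) q3
    calc _ ≤ 2 * F.K * (2 * (Nat.log 2 n + 2)) * (2 * C * n)
          + 20 * F.K * (64 * D ^ 2 + 1) * (2 * n * (Nat.log 2 n + 2)) := Nat.add_le_add q4 q5
      _ = B := by rw [hB, hA]; ring
  obtain ⟨L', X, l1, l2, l3, l4⟩ := lower_coreS F hD hM (P n) (f n) hij hf hL hτ hBle
  have hBr : (B : ℝ) ≤ (N : ℝ) ^ (2 - ε₁) := by
    have h1 : (B : ℝ) ≤ (b * n) ^ (2 - ε / 2) := by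
      rw [hB]
      push_cast
      exact g2
    refine h1.trans ?_
    calc (b * n) ^ (2 - ε / 2) ≤ (N : ℝ) ^ (2 - ε / 2) :=
          Real.rpow_le_rpow (by linarith) hbn (by linarith)
      _ ≤ (N : ℝ) ^ (2 - ε₁) := Real.rpow_le_rpow_of_exponent_le hN1 (by linarith)
  have hthr : ⌊(s : ℝ) ^ (2 - ε)⌋₊ ≤ ⌊(N : ℝ) ^ (2 - ε₁)⌋₊ := by
    apply Nat.floor_le_floor
    calc (s : ℝ) ^ (2 - ε) ≤ (2 * (C : ℝ) * n) ^ (2 - ε) :=
          Real.rpow_le_rpow hs0r.le hsr (by linarith)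
      _ ≤ (b * n) ^ (2 - ε / 2) := g1
      _ ≤ (N : ℝ) ^ (2 - ε / 2) := Real.rpow_le_rpow (by linarith) hbn (by linarith)
      _ ≤ (N : ℝ) ^ (2 - ε₁) := Real.rpow_le_rpow_of_exponent_le hN1 (by linarith)
  have h5 := hc u (by omega) d hcd L' l1 l2 (by
    intro φ hφ
    rcases l3 φ hφ with ⟨ψ, hψ, rfl⟩ | h
    · rw [depth_subst1 (gback D (u ^ v)) gback_or]
      exact (depth_anti hthr ψ).trans (hdepth ψ hψ)
    · rw [depth_eq_zero]
      · exact Nat.zero_le _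
      · exact ((size_le_lsize h).trans l4).trans (Nat.le_floor hBr))
  by_contra hcon
  push Not at hcon
  have h6 : ((subfL L').card : ℝ) ≤ (subfL L).card + B := by
    exact_mod_cast (card_subfL_of (gback D (u ^ v)) gback_or l3).trans
      (Nat.add_le_add_left l4 _)
  have h7 : (B : ℝ) ≤ 3 * (A : ℝ) * (n : ℝ) ^ 2 := by
    have h8 : B ≤ 3 * A * n ^ 2 := by
      have h9 : Nat.log 2 n ≤ n := Nat.log_le_self 2 n
      calc B = A * (n * (Nat.log 2 n + 2)) := hB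
        _ ≤ A * (n * (3 * n)) := Nat.mul_le_mul_left _ (Nat.mul_le_mul_left _ (by omega))
        _ = 3 * A * n ^ 2 := by ring
    exact_mod_cast h8
  linarith

end SizeSep
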