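import Pool.Agent.Work.MP_c07f0d_lc.SX.FinalX
import Pool.Agent.Work.MP_c07f0d_lc.SX.HardU

/-!
# The exponential separation of extended Frege and Frege with small lines, uniformly in the depth
-/

set_option linter.unusedSectionVars false

namespace SizeSep

open FregeEF LineSize GridLine Filter AcFrege

/-- The exponential lower bound, uniformly in the depth. -/
theorem tauX_hardU (ε : ℝ) (hε : 0 < ε) : ∃ δ : ℝ, 0 < δ ∧ ∀ F : FregeSystem, ∃ n₀ : ℕ,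
    ∀ n ≥ n₀, ∀ (d : ℕ) (L : List (Fm ℕ)), F.IsProof (tauX n) L →
      (∀ φ ∈ L, AcFrege.depth ⌊((tauX n).size : ℝ) ^ (2 - ε)⌋₊ φ ≤ d) →
      (2 : ℝ) ^ (((tauX n).size : ℝ) ^ (δ / 5 ^ d)) < (subfL L).card := by
  set ε' := min ε (1 / 2) with hε'
  have h0 : 0 < ε' := lt_min hε (by norm_num)
  have h1 : ε' ≤ 1 / 2 := min_le_right _ _
  obtain ⟨k, hk⟩ := exists_nat_ge (2 / ε')
  have hkε : eps k ≤ ε' / 2 := by
    have hk0 : (0 : ℝ) < (k : ℝ) + 2 := by positivity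
    show 1 / ((k : ℝ) + 2) ≤ ε' / 2
    rw [div_le_iff₀ hk0]
    rw [div_le_iff₀ h0] at hk
    nlinarith
  obtain ⟨hD, hv, hδ, hspec⟩ := g_spec k
  obtain ⟨b, hb, hpiece⟩ := piece_large k
  refine ⟨gδ k / 4, by positivity, fun F => ?_⟩
  obtain ⟨c, hc⟩ := hspec F
  obtain ⟨n₀, hn₀⟩ := hard_absU F (v := gv k) (i := k) (C := 12) hD hδ hb h0 h1 hkε
    (fun n => padF (Nat.clog 2 (n + 1))) piece gj
    ⟨c, fun u hu d hd L hL hbot hdep => hc u hu d hd L hL hbot hdep⟩ (by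
      intro U
      obtain ⟨n₁, hn₁⟩ := hpiece U
      refine ⟨n₁, fun n hn => ?_⟩
      obtain ⟨a1, a2, a3, -, a5, ⟨h, a6⟩⟩ := hn₁ n hn
      exact ⟨gu n k, h.2, a2, a6, a3, a5, a1⟩) (fun n => tauX_le n)
    (fun n => le_rfl)
  refine ⟨n₀, fun n hn d L hL hdep => ?_⟩
  obtain ⟨hd, hhead⟩ := hL
  have hmem : tauX n ∈ L := List.mem_of_mem_head? (by rw [hhead]; rfl)
  refine hn₀ n hn d L hd hmem fun φ hφ => (depth_anti ?_ φ).trans (hdep φ hφ)
  have hs : (1 : ℝ) ≤ ((tauX n).size : ℝ) := by exact_mod_cast (tauX n).size_pos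
  exact Nat.floor_le_floor (Real.rpow_le_rpow_of_exponent_le hs (by
    have := min_le_left ε (1 / 2 : ℝ)
    linarith))

end SizeSep
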