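import Pool.Agent.Work.MP_c07f0d_lc.SX.Lower
import Pool.Agent.Work.MP_c07f0d_lc.SX.Weights

/-!
# The lower bound for the glued tautologies
-/

set_option linter.unusedSectionVars false

namespace SizeSep

open FregeEF LineSize GridLine Filter

/-- The lower bound for glued tautologies one component of which is a hard grid contradiction of
linear size. -/
theorem hard_abs (F : FregeSystem) (d : ℕ) {D v i C : ℕ} {δ ε₁ ε b : ℝ} (hD : 1 ≤ D) (hδ : 0 < δ)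
    (hb : 0 < b) (hε : 0 < ε) (hε2 : ε ≤ 1 / 2) (hε₁ : ε₁ ≤ ε / 2)
    (P : ℕ → Fm ℕ) (f : ℕ → ℕ → Fm ℕ) (j : ℕ → ℕ)
    (hhard : ∃ c : ℕ, ∀ u ≥ c, ∀ L : List (Fm (GE D (u ^ v))),
      IsDeriv F.rules (gridAxioms D (u ^ v)) L → .bot ∈ L →
      (∀ φ ∈ L, AcFrege.depth ⌊(Fintype.card (GE D (u ^ v)) : ℝ) ^ (2 - ε₁)⌋₊ φ ≤ d) →
      (2 : ℝ) ^ ((Fintype.card (GE D (u ^ v)) : ℝ) ^ δ) < lsize L)
    (hcomp : ∀ U : ℕ, ∃ n₀ : ℕ, ∀ n ≥ n₀, ∃ (u : ℕ) (hM : 2 ≤ u ^ v), U ≤ u ∧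
      f n i = (gridSys D (u ^ v) hD hM).tau ∧ b * n ≤ Fintype.card (GE D (u ^ v)) ∧
      (u ^ v) ^ D ≤ n ∧ i < j n)
    (hsize : ∀ n, (Fm.and (P n) (conjL (f n) (j n))).size ≤ C * (n + 1))
    (hj : ∀ n, j n ≤ Nat.log 2 n + 1) :
    ∃ δ' : ℝ, 0 < δ' ∧ ∃ n₀ : ℕ, ∀ n ≥ n₀, ∀ L : List (Fm ℕ), IsDeriv F.rules [] L →
      Fm.and (P n) (conjL (f n) (j n)) ∈ L →
      (∀ φ ∈ L, AcFrege.depth
        ⌊((Fm.and (P n) (conjL (f n) (j n))).size : ℝ) ^ (2 - ε)⌋₊ φ ≤ d) →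
      (2 : ℝ) ^ (((Fm.and (P n) (conjL (f n) (j n))).size : ℝ) ^ δ') < lsize L := by
  have hK := F.K_pos
  have hC : 1 ≤ C := by
    have h1 := hsize 0
    have h2 := (Fm.and (P 0) (conjL (f 0) (j 0))).size_pos
    omega
  have hC0 : (0 : ℝ) < 2 * C := by
    have : (1 : ℝ) ≤ C := by exact_mod_cast hC
    linarith
  obtain ⟨c, hc⟩ := hhard
  obtain ⟨n₀, hn₀⟩ := hcomp c
  set A : ℕ := 8 * F.K * C + 40 * F.K * (64 * D ^ 2 + 1) with hA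
  have hA1 : 1 ≤ A := by
    have : 1 ≤ F.K * C := Nat.mul_pos hK hC
    rw [hA, Nat.mul_assoc 8]
    omega
  have hA0 : (0 : ℝ) < (A : ℝ) := by exact_mod_cast hA1
  have e1 := arith_threshold hC0 hb hε
  have e2 := arith_linlog (a := (A : ℝ)) (b := b) (ε := ε / 2) hA0.le hb (half_pos hε) (by linarith)
  have e3 := arith_size (a := 2 * (C : ℝ)) (b := 3 * (A : ℝ)) (c := b) hC0 (by positivity) hb hδ
  obtain ⟨N₀, hN₀⟩ := eventually_atTop.1 (e1.and (e2.and e3))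
  have e4 := arith_threshold (a := 1 / b) (b := 1) (ε := 1) (by positivity) one_pos one_pos
  obtain ⟨N₁, hN₁⟩ := exists_nat_ge (1 / b)
  refine ⟨δ / 2, half_pos hδ, max (max n₀ N₀) (max N₁ 1), fun n hn L hL hτ hdepth => ?_⟩
  have hn1 : n₀ ≤ n := (le_max_left _ _).trans ((le_max_left _ _).trans hn)
  have hn2 : N₀ ≤ n := (le_max_right _ _).trans ((le_max_left _ _).trans hn)
  have hn3 : N₁ ≤ n := (le_max_left _ _).trans ((le_max_right _ _).trans hn)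
  have hn4 : 1 ≤ n := (le_max_right _ _).trans ((le_max_right _ _).trans hn)
  obtain ⟨g1, g2, g3⟩ := hN₀ n hn2
  obtain ⟨u, hM, hu, hf, hbn, hun, hij⟩ := hn₀ n hn1
  set s := (Fm.and (P n) (conjL (f n) (j n))).size with hs
  have hs1 : s ≤ 2 * C * n := by
    refine (hsize n).trans ?_
    have : C * (n + 1) ≤ C * (2 * n) := Nat.mul_le_mul_left _ (by omega)
    calc C * (n + 1) ≤ C * (2 * n) := this
      _ = 2 * C * n := by ring
  have hs0 : 1 ≤ s := Fm.size_pos _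
  have hsr : (s : ℝ) ≤ 2 * (C : ℝ) * n := by exact_mod_cast hs1
  have hs0r : (0 : ℝ) < (s : ℝ) := by exact_mod_cast hs0
  have hnr : (1 : ℝ) ≤ (n : ℝ) := by exact_mod_cast hn4
  set N : ℕ := Fintype.card (GE D (u ^ v)) with hN
  have hbn1 : (1 : ℝ) ≤ b * n := by
    have h1 : 1 / b ≤ (n : ℝ) := hN₁.trans (by exact_mod_cast hn3)
    rw [div_le_iff₀ hb] at h1
    linarith [mul_comm b (n : ℝ)]
  have hN1 : (1 : ℝ) ≤ (N : ℝ) := hbn1.trans hbn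
  -- the additional cost
  set B : ℕ := A * (n * (Nat.log 2 n + 2)) with hB
  have hBle : 2 * F.K * (j n + 2) * s
      + 20 * F.K * (64 * D ^ 2 + 1) * (2 ^ Nat.clog 2 ((u ^ v) ^ D)
        * (Nat.clog 2 ((u ^ v) ^ D) + 1)) ≤ B := by
    have hm1 : 1 ≤ (u ^ v) ^ D := Nat.one_le_pow _ _ (by omega)
    have q1 : 2 ^ Nat.clog 2 ((u ^ v) ^ D) ≤ 2 * n :=
      (two_pow_clog_le hm1).trans (Nat.mul_le_mul_left _ hun)
    have q2 : Nat.clog 2 ((u ^ v) ^ D) ≤ Nat.log 2 n + 1 := by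
      apply Nat.clog_le_of_le_pow
      exact hun.trans (Nat.lt_pow_succ_log_self (b := 2) (by norm_num) n).le
    have q3 : 2 ^ Nat.clog 2 ((u ^ v) ^ D) * (Nat.clog 2 ((u ^ v) ^ D) + 1)
        ≤ 2 * n * (Nat.log 2 n + 2) := Nat.mul_le_mul q1 (by omega)
    have q4 : 2 * F.K * (j n + 2) * s ≤ 2 * F.K * (2 * (Nat.log 2 n + 2)) * (2 * C * n) :=
      Nat.mul_le_mul (Nat.mul_le_mul_left _ (by have := hj n; omega)) hs1
    have q5 := Nat.mul_le_mul_left (20 * F.K * (64 * D ^ 2 + 1)) q3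
    calc _ ≤ 2 * F.K * (2 * (Nat.log 2 n + 2)) * (2 * C * n)
          + 20 * F.K * (64 * D ^ 2 + 1) * (2 * n * (Nat.log 2 n + 2)) := Nat.add_le_add q4 q5
      _ = B := by rw [hB, hA]; ring
  obtain ⟨L', l1, l2, l3, l4⟩ := lower_core F hD hM (P n) (f n) hij hf hL hτ hBle
  have hBr : (B : ℝ) ≤ (N : ℝ) ^ (2 - ε₁) := by
    have h1 : (B : ℝ) ≤ (b * n) ^ (2 - ε / 2) := by
      rw [hB]
      push_cast
      exact g2
    refine h1.trans ?_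
    calc (b * n) ^ (2 - ε / 2) ≤ (N : ℝ) ^ (2 - ε / 2) :=
          Real.rpow_le_rpow (by linarith) hbn (by linarith)
      _ ≤ (N : ℝ) ^ (2 - ε₁) := Real.rpow_le_rpow_of_exponent_le hN1 (by linarith)
  have hthr : ⌊(s : ℝ) ^ (2 - ε)⌋₊ ≤ ⌊(N : ℝ) ^ (2 - ε₁)⌋₊ := by
    apply Nat.floor_le_floor
    calc (s : ℝ) ^ (2 - ε) ≤ (2 * (C : ℝ) * n) ^ (2 - ε) :=
          Real.rpow_le_rpow hs0r.le hsr (by linarith)
      _ ≤ (b * n) ^ (2 - ε / 2) := g1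
      _ ≤ (N : ℝ) ^ (2 - ε / 2) := Real.rpow_le_rpow (by linarith) hbn (by linarith)
      _ ≤ (N : ℝ) ^ (2 - ε₁) := Real.rpow_le_rpow_of_exponent_le hN1 (by linarith)
  have h5 := hc u hu L' l1 l2 (by
    intro φ hφ
    rcases l3 φ hφ with ⟨ψ, hψ, rfl⟩ | h
    · rw [depth_subst1 (gback D (u ^ v)) gback_or]
      exact (depth_anti hthr ψ).trans (hdepth ψ hψ)
    · rw [depth_eq_zero]
      · exact Nat.zero_le _
      · exact h.trans (Nat.le_floor hBr))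
  by_contra hcon
  push Not at hcon
  have h6 : (lsize L' : ℝ) ≤ lsize L + B := by exact_mod_cast l4
  have h7 : (B : ℝ) ≤ 3 * (A : ℝ) * (n : ℝ) ^ (2 : ℝ) := by
    have h8 : B ≤ 3 * A * n ^ 2 := by
      have h9 : Nat.log 2 n ≤ n := Nat.log_le_self 2 n
      calc B = A * (n * (Nat.log 2 n + 2)) := hB
        _ ≤ A * (n * (3 * n)) := Nat.mul_le_mul_left _ (Nat.mul_le_mul_left _ (by omega))
        _ = 3 * A * n ^ 2 := by ring
    have h10 : (B : ℝ) ≤ 3 * (A : ℝ) * (n : ℝ) ^ 2 := by exact_mod_cast h8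
    rwa [Real.rpow_two]
  have h8 : (2 : ℝ) ^ ((s : ℝ) ^ (δ / 2)) ≤ (2 : ℝ) ^ ((2 * (C : ℝ) * n) ^ (δ / 2)) :=
    Real.rpow_le_rpow_of_exponent_le (by norm_num)
      (Real.rpow_le_rpow hs0r.le hsr (half_pos hδ).le)
  have h9 : (2 : ℝ) ^ ((b * n) ^ δ) ≤ (2 : ℝ) ^ ((N : ℝ) ^ δ) :=
    Real.rpow_le_rpow_of_exponent_le (by norm_num)
      (Real.rpow_le_rpow (by linarith) hbn hδ.le)
  linarith

end SizeSep
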