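import Pool.Agent.Work.MP_c07f0d_lc.SX.TauDef
import Pool.Agent.Work.MP_c07f0d_lc.SX.Hard

/-!
# The exponential separation of extended Frege and Frege with small lines: assembly
-/

set_option linter.unusedSectionVars false

namespace SizeSep

open FregeEF LineSize GridLine Filter

lemma card_subfL_le {α : Type} [DecidableEq α] (L : List (Fm α)) :
    (AcFrege.subfL L).card ≤ lsize L := by
  have h : ∀ L : List (Fm α), (AcFrege.subfL L).card ≤ lsize L := by
    intro L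
    induction L with
    | nil => simp [AcFrege.subfL, lsize]
    | cons φ L ih =>
      have h1 : AcFrege.subfL (φ :: L) ⊆ AcFrege.subf φ ∪ AcFrege.subfL L := by
        intro χ hχ
        obtain ⟨ψ, hψ, h⟩ := AcFrege.mem_subfL.1 hχ
        rcases List.mem_cons.1 hψ with rfl | hψ
        · exact Finset.mem_union_left _ h
        · exact Finset.mem_union_right _ (AcFrege.mem_subfL.2 ⟨ψ, hψ, h⟩)
      have h2 := Finset.card_le_card h1
      have h3 := Finset.card_union_le (AcFrege.subf φ) (AcFrege.subfL L)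
      have h4 := AcFrege.card_subf_le φ
      rw [lsize_cons]
      omega
  exact h L

/-- The exponential lower bound. -/
theorem tauX_hard (F : FregeSystem) (d : ℕ) (ε : ℝ) (hε : 0 < ε) : ∃ δ : ℝ, 0 < δ ∧ ∃ n₀ : ℕ,
    ∀ n ≥ n₀, ∀ L, F.IsProof (tauX n) L →
      (∀ φ ∈ L, AcFrege.depth ⌊((tauX n).size : ℝ) ^ (2 - ε)⌋₊ φ ≤ d) →
      (2 : ℝ) ^ (((tauX n).size : ℝ) ^ δ) < lsize L := by
  set ε' := min ε (1 / 2) with hε'
  have h0 : 0 < ε' := lt_min hε (by norm_num)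
  have h1 : ε' ≤ 1 / 2 := min_le_right _ _
  obtain ⟨k, hk⟩ := exists_nat_ge (2 / ε')
  have hkε : eps k ≤ ε' / 2 := by
    have hk0 : (0 : ℝ) < (k : ℝ) + 2 := by positivity
    show 1 / ((k : ℝ) + 2) ≤ ε' / 2
    rw [div_le_iff₀ hk0]
    rw [div_le_iff₀ h0] at hk
    nlinarith
  obtain ⟨hD, hv, hδ, hspec⟩ := g_spec k
  obtain ⟨b, hb, hpiece⟩ := piece_large k
  obtain ⟨c, hc⟩ := hspec F
  have hδ' : 0 < gδ k / 5 ^ d := by positivity
  obtain ⟨δ, hδ1, n₀, hn₀⟩ := hard_abs F d (v := gv k) (i := k) (C := 12) hD hδ' hb h0 h1 hkε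
    (fun n => padF (Nat.clog 2 (n + 1))) piece gj
    ⟨c + c ^ 5 ^ d, fun u hu L hL hbot hdep =>
      (hc u (by omega) d (by omega) L hL hbot hdep).trans_le (by
        exact_mod_cast card_subfL_le L)⟩ (by
      intro U
      obtain ⟨n₁, hn₁⟩ := hpiece U
      refine ⟨n₁, fun n hn => ?_⟩
      obtain ⟨a1, a2, a3, -, a5, ⟨h, a6⟩⟩ := hn₁ n hn
      exact ⟨gu n k, h.2, a2, a6, a3, a5, a1⟩) (fun n => tauX_le n) (fun n => le_rfl)
  refine ⟨δ, hδ1, n₀, fun n hn L hL hdep => ?_⟩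
  obtain ⟨hd, hhead⟩ := hL
  have hmem : tauX n ∈ L := List.mem_of_mem_head? (by rw [hhead]; rfl)
  refine hn₀ n hn L hd hmem fun φ hφ => (depth_anti ?_ φ).trans (hdep φ hφ)
  have hs : (1 : ℝ) ≤ ((tauX n).size : ℝ) := by exact_mod_cast (tauX n).size_pos
  exact Nat.floor_le_floor (Real.rpow_le_rpow_of_exponent_le hs (by
    have := min_le_left ε (1 / 2 : ℝ)
    linarith))

/-- The lower bound for the size without any restriction. -/
theorem tauX_size (F : FregeSystem) (ε : ℝ) (hε : 0 < ε) : ∃ n₀ : ℕ, ∀ n ≥ n₀, ∀ L,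
    F.IsProof (tauX n) L → ((tauX n).size : ℝ) ^ (2 - ε) ≤ lsize L := by
  obtain ⟨δ, hδ, n₁, h1⟩ := tauX_hard F 0 ε hε
  obtain ⟨n₂, h2⟩ := eventually_atTop.1 (pow_le_two_rpow hδ 2 1 one_pos)
  refine ⟨max n₁ n₂, fun n hn L hL => ?_⟩
  by_contra hcon
  push Not at hcon
  have h3 := h1 n ((le_max_left _ _).trans hn) L hL (by
    intro φ hφ
    rw [depth_eq_zero]
    have h4 := size_le_lsize hφ
    refine h4.trans (Nat.le_floor hcon.le))
  have hge : n₂ ≤ (tauX n).size := by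
    have h4 := tauX_ge n
    have h5 : n₂ ≤ n := (le_max_right _ _).trans hn
    omega
  have h4 := h2 _ hge
  rw [one_mul] at h4
  have h6 : (1 : ℝ) ≤ ((tauX n).size : ℝ) := by exact_mod_cast (tauX n).size_pos
  have h7 : ((tauX n).size : ℝ) ^ (2 - ε) ≤ ((tauX n).size : ℝ) ^ (2 : ℝ) :=
    Real.rpow_le_rpow_of_exponent_le h6 (by linarith)
  linarith

end SizeSep
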