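import Pool.Agent.Work.MP_c07f0d_lc.SX.Sys
import Pool.Agent.Work.MP_c07f0d_lc.SZ.FregeUp

/-!
# Frege proofs of almost quadratic size of contradictory lists of small parity equations
-/

set_option linter.unusedSectionVars false

namespace SizeSep

open FregeEF LineSize GridLine GridLine.Xor

variable {F : FregeSystem}

/-- The variables of the sum of a list of equations. -/
def Sys.flF (S : Sys) (l : List ℕ) : ℕ → Bool := fun x => valB (fun u => (S.T u).par x) l

/-- The right hand side of the sum of a list of equations. -/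
def Sys.blF (S : Sys) (l : List ℕ) : Bool := valB S.r l

lemma par_leaf_some (y i : ℕ) : (XT.leaf (some y) : XT ℕ).par i = decide (i = y) := by
  by_cases hi : i = y
  · simp [XT.par, hi]
  · have hi' : ¬ y = i := fun h => hi h.symm
    simp [XT.par, hi, hi']

lemma cs_tree (t : XT ℕ) (k : ℕ) : cs (fun x => t.par x) k 0 ≤ t.fm.size := by
  induction t with
  | leaf o =>
    cases o with
    | none =>
      rw [cs_zero (f := fun x => (XT.leaf none : XT ℕ).par x) (fun i => rfl)]
      exact Nat.zero_le _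
    | some y =>
      have h : (fun x => (XT.leaf (some y) : XT ℕ).par x) = fun i => decide (i = y) := by
        funext i
        exact par_leaf_some y i
      rw [h]
      exact (cs_single_le y k 0).trans (XT.leaf (some y) : XT ℕ).fm.size_pos
  | node a b iha ihb =>
    have h1 := cs_xor (fun x => a.par x) (fun x => b.par x) k 0
    have h2 : cs (fun x => (XT.node a b).par x) k 0
        = cs (fun x => xor (a.par x) (b.par x)) k 0 := rfl
    have h3 : (XT.node a b).fm.size ≥ a.fm.size + b.fm.size := by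
      show (xor2 a.fm b.fm).size ≥ _
      simp only [xor2, Fm.size]
      omega
    omega

lemma Sys.cs_flF (S : Sys) (k : ℕ) (l : List ℕ) : cs (S.flF l) k 0 ≤ S.a * l.length := by
  induction l with
  | nil =>
    rw [cs_zero (f := S.flF []) (fun i => rfl)]
    exact Nat.zero_le _
  | cons u l ih =>
    have h1 := cs_xor (fun i => (S.T u).par i) (S.flF l) k 0
    have h2 : cs (fun i => (S.T u).par i) k 0 ≤ S.a := by
      have h4 := cs_tree (S.T u) k
      have h5 := S.size u
      omega
    have h3 : cs (S.flF (u :: l)) k 0 = cs (fun i => xor ((S.T u).par i) (S.flF l i)) k 0 := rfl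
    rw [h3, List.length_cons, Nat.mul_succ]
    omega

/-- The premises for one exclusive or. -/
def nPrem : List (Fm ℕ) :=
  [Fm.iff (.var 0) (.var 1), Fm.iff (.var 2) (.var 3), Fm.iff (.var 4) (xor2 (.var 1) (.var 3))]

lemma n_valid (v : ℕ → Prop) (h : ∀ p ∈ nPrem, p.eval v) :
    (Fm.iff (xor2 (.var 0) (.var 2)) (.var 4)).eval v := by
  simp only [nPrem, List.mem_cons, List.not_mem_nil, or_false, forall_eq_or_imp, forall_eq,
    Fm.eval, Fm.iff, xor2] at h ⊢
  obtain ⟨h1, h2, h3⟩ := h
  by_cases a0 : v 0 <;> by_cases a2 : v 2 <;> by_cases a4 : v 4 <;> simp_all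

/-- A tree of exclusive ors is equivalent to its parity formula. -/
lemma tree_pb (k a : ℕ) (ha : 1 ≤ a) : ∀ t : XT ℕ, t.fm.size ≤ a →
    (∀ x, t.Occ x → x < 2 ^ k) →
    ∃ c, F.PB (Fm.iff t.fm (par (fun x => t.par x) k 0)) c ∧
      c ≤ F.K * (63 * a * 2 ^ k) * t.fm.size := by
  have hp : 1 ≤ 2 ^ k := Nat.one_le_two_pow
  intro t
  induction t with
  | leaf o =>
    intro _ ht
    have hb : ∀ t : XT ℕ, F.K * 1 ≤ F.K * (63 * a * 2 ^ k) * t.fm.size := by
      intro t
      have h1 : 1 ≤ 63 * a * 2 ^ k := by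
        calc 1 ≤ 63 * 1 * 1 := by norm_num
          _ ≤ 63 * a * 2 ^ k := Nat.mul_le_mul (Nat.mul_le_mul_left _ ha) hp
      calc F.K * 1 ≤ F.K * (63 * a * 2 ^ k) := Nat.mul_le_mul_left _ h1
        _ = F.K * (63 * a * 2 ^ k) * 1 := (mul_one _).symm
        _ ≤ _ := Nat.mul_le_mul_left _ t.fm.size_pos
    cases o with
    | none =>
      refine ⟨F.K * 1, ?_, hb _⟩
      have h0 : par (fun x => (XT.leaf none : XT ℕ).par x) k 0 = .bot :=
        par_zero (fun _ => rfl) _ _
      have h := F.infer [] (Fm.iff (.bot : Fm ℕ) .bot) [(.bot : Fm ℕ)] [] 1 (by decide)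
        (by intro v _; exact ⟨id, id⟩) le_rfl (by simp [Fm.size]) .nil
      rw [h0]
      simpa [Fm.subst, sub, Fm.iff, XT.fm] using h
    | some y =>
      refine ⟨F.K * 1, ?_, hb _⟩
      have h1 : (fun x => (XT.leaf (some y) : XT ℕ).par x) = fun i => decide (i = y) := by
        funext i
        exact par_leaf_some y i
      have h0 : par (fun x => (XT.leaf (some y) : XT ℕ).par x) k 0 = .var y := by
        rw [h1, par_single (ht y rfl)]
      have h := F.infer [] (Fm.iff (.var 0 : Fm ℕ) (.var 0)) [.var y] [] 1 (by decide)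
        (by intro v _; exact ⟨id, id⟩) le_rfl (by simp [Fm.size]) .nil
      rw [h0]
      simpa [Fm.subst, sub, Fm.iff, XT.fm] using h
  | node t u iht ihu =>
    intro hs ht
    have hsz : (XT.node t u).fm.size ≥ t.fm.size + u.fm.size + 1 := by
      show (xor2 t.fm u.fm).size ≥ _
      simp only [xor2, Fm.size]
      omega
    obtain ⟨c1, p1, q1⟩ := iht (by omega) fun x hx => ht x (Or.inl hx)
    obtain ⟨c2, p2, q2⟩ := ihu (by omega) fun x hx => ht x (Or.inr hx)
    obtain ⟨c3, p3, q3⟩ := merge_pb (F := F) (fun x => t.par x) (fun x => u.par x) k 0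
    have e : (fun x => (XT.node t u).par x) = fun i => xor (t.par i) (u.par i) := rfl
    rw [e]
    have i1 := cs_tree t k
    have i2 := cs_tree u k
    have i3 := cs_xor (fun x => t.par x) (fun x => u.par x) k 0
    set P := par (fun x => t.par x) k 0 with hP
    set Q := par (fun x => u.par x) k 0 with hQ
    set R := par (fun i => xor (t.par i) (u.par i)) k 0 with hR
    set M := 6 * a * 2 ^ k + 1 with hM
    have bd : ∀ c : ℕ, c ≤ a → 6 * c * 2 ^ k + 1 ≤ M := fun c hc =>
      Nat.add_le_add_right (Nat.mul_le_mul_right _ (Nat.mul_le_mul_left 6 hc)) 1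
    have z1 : P.size ≤ M := (par_size _ _ _).trans (bd _ (by omega))
    have z2 : Q.size ≤ M := (par_size _ _ _).trans (bd _ (by omega))
    have z3 : R.size ≤ M := (par_size _ _ _).trans (bd _ (by omega))
    have z4 : a ≤ M := by
      have : a * 1 ≤ a * 2 ^ k := Nat.mul_le_mul_left _ hp
      have h6 : 6 * a * 2 ^ k = 6 * (a * 2 ^ k) := by ring
      omega
    have fin := F.infer nPrem (Fm.iff (xor2 (.var 0) (.var 2)) (.var 4))
      [t.fm, P, u.fm, Q, R] [c1, c2, c3] M (by decide) n_valid (by omega) (by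
        simp only [List.mem_cons, List.not_mem_nil, or_false, forall_eq_or_imp, forall_eq]
        exact ⟨by omega, z1, by omega, z2, z3⟩) (by
        refine .cons ?_ (.cons ?_ (.cons ?_ .nil))
        · simpa [Fm.subst, sub, Fm.iff, xor2] using p1
        · simpa [Fm.subst, sub, Fm.iff, xor2] using p2
        · simpa [Fm.subst, sub, Fm.iff, xor2] using p3)
    refine ⟨[c1, c2, c3].sum + F.K * M, ?_, ?_⟩
    · simpa [Fm.subst, sub, Fm.iff, xor2, XT.fm] using fin
    · simp only [List.sum_cons, List.sum_nil]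
      have w1 : F.K * (48 * (cs (fun x => t.par x) k 0 + cs (fun x => u.par x) k 0) * 2 ^ k
          + 8 * 2 ^ k) ≤ F.K * (48 * a * 2 ^ k + 8 * 2 ^ k) := by
        apply Nat.mul_le_mul_left
        have := Nat.mul_le_mul_right (2 ^ k) (Nat.mul_le_mul_left 48
          (show cs (fun x => t.par x) k 0 + cs (fun x => u.par x) k 0 ≤ a by omega))
        omega
      have w2 : F.K * (48 * a * 2 ^ k + 8 * 2 ^ k) + F.K * M ≤ F.K * (63 * a * 2 ^ k) := by
        rw [← Nat.mul_add]
        apply Nat.mul_le_mul_left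
        have h1 : 1 * 2 ^ k ≤ a * 2 ^ k := Nat.mul_le_mul_right _ ha
        have e1 : 48 * a * 2 ^ k = 48 * (a * 2 ^ k) := by ring
        have e2 : 6 * a * 2 ^ k = 6 * (a * 2 ^ k) := by ring
        have e3 : 63 * a * 2 ^ k = 63 * (a * 2 ^ k) := by ring
        rw [hM, e1, e2, e3]
        omega
      have w3 : F.K * (63 * a * 2 ^ k) * (t.fm.size + u.fm.size + 1)
          ≤ F.K * (63 * a * 2 ^ k) * (XT.node t u).fm.size := Nat.mul_le_mul_left _ hsz
      have w4 : F.K * (63 * a * 2 ^ k) * (t.fm.size + u.fm.size + 1)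
          = F.K * (63 * a * 2 ^ k) * t.fm.size + F.K * (63 * a * 2 ^ k) * u.fm.size
            + F.K * (63 * a * 2 ^ k) := by ring
      omega

/-- The premises for replacing a formula by an equivalent one. -/
def tPrem (r : Bool) : List (Fm ℕ) :=
  [.imp (.var 0) (LineSize.litF r (.var 1)), Fm.iff (.var 1) (.var 2)]

lemma t_test (r : Bool) :
    smallTest (tPrem r) (.imp (.var 0) (LineSize.litF r (.var 2))) = true := by
  cases r <;> decide

lemma t_valid (r : Bool) (v : ℕ → Prop) (h : ∀ p ∈ tPrem r, p.eval v) :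
    (Fm.imp (.var 0) (LineSize.litF r (.var 2))).eval v := by
  simp only [tPrem, List.mem_cons, List.not_mem_nil, or_false, forall_eq_or_imp, forall_eq] at h
  obtain ⟨h1, h2⟩ := h
  cases r <;>
    simp only [LineSize.litF, Fm.iff, Fm.eval, Bool.false_eq_true, if_false, if_true]
      at h1 h2 ⊢ <;>
    (by_cases a1 : v 1 <;> by_cases a2 : v 2 <;> simp_all)

/-- One equation. -/
lemma leaf_sys (S : Sys) (u k : ℕ) (G : Fm ℕ) {g c : ℕ} (hG : G.size ≤ g) (hk : S.n ≤ 2 ^ k)
    (hE : F.PB (Fm.imp G (LineSize.litF (S.r u) (S.T u).fm)) c) :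
    F.PB (Fm.imp G (LineSize.litF (S.r u) (par (fun x => (S.T u).par x) k 0)))
      (c + F.K * (g + 70 * (S.a * S.a) * 2 ^ k)) := by
  have ha := S.two_le_a
  have hp : 1 ≤ 2 ^ k := Nat.one_le_two_pow
  have hg : 1 ≤ g := G.size_pos.trans hG
  have hsz := S.size u
  obtain ⟨c1, p1, q1⟩ := tree_pb (F := F) k S.a (by omega) (S.T u) (by omega)
    fun x hx => (S.below u x hx).trans_le hk
  set P := par (fun x => (S.T u).par x) k 0 with hP
  set M := g + (6 * S.a * 2 ^ k + 1) with hM
  have z1 : P.size ≤ 6 * S.a * 2 ^ k + 1 := by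
    refine (par_size _ _ _).trans ?_
    exact Nat.add_le_add_right (Nat.mul_le_mul_right _ (Nat.mul_le_mul_left 6
      ((cs_tree (S.T u) k).trans (by omega)))) 1
  have z2 : S.a ≤ 6 * S.a * 2 ^ k := by
    calc S.a = 1 * S.a * 1 := by ring
      _ ≤ 6 * S.a * 2 ^ k := Nat.mul_le_mul (Nat.mul_le_mul_right _ (by norm_num)) hp
  have fin := F.infer (tPrem (S.r u)) (.imp (.var 0) (LineSize.litF (S.r u) (.var 2)))
    [G, (S.T u).fm, P] [c, c1] M (t_test _) (t_valid _) (by omega) (by
      simp only [List.mem_cons, List.not_mem_nil, or_false, forall_eq_or_imp, forall_eq]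
      exact ⟨by omega, by omega, by omega⟩) (by
      refine .cons ?_ (.cons ?_ .nil)
      · simpa [litF_substN, Fm.subst, sub] using hE
      · simpa [Fm.subst, sub, Fm.iff] using p1)
  have fin' : F.PB (Fm.imp G (LineSize.litF (S.r u) P)) ([c, c1].sum + F.K * M) := by
    simpa [litF_substN, Fm.subst, sub] using fin
  refine fin'.mono ?_
  simp only [List.sum_cons, List.sum_nil]
  have w1 : F.K * (63 * S.a * 2 ^ k) * (S.T u).fm.size ≤ F.K * (63 * S.a * 2 ^ k) * S.a :=
    Nat.mul_le_mul_left _ (by omega)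
  have w2 : F.K * (63 * S.a * 2 ^ k) * S.a + F.K * M
      ≤ F.K * (g + 70 * (S.a * S.a) * 2 ^ k) := by
    have e1 : F.K * (63 * S.a * 2 ^ k) * S.a + F.K * M
        = F.K * (g + (63 * (S.a * S.a) * 2 ^ k + 6 * (S.a * 1) * 2 ^ k + 1 * 1 * 1)) := by
      rw [hM]; ring
    rw [e1]
    apply Nat.mul_le_mul_left
    have h2 : 6 * (S.a * 1) * 2 ^ k ≤ 6 * (S.a * S.a) * 2 ^ k :=
      Nat.mul_le_mul_right _ (Nat.mul_le_mul_left _ (Nat.mul_le_mul_left _ (by omega)))
    have h3 : 1 * 1 * 1 ≤ 1 * (S.a * S.a) * 2 ^ k :=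
      Nat.mul_le_mul (Nat.mul_le_mul_left _ (Nat.mul_pos (by omega) (by omega))) hp
    have e2 : 70 * (S.a * S.a) * 2 ^ k = 63 * (S.a * S.a) * 2 ^ k + 6 * (S.a * S.a) * 2 ^ k
        + 1 * (S.a * S.a) * 2 ^ k := by ring
    omega
  omega

/-- The sum of a list of equations, by repeated halving. -/
lemma sum_sys (S : Sys) (G : Fm ℕ) {g H k : ℕ} (hG : G.size ≤ g) :
    ∀ (κ : ℕ) (l : List ℕ), l.length ≤ 2 ^ κ →
    (∀ u ∈ l, F.PB (Fm.imp G (LineSize.litF (S.r u) (par (fun x => (S.T u).par x) k 0))) H) →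
    ∃ c, F.PB (Fm.imp G (LineSize.litF (S.blF l) (par (S.flF l) k 0))) c ∧
      c + F.K * g ≤ 2 ^ κ * (H + F.K * (2 * g + 60 * S.a * 2 ^ k * (κ + 1))) := by
  have hK := F.K_pos
  have ha := S.two_le_a
  have hg : 1 ≤ g := G.size_pos.trans hG
  have hp1 : 1 ≤ 2 ^ k := Nat.one_le_two_pow
  intro κ
  induction κ with
  | zero =>
    intro l hl hE
    match l, hl, hE with
    | [], _, _ =>
      have h0 : par (S.flF []) k 0 = .bot := par_zero (fun _ => rfl) _ _
      have h1 := F.infer [] (.imp (.var 0) (.neg .bot)) [G] [] g (by decide)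
        (by intro v _; exact fun _ h => h) hg (by simpa using hG) .nil
      have h2 : F.PB (Fm.imp G (.neg .bot)) (F.K * g) := by
        simpa [Fm.subst, sub] using h1
      refine ⟨F.K * g, ?_, ?_⟩
      · rw [h0]
        exact h2
      · have e : 2 ^ 0 * (H + F.K * (2 * g + 60 * S.a * 2 ^ k * (0 + 1)))
            = H + 2 * (F.K * g) + 60 * (F.K * S.a * 2 ^ k) := by ring
        rw [e]
        omega
    | [u], _, hE =>
      have h1 := hE u (List.mem_singleton.2 rfl)
      refine ⟨H, ?_, ?_⟩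
      · have e1 : S.flF [u] = fun x => (S.T u).par x := by
          funext i
          simp [Sys.flF, valB]
        have e2 : S.blF [u] = S.r u := by simp [Sys.blF, valB]
        rw [e1, e2]
        exact h1
      · have e : 2 ^ 0 * (H + F.K * (2 * g + 60 * S.a * 2 ^ k * (0 + 1)))
            = H + 2 * (F.K * g) + 60 * (F.K * S.a * 2 ^ k) := by ring
        rw [e]
        omega
    | _ :: _ :: _, hl, _ => simp at hl
  | succ κ ih =>
    intro l hl hE
    have l1 : (l.take (2 ^ κ)).length ≤ 2 ^ κ := by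
      rw [List.length_take]
      omega
    have l2 : (l.drop (2 ^ κ)).length ≤ 2 ^ κ := by
      rw [List.length_drop]
      rw [pow_succ] at hl
      omega
    obtain ⟨c1, p1, q1⟩ := ih (l.take (2 ^ κ)) l1 (fun u hu => hE u (List.mem_of_mem_take hu))
    obtain ⟨c2, p2, q2⟩ := ih (l.drop (2 ^ κ)) l2 (fun u hu => hE u (List.mem_of_mem_drop hu))
    obtain ⟨c3, p3, q3⟩ := merge_pb (F := F) (S.flF (l.take (2 ^ κ))) (S.flF (l.drop (2 ^ κ))) k 0
    have hfl : S.flF l = fun i => xor (S.flF (l.take (2 ^ κ)) i) (S.flF (l.drop (2 ^ κ)) i) := by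
      funext i
      show valB _ l = xor (valB _ _) (valB _ _)
      rw [← valB_append, List.take_append_drop]
    have hbl : S.blF l = xor (S.blF (l.take (2 ^ κ))) (S.blF (l.drop (2 ^ κ))) := by
      show valB _ l = xor (valB _ _) (valB _ _)
      rw [← valB_append, List.take_append_drop]
    rw [← hfl] at p3
    have j1 := (S.cs_flF k (l.take (2 ^ κ))).trans (Nat.mul_le_mul_left _ l1)
    have j2 := (S.cs_flF k (l.drop (2 ^ κ))).trans (Nat.mul_le_mul_left _ l2)
    have j3 : cs (S.flF l) k 0 ≤ 2 * (S.a * 2 ^ κ) := by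
      rw [hfl]
      exact (cs_xor _ _ k 0).trans (by omega)
    have hp : 1 ≤ 2 ^ κ := Nat.one_le_two_pow
    rw [pow_succ]
    generalize 2 ^ κ = p at *
    generalize hN : 2 ^ k = N at *
    set M := g + (12 * (S.a * p) * N + 1) with hM
    have bd : ∀ l' : List ℕ, cs (S.flF l') k 0 ≤ 2 * (S.a * p) → (par (S.flF l') k 0).size ≤ M := by
      intro l' h
      refine (par_size _ _ _).trans ?_
      rw [hN]
      have := Nat.mul_le_mul_right N (Nat.mul_le_mul_left 6 h)
      have e : 6 * (2 * (S.a * p)) * N = 12 * (S.a * p) * N := by ring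
      omega
    have fin := F.infer (sPrem (S.blF (l.take p)) (S.blF (l.drop p)))
      (.imp (.var 0) (LineSize.litF (xor (S.blF (l.take p)) (S.blF (l.drop p))) (.var 3)))
      [G, par (S.flF (l.take p)) k 0, par (S.flF (l.drop p)) k 0, par (S.flF l) k 0]
      [c1, c2, c3] M (s_test _ _) (s_valid _ _) (by omega) (by
        simp only [List.mem_cons, List.not_mem_nil, or_false, forall_eq_or_imp, forall_eq]
        exact ⟨by omega, bd _ (by omega), bd _ (by omega), bd _ (by omega)⟩) (by
        refine .cons ?_ (.cons ?_ (.cons ?_ .nil))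
        · simpa [litF_substN, Fm.subst, sub] using p1
        · simpa [litF_substN, Fm.subst, sub] using p2
        · simpa [Fm.subst, sub, xor2, Fm.iff] using p3)
    have fin' : F.PB (Fm.imp G (LineSize.litF (S.blF l) (par (S.flF l) k 0)))
        (c1 + c2 + c3 + F.K * M) := by
      refine FregeSystem.PB.mono (s := [c1, c2, c3].sum + F.K * M) ?_ ?_
      · rw [hbl]
        simpa [litF_substN, Fm.subst, sub] using fin
      · simp only [List.sum_cons, List.sum_nil]
        omega
    refine ⟨_, fin', ?_⟩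
    have w1 : F.K * (48 * (cs (S.flF (l.take p)) k 0 + cs (S.flF (l.drop p)) k 0) * N + 8 * N)
        ≤ 96 * (F.K * (S.a * p) * N) + 8 * (F.K * 1 * N) := by
      have e : 96 * (F.K * (S.a * p) * N) + 8 * (F.K * 1 * N)
          = F.K * (48 * (2 * (S.a * p)) * N + 8 * N) := by ring
      rw [e]
      apply Nat.mul_le_mul_left
      have h : cs (S.flF (l.take p)) k 0 + cs (S.flF (l.drop p)) k 0 ≤ 2 * (S.a * p) := by omega
      have := Nat.mul_le_mul_right N (Nat.mul_le_mul_left 48 h)
      omega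
    have w2 : F.K * M = F.K * g + 12 * (F.K * (S.a * p) * N) + F.K * 1 * 1 := by
      rw [hM]; ring
    have hap : 2 ≤ S.a * p := by
      calc 2 = 2 * 1 := rfl
        _ ≤ S.a * p := Nat.mul_le_mul ha hp
    have w3 : 2 * (F.K * 1 * N) ≤ F.K * (S.a * p) * N := by
      calc 2 * (F.K * 1 * N) = F.K * 2 * N := by ring
        _ ≤ F.K * (S.a * p) * N := Nat.mul_le_mul_right _ (Nat.mul_le_mul_left _ hap)
    have w4 : F.K * 1 * 1 ≤ F.K * 1 * N := Nat.mul_le_mul_left _ hp1
    have w5 : p * 2 * (H + F.K * (2 * g + 60 * S.a * N * (κ + 1 + 1)))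
        = 2 * (p * (H + F.K * (2 * g + 60 * S.a * N * (κ + 1)))) + 120 * (F.K * (S.a * p) * N) := by
      ring
    rw [w5]
    omega

/-- The cost of a Frege proof. -/
def cF (a : ℕ) : ℕ := 500 * (a * a)

/-- Frege proofs of almost quadratic size. -/
theorem pb_sys (F : FregeSystem) (S : Sys) :
    F.PB S.tau (cF S.a * F.K * (S.m * (S.m + S.n) * (Nat.clog 2 S.m + 1))) := by
  have hK := F.K_pos
  have ha := S.two_le_a
  have hm := S.hm
  set κ := Nat.clog 2 S.m with hκ
  have hkm : 2 ^ κ ≤ 2 * S.m := two_pow_clog_le S.hm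
  have hmk : S.m ≤ 2 ^ κ := Nat.le_pow_clog (by norm_num) _
  set k := Nat.clog 2 S.n with hk
  have hkn : 2 ^ k ≤ 2 * (S.m + S.n) := by
    rcases Nat.eq_zero_or_pos S.n with h0 | h0
    · rw [hk, h0, Nat.clog_zero_right, pow_zero]
      omega
    · have h1 := two_pow_clog_le h0
      rw [← hk] at h1
      omega
  have hnk : S.n ≤ 2 ^ k := Nat.le_pow_clog (by norm_num) _
  set G := conjT S.E κ 0 with hG
  have hGs : G.size ≤ 2 * S.m * (S.a + 1) := by
    have h1 : G.size + 1 ≤ 2 ^ κ * (S.a + 1) := conjT_size S.E S.E_size κ 0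
    have h2 := Nat.mul_le_mul_right (S.a + 1) hkm
    omega
  set g := 2 * S.m * (S.a + 1) with hg
  have hM : 1 ≤ g := G.size_pos.trans hGs
  have h0 : F.PB (Fm.imp G G) (F.K * g) := by
    have := F.infer [] (.imp (.var 0) (.var 0)) [G] [] g (by decide)
      (by intro v _; exact id) hM (by simpa using hGs) .nil
    simpa [Fm.subst, sub] using this
  have hE : ∀ u ∈ List.range S.m,
      F.PB (Fm.imp G (LineSize.litF (S.r u) (par (fun x => (S.T u).par x) k 0)))
        (F.K * g * (κ + 1) + F.K * (g + 70 * (S.a * S.a) * 2 ^ k)) := by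
    intro u hu
    have hu' : u < S.m := List.mem_range.1 hu
    have h1 := conj_pb S.E G hGs κ 0 _ hGs h0 u (hu'.trans_le hmk)
    rw [Nat.zero_add] at h1
    have h2 : S.E u = LineSize.litF (S.r u) (S.T u).fm := by
      unfold Sys.E
      rw [if_pos hu']
    rw [h2] at h1
    have h3 := leaf_sys S u k G hGs hnk h1
    refine FregeSystem.PB.mono h3 (le_of_eq ?_)
    ring
  obtain ⟨c, p1, q1⟩ := sum_sys S G hGs κ (List.range S.m)
    (by rw [List.length_range]; exact hmk) hE
  have hQ : par (S.flF (List.range S.m)) k 0 = .bot := par_zero (fun i => S.sum i) _ _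
  have hb : S.blF (List.range S.m) = true := S.charge
  rw [hb, hQ] at p1
  have p1' : F.PB (Fm.imp G .bot) c := p1
  have fin := F.infer [Fm.imp (.var 0) .bot] (.neg (.var 0)) [G] [c] g (by decide) fu_valid
    hM (by simpa using hGs) (.cons (by simpa [Fm.subst, sub] using p1') .nil)
  have fin' : F.PB S.tau ([c].sum + F.K * g) := by
    have : F.PB (Fm.neg G) ([c].sum + F.K * g) := by
      simpa [Fm.subst, sub] using fin
    exact this
  refine fin'.mono ?_
  simp only [List.sum_cons, List.sum_nil]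
  set N := 2 ^ k with hN
  set A := S.a with hA
  set m := S.m with hmd
  set W := F.K * (m * (m + S.n) * (κ + 1)) with hW
  have t1 : c + F.K * g ≤ 2 * m * (F.K * g * (κ + 1) + F.K * (g + 70 * (A * A) * N)
      + F.K * (2 * g + 60 * A * N * (κ + 1))) := q1.trans (Nat.mul_le_mul_right _ hkm)
  have t2 : 2 * m * (F.K * g * (κ + 1) + F.K * (g + 70 * (A * A) * N)
      + F.K * (2 * g + 60 * A * N * (κ + 1)))
      ≤ 2 * m * (F.K * g * (κ + 1) + F.K * (g + 70 * (A * A) * (2 * (m + S.n)))
      + F.K * (2 * g + 60 * A * (2 * (m + S.n)) * (κ + 1))) := by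
    refine Nat.mul_le_mul_left _ (Nat.add_le_add (Nat.add_le_add_left (Nat.mul_le_mul_left _
      (Nat.add_le_add_left (Nat.mul_le_mul_left _ hkn) _)) _) (Nat.mul_le_mul_left _
      (Nat.add_le_add_left (Nat.mul_le_mul_right _ (Nat.mul_le_mul_left _ hkn)) _)))
  have t3 : 2 * m * (F.K * g * (κ + 1) + F.K * (g + 70 * (A * A) * (2 * (m + S.n)))
      + F.K * (2 * g + 60 * A * (2 * (m + S.n)) * (κ + 1)))
      ≤ (280 * (A * A) + 256 * A + 16) * W := by
    have e1 : (280 * (A * A) + 256 * A + 16) * W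
        = 2 * m * (F.K * g * (κ + 1) + F.K * (g + 70 * (A * A) * (2 * (m + S.n)))
      + F.K * (2 * g + 60 * A * (2 * (m + S.n)) * (κ + 1)))
      + (280 * (F.K * m * (m + S.n) * (A * A) * κ)
        + (4 * (F.K * m * S.n * (A + 1)) + 4 * (F.K * m * S.n * (A + 1)) * κ
        + 12 * (F.K * m * (m + S.n) * (A + 1)) * κ + 12 * (F.K * m * S.n * (A + 1)))) := by
      rw [hW, hg]
      ring
    rw [e1]
    exact Nat.le_add_right _ _
  have t4 : (280 * (A * A) + 256 * A + 16) * W ≤ cF A * W := by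
    apply Nat.mul_le_mul_right
    unfold cF
    nlinarith
  have t5 : cF A * F.K * (m * (m + S.n) * (κ + 1)) = cF A * W := by rw [hW]; ring
  rw [t5]
  omega

end SizeSep
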