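import Pool.Agent.Work.MP_c07f0d_lc.SX.EfSys
import Mathlib.Algebra.BigOperators.Group.Finset.Basic

/-!
# Gluing the upper bounds
-/

set_option linter.unusedSectionVars false

namespace SizeSep

open FregeEF LineSize GridLine GridLine.Xor

variable {F : FregeSystem} {τ : Fm ℕ}

lemma conjL_size_mono {α : Type} (f : ℕ → Fm α) (j : ℕ) :
    (conjL f j).size ≤ (conjL f (j + 1)).size := by
  simp only [conjL, Fm.size]
  omega

lemma conjL_two_le {α : Type} (f : ℕ → Fm α) (j : ℕ) : 2 ≤ (conjL f j).size := by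
  induction j with
  | zero => simp [conjL, Fm.size]
  | succ j ih => exact ih.trans (conjL_size_mono f j)

/-- The size of the conjunction. -/
lemma conjL_size {α : Type} (f : ℕ → Fm α) (j : ℕ) :
    (conjL f j).size = 2 + ∑ i ∈ Finset.range j, ((f i).size + 1) := by
  induction j with
  | zero => simp [conjL, Fm.size]
  | succ j ih =>
    rw [Finset.sum_range_succ]
    simp only [conjL, Fm.size, ih]
    omega

lemma conjL_bel {k : ℕ} (f : ℕ → Fm ℕ) (j : ℕ) (h : ∀ i < j, Bel k (f i)) : Bel k (conjL f j) := by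
  induction j with
  | zero => exact fun x hx => hx.elim
  | succ j ih =>
    intro x hx
    rcases hx with hx | hx
    · exact h j (by omega) x hx
    · exact ih (fun i hi => h i (by omega)) x hx

lemma conjL_taut {α : Type} (f : ℕ → Fm α) (v : α → Prop) (j : ℕ) (h : ∀ i < j, (f i).eval v) :
    (conjL f j).eval v := by
  induction j with
  | zero => exact fun h => h
  | succ j ih => exact ⟨h j (by omega), ih fun i hi => h i (by omega)⟩

lemma andI_valid (v : ℕ → Prop) (h : ∀ p ∈ [Fm.var 0, Fm.var 1], p.eval v) :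
    (Fm.and (.var 0) (.var 1)).eval v := by
  simp only [List.mem_cons, List.not_mem_nil, or_false, forall_eq_or_imp, forall_eq] at h
  exact h

/-- Conjunction introduction in an extended Frege proof. -/
lemma St.andI (s : St F τ) {A B : Fm ℕ} (hA : A ∈ s.L) (hB : B ∈ s.L) :
    ∃ s' : St F τ, Cont (F.K * (Fm.and A B).size) s s' ∧ s'.k = s.k ∧ .and A B ∈ s'.L := by
  obtain ⟨s', a, b, c⟩ := s.rule (M := (Fm.and A B).size) (Fm.size_pos _) [.var 0, .var 1]
    (.and (.var 0) (.var 1)) [A, B] (by decide) andI_valid (by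
      simp only [List.mem_cons, List.not_mem_nil, or_false, forall_eq_or_imp, forall_eq, Fm.size]
      omega) (by
      simp only [List.mem_cons, List.not_mem_nil, or_false, forall_eq_or_imp, forall_eq]
      exact ⟨s.bel _ hA, s.bel _ hB⟩) (by
      simp only [List.mem_cons, List.not_mem_nil, or_false, forall_eq_or_imp, forall_eq]
      exact ⟨by simpa [Fm.subst, sub] using hA, by simpa [Fm.subst, sub] using hB⟩)
  exact ⟨s', a, b, by simpa [Fm.subst, sub] using c⟩

/-- A true formula in an extended Frege proof. -/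
lemma St.top (s : St F τ) :
    ∃ s' : St F τ, Cont F.K s s' ∧ s'.k = s.k ∧ .neg .bot ∈ s'.L := by
  obtain ⟨s', a, b, c⟩ := s.rule (M := 1) le_rfl [] (.neg .bot) [] (by decide)
    (by intro v _; exact fun h => h) (by simp) (by simp) (by simp)
  exact ⟨s', a.mono (by omega), b, by simpa [Fm.subst] using c⟩

/-- Gluing continuations: if for every `i < j` a line `f i` can be reached at a cost `c i` from
every state, the conjunction of the lines can be reached. -/
theorem ef_conjL (f : ℕ → Fm ℕ) (c : ℕ → ℕ) (n : ℕ) (j : ℕ)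
    (h : ∀ i < j, ∀ s : St F τ, n ≤ s.k → ∃ s' : St F τ, Cont (c i) s s' ∧ f i ∈ s'.L) :
    ∀ s : St F τ, n ≤ s.k → ∃ s' : St F τ,
      Cont (∑ i ∈ Finset.range j, c i + F.K * ((j + 1) * (conjL f j).size)) s s' ∧
      conjL f j ∈ s'.L := by
  induction j with
  | zero =>
    intro s _
    obtain ⟨s', a, b, d⟩ := s.top
    refine ⟨s', a.mono ?_, d⟩
    have : F.K * ((0 + 1) * (conjL f 0).size) = F.K * 1 + F.K := by
      simp only [conjL, Fm.size]
      ring
    rw [this]
    omega
  | succ j ih =>
    intro s hn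
    obtain ⟨s1, a1, m1⟩ := ih (fun i hi => h i (by omega)) s hn
    obtain ⟨s2, a2, m2⟩ := h j (by omega) s1 (hn.trans a1.2.1)
    obtain ⟨s3, a3, k3, m3⟩ := s2.andI m2 (a2.1 m1)
    refine ⟨s3, ((a1.trans a2 le_rfl).trans a3 le_rfl).mono ?_, m3⟩
    rw [Finset.sum_range_succ]
    have e : (Fm.and (f j) (conjL f j)).size = (conjL f (j + 1)).size := rfl
    rw [e]
    have e1 : F.K * ((j + 1) * (conjL f j).size) ≤ F.K * ((j + 1) * (conjL f (j + 1)).size) :=
      Nat.mul_le_mul_left _ (Nat.mul_le_mul_left _ (conjL_size_mono f j))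
    have e2 : F.K * ((j + 1 + 1) * (conjL f (j + 1)).size)
        = F.K * ((j + 1) * (conjL f (j + 1)).size) + F.K * (conjL f (j + 1)).size := by ring
    rw [e2]
    omega

/-- Gluing bounds for the size of Frege proofs. -/
theorem pb_conjL (f : ℕ → Fm ℕ) (c : ℕ → ℕ) (j : ℕ) (h : ∀ i < j, F.PB (f i) (c i)) :
    F.PB (conjL f j) (∑ i ∈ Finset.range j, c i + F.K * ((j + 1) * (conjL f j).size)) := by
  induction j with
  | zero =>
    have h1 := F.infer [] (.neg .bot) ([] : List (Fm ℕ)) [] 1 (by decide) (by intro v _; exact fun h => h) le_rfl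
      (by simp) .nil
    have h2 : F.PB (conjL f 0) (F.K * 1) := by
      simpa [Fm.subst, conjL] using h1
    refine h2.mono ?_
    have : F.K * ((0 + 1) * (conjL f 0).size) = F.K * 1 + F.K := by
      simp only [conjL, Fm.size]
      ring
    rw [this]
    omega
  | succ j ih =>
    have h1 := ih fun i hi => h i (by omega)
    have h2 := h j (by omega)
    have h3 := F.infer [.var 0, .var 1] (.and (.var 0) (.var 1)) [f j, conjL f j]
      [c j, ∑ i ∈ Finset.range j, c i + F.K * ((j + 1) * (conjL f j).size)]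
      (conjL f (j + 1)).size (by decide) andI_valid (Fm.size_pos _) (by
        simp only [List.mem_cons, List.not_mem_nil, or_false, forall_eq_or_imp, forall_eq, conjL,
          Fm.size]
        omega) (.cons (by simpa [Fm.subst, sub] using h2)
          (.cons (by simpa [Fm.subst, sub] using h1) .nil))
    have h4 : F.PB (conjL f (j + 1))
        ([c j, ∑ i ∈ Finset.range j, c i + F.K * ((j + 1) * (conjL f j).size)].sum
          + F.K * (conjL f (j + 1)).size) := by
      simpa [Fm.subst, sub, conjL] using h3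
    refine h4.mono ?_
    simp only [List.sum_cons, List.sum_nil]
    rw [Finset.sum_range_succ]
    have e1 : F.K * ((j + 1) * (conjL f j).size) ≤ F.K * ((j + 1) * (conjL f (j + 1)).size) :=
      Nat.mul_le_mul_left _ (Nat.mul_le_mul_left _ (conjL_size_mono f j))
    have e2 : F.K * ((j + 1 + 1) * (conjL f (j + 1)).size)
        = F.K * ((j + 1) * (conjL f (j + 1)).size) + F.K * (conjL f (j + 1)).size := by ring
    rw [e2]
    omega

/-- The padding: a conjunction of `2 ^ κ` true formulas. -/
def padF (κ : ℕ) : Fm ℕ := conjT (fun _ => .neg .bot) κ 0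

lemma padF_bel (k κ : ℕ) : Bel k (padF κ) :=
  conjT_bel (fun _ => .neg .bot) (fun _ => bel_bot k) κ 0

lemma conjT_const {α : Type} (t : Fm α) (κ : ℕ) : ∀ s s',
    conjT (fun _ => t) κ s = conjT (fun _ => t) κ s' := by
  induction κ with
  | zero => exact fun _ _ => rfl
  | succ κ ih =>
    intro s s'
    simp only [conjT]
    rw [ih s s', ih (s + 2 ^ κ) (s' + 2 ^ κ)]

lemma padF_succ (κ : ℕ) : padF (κ + 1) = .and (padF κ) (padF κ) := by
  unfold padF
  simp only [conjT]
  rw [conjT_const (.neg .bot) κ (0 + 2 ^ κ) 0]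

lemma padF_size (κ : ℕ) : (padF κ).size + 1 = 3 * 2 ^ κ := by
  induction κ with
  | zero => simp [padF, conjT, Fm.size]
  | succ κ ih =>
    rw [padF_succ]
    simp only [Fm.size]
    rw [pow_succ]
    omega

lemma padF_taut (κ : ℕ) (v : ℕ → Prop) : (padF κ).eval v := by
  induction κ with
  | zero => exact fun h => h
  | succ κ ih =>
    rw [padF_succ]
    exact ⟨ih, ih⟩

/-- The padding in an extended Frege proof. -/
lemma ef_pad (κ : ℕ) (s : St F τ) :
    ∃ s' : St F τ, Cont (F.K * (6 * 2 ^ κ)) s s' ∧ padF κ ∈ s'.L := by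
  have key : ∃ s' : St F τ, Cont (F.K * (6 * 2 ^ κ - 5)) s s' ∧ padF κ ∈ s'.L := by
    induction κ with
    | zero =>
      obtain ⟨s', a, b, d⟩ := s.top
      exact ⟨s', a.mono (by simp), d⟩
    | succ κ ih =>
      obtain ⟨s1, a1, m1⟩ := ih
      obtain ⟨s2, a2, k2, m2⟩ := s1.andI m1 m1
      rw [padF_succ]
      refine ⟨s2, (a1.trans a2 le_rfl).mono ?_, m2⟩
      rw [← padF_succ, ← Nat.mul_add]
      apply Nat.mul_le_mul_left
      have h1 := padF_size (κ + 1)
      have hp : 1 ≤ 2 ^ κ := Nat.one_le_two_pow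
      rw [pow_succ] at h1 ⊢
      omega
  obtain ⟨s', a, b⟩ := key
  exact ⟨s', a.mono (Nat.mul_le_mul_left _ (by omega)), b⟩

/-- A short Frege proof of the padding. -/
lemma pb_pad (κ : ℕ) : F.PB (padF κ) (F.K * (3 * 2 ^ κ * (κ + 2))) := by
  have hK := F.K_pos
  induction κ with
  | zero =>
    have h1 := F.infer [] (.neg .bot) ([] : List (Fm ℕ)) [] 1 (by decide) (by intro v _; exact fun h => h) le_rfl
      (by simp) .nil
    have h2 : F.PB (padF 0) (F.K * 1) := by
      simpa [Fm.subst, padF, conjT] using h1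
    exact h2.mono (Nat.mul_le_mul_left _ (by norm_num))
  | succ κ ih =>
    have h3 := F.infer [.var 0] (.and (.var 0) (.var 0)) [padF κ]
      [F.K * (3 * 2 ^ κ * (κ + 2))] (3 * 2 ^ κ) (by decide) (by
        intro v h
        have := h (.var 0) (by simp)
        exact ⟨this, this⟩) (by have : 1 ≤ 2 ^ κ := Nat.one_le_two_pow; omega) (by
        have := padF_size κ
        simp only [List.mem_cons, List.not_mem_nil, or_false, forall_eq]
        omega) (.cons (by simpa [Fm.subst, sub] using ih) .nil)
    have h4 : F.PB (padF (κ + 1)) ([F.K * (3 * 2 ^ κ * (κ + 2))].sum + F.K * (3 * 2 ^ κ)) := by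
      rw [padF_succ]
      simpa [Fm.subst, sub] using h3
    refine h4.mono ?_
    simp only [List.sum_cons, List.sum_nil, Nat.add_zero]
    rw [← Nat.mul_add]
    apply Nat.mul_le_mul_left
    rw [pow_succ]
    nlinarith [Nat.one_le_two_pow (n := κ)]

end SizeSep
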