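import Pool.Agent.Work.MP_c07f0d_lc.SX.Sys
import Pool.Agent.Work.MP_c07f0d_lc.TL.UpperG

/-!
# The grid contradictions as systems of small parity equations in the variables `0, 1, 2, ...`
-/

set_option linter.unusedSectionVars false

namespace SizeSep

open FregeEF LineSize GridLine Finset

/-! ### Renaming the variables of a tree -/

/-- Renaming the variables of a tree. -/
def mapXT {α β : Type} (f : α → β) : XT α → XT β
  | .leaf o => .leaf (o.map f)
  | .node a b => .node (mapXT f a) (mapXT f b)

lemma fm_mapXT {α β : Type} (f : α → β) (t : XT α) :
    (mapXT f t).fm = t.fm.subst fun x => .var (f x) := by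
  induction t with
  | leaf o => cases o <;> rfl
  | node a b iha ihb => simp only [mapXT, XT.fm, xor2, Fm.subst, iha, ihb]

lemma size_mapXT {α β : Type} (f : α → β) (t : XT α) : (mapXT f t).fm.size = t.fm.size := by
  induction t with
  | leaf o => cases o <;> rfl
  | node a b iha ihb => simp only [mapXT, XT.fm, xor2, Fm.size, iha, ihb]

lemma par_mapXT {α β : Type} [DecidableEq α] [DecidableEq β] {f : α → β}
    (hf : Function.Injective f) (t : XT α) (x : α) : (mapXT f t).par (f x) = t.par x := by
  induction t with
  | leaf o =>
    cases o with
    | none => rfl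
    | some y =>
      show decide (f y = f x) = decide (y = x)
      by_cases h : y = x
      · subst h
        simp
      · have h2 : ¬ f y = f x := fun h3 => h (hf h3)
        simp [h, h2]
  | node a b iha ihb =>
    show xor _ _ = xor _ _
    rw [iha, ihb]

lemma par_mapXT_of_not {α β : Type} [DecidableEq α] [DecidableEq β] {f : α → β} {y : β}
    (hy : ∀ x, f x ≠ y) (t : XT α) : (mapXT f t).par y = false := by
  induction t with
  | leaf o =>
    cases o with
    | none => rfl
    | some x =>
      show decide (f x = y) = false
      simpa using hy x
  | node a b iha ihb =>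
    show xor _ _ = false
    rw [iha, ihb]
    rfl

lemma occ_mapXT {α β : Type} [DecidableEq α] [DecidableEq β] {f : α → β} {y : β} (t : XT α)
    (h : (mapXT f t).Occ y) : ∃ x, f x = y := by
  induction t with
  | leaf o =>
    cases o with
    | none => exact h.elim
    | some x => exact ⟨x, h⟩
  | node a b iha ihb =>
    rcases h with h | h
    · exact iha h
    · exact ihb h

lemma par_ofList {α : Type} [DecidableEq α] (x : α) (k : ℕ) : ∀ l : List (XT α),
    l.length ≤ 2 ^ k → (XT.ofList k l).par x = valB (fun t => t.par x) l := by
  induction k with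
  | zero =>
    intro l hl
    rcases l with _ | ⟨t, _ | ⟨t', l⟩⟩
    · rfl
    · show t.par x = xor (t.par x) false
      rw [Bool.xor_false]
    · simp at hl
  | succ k ih =>
    intro l hl
    show xor _ _ = _
    rw [pow_succ] at hl
    rw [ih _ (by rw [List.length_take]; exact min_le_left _ _),
      ih _ (by rw [List.length_drop]; omega), ← valB_append, List.take_append_drop]

lemma valB_map {V W : Type} (b : W → Bool) (g : V → W) (l : List V) :
    valB b (l.map g) = valB (fun u => b (g u)) l := by
  induction l with
  | nil => rfl
  | cons u l ih =>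
    show xor _ (valB b (l.map g)) = xor _ (valB _ l)
    rw [ih]

lemma valB_congr {V : Type} {b b' : V → Bool} {l : List V} (h : ∀ u ∈ l, b u = b' u) :
    valB b l = valB b' l := by
  induction l with
  | nil => rfl
  | cons u l ih =>
    show xor _ (valB b l) = xor _ (valB b' l)
    rw [ih fun v hv => h v (List.mem_cons_of_mem _ hv), h u List.mem_cons_self]

lemma valB_range {V : Type} (b : V → Bool) (l : List V) (d : V) :
    valB (fun i => b (l.getD i d)) (List.range l.length) = valB b l := by
  have h : l = (List.range l.length).map fun i => l.getD i d := by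
    apply List.ext_getElem
    · simp
    · intro i h1 h2
      simp [List.getD_eq_getElem?_getD, h1]
  conv_rhs => rw [h]
  rw [valB_map]

/-! ### The system of a grid -/

variable {D M : ℕ}

/-- The number of an edge. -/
noncomputable def enc (D M : ℕ) (e : GE D M) : ℕ := (Fintype.equivFin (GE D M) e : ℕ)

lemma enc_inj : Function.Injective (enc D M) := fun _ _ h =>
  (Fintype.equivFin (GE D M)).injective (Fin.ext h)

lemma enc_lt (e : GE D M) : enc D M e < Fintype.card (GE D M) :=
  (Fintype.equivFin (GE D M) e).2

/-- Back to the edges. -/
noncomputable def gback (D M : ℕ) (x : ℕ) : Fm (GE D M) :=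
  if h : x < Fintype.card (GE D M) then .var ((Fintype.equivFin (GE D M)).symm ⟨x, h⟩) else .bot

lemma gback_or (x : ℕ) : gback D M x = .bot ∨ ∃ e, gback D M x = .var e := by
  unfold gback
  split_ifs with h
  · exact Or.inr ⟨_, rfl⟩
  · exact Or.inl rfl

lemma gback_enc (e : GE D M) : gback D M (enc D M e) = .var e := by
  unfold gback
  rw [dif_pos (enc_lt e)]
  congr 1
  exact (Fintype.equivFin (GE D M)).symm_apply_apply e

/-- The list of the vertices. -/
noncomputable def gverts (D M : ℕ) : List (GV D M) := (Finset.univ : Finset (GV D M)).toList

lemma gverts_length : (gverts D M).length = M ^ D := by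
  unfold gverts
  rw [Finset.length_toList, Finset.card_univ, card_GV]

/-- The zero vertex. -/
def gzero (D : ℕ) {M : ℕ} (hM : 2 ≤ M) : GV D M := fun _ => ⟨0, by omega⟩

lemma gcharge_eq (hM : 2 ≤ M) :
    (gcharge : GV D M → Bool) = fun u => decide (u = gzero D hM) := by
  funext u
  unfold gcharge
  congr 1
  rw [eq_iff_iff]
  constructor
  · intro h
    funext i
    exact Fin.ext (h i)
  · intro h i
    rw [h]
    rfl

lemma gcharge_sum (hM : 2 ≤ M) : valB (gcharge : GV D M → Bool) (gverts D M) = true := by
  rw [gcharge_eq hM]
  unfold gverts
  rw [valB_eq _ _ (Finset.nodup_toList _), decide_eq_true_iff]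
  exact Finset.mem_toList.mpr (Finset.mem_univ _)

lemma gpar_sum (e : GE D M) : valB (fun v : GV D M => (gTree v).par e) (gverts D M) = false := by
  have h := par_gBig (D := D) (M := M) e
  unfold gBig at h
  rw [par_ofList e _ _ (by
    rw [List.length_map]
    exact (gverts_length (D := D) (M := M)).le.trans (Nat.le_pow_clog (by norm_num) _)),
    valB_map] at h
  exact h

/-- The grid contradiction as a system of equations in the variables `0, 1, ...`. -/
noncomputable def gridSys (D M : ℕ) (hD : 1 ≤ D) (hM : 2 ≤ M) : Sys where
  m := M ^ D
  n := Fintype.card (GE D M)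
  a := 64 * D ^ 2
  T i := mapXT (enc D M) (gTree ((gverts D M).getD i (gzero D hM)))
  r i := gcharge ((gverts D M).getD i (gzero D hM))
  hm := Nat.one_le_pow _ _ (by omega)
  size i := by
    rw [size_mapXT]
    have h := size_gTree hD ((gverts D M).getD i (gzero D hM))
    omega
  below i x hx := by
    obtain ⟨e, rfl⟩ := occ_mapXT _ hx
    exact enc_lt e
  sum x := by
    rw [← gverts_length (D := D) (M := M),
      valB_range (fun v => (mapXT (enc D M) (gTree v)).par x) (gverts D M) (gzero D hM)]
    by_cases h : ∃ e, enc D M e = x
    · obtain ⟨e, rfl⟩ := h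
      rw [valB_congr (b' := fun v => (gTree v).par e) fun v _ => par_mapXT enc_inj _ e]
      exact gpar_sum e
    · push Not at h
      rw [valB_congr (b' := fun _ => false) fun v _ => par_mapXT_of_not h _]
      generalize gverts D M = l
      induction l with
      | nil => rfl
      | cons u l ih =>
        show xor false (valB _ l) = false
        rw [ih]
        rfl
  charge := by
    rw [← gverts_length (D := D) (M := M), valB_range gcharge (gverts D M) (gzero D hM)]
    exact gcharge_sum hM

/-- Every equation is an axiom of the grid contradiction, or the true formula. -/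
lemma gridSys_E (hD : 1 ≤ D) (hM : 2 ≤ M) (i : ℕ) :
    ((gridSys D M hD hM).E i).subst (gback D M) ∈ gridAxioms D M ∨
      (gridSys D M hD hM).E i = .neg .bot := by
  unfold Sys.E
  split_ifs with h
  · left
    set v := (gverts D M).getD i (gzero D hM) with hv
    have h1 : (litF ((gridSys D M hD hM).r i) ((gridSys D M hD hM).T i).fm).subst (gback D M)
        = gridAx v := by
      show (litF (gcharge v) (mapXT (enc D M) (gTree v)).fm).subst (gback D M) = gridAx v
      rw [gridAx_eq, fm_mapXT]
      have h2 : (((gTree v).fm.subst fun x => (.var (enc D M x) : Fm ℕ)).subst (gback D M))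
          = (gTree v).fm := by
        rw [Fm.subst_subst]
        have : (fun x : GE D M => (Fm.var (enc D M x)).subst (gback D M)) = fun x => Fm.var x := by
          funext x
          exact gback_enc x
        rw [this, Fm.subst_var]
      unfold litF
      split_ifs
      · exact h2
      · simp only [Fm.subst]
        rw [h2]
    rw [h1]
    unfold gridAxioms
    exact List.mem_map_of_mem (Finset.mem_toList.mpr (Finset.mem_univ _))
  · exact Or.inr rfl

end SizeSep
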