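import Pool.Agent.Work.MP_c07f0d_lc.SOS.FinalSos
import Pool.Agent.Work.MP_c07f0d_lc.SX.GridSys

/-!
# The lower bound for the grid contradictions, in the form needed for the gluing
-/

set_option linter.unusedSectionVars false

namespace SizeSep

open FregeEF LineSize GridLine Finset AcFrege SosFrege

/-- A derivation is a derivation with algebraic inferences. -/
theorem algDeriv_of_deriv' {α : Type} {R : List Rule} {Γ : List (Fm α)} (Φ : Finset (Fm α)) (T : ℕ)
    {L : List (Fm α)} (h : IsDeriv R Γ L) : IsAlgDeriv R Γ Φ T L := by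
  induction h with
  | nil => exact .nil
  | hyp _ h ih => exact .hyp ih h
  | step _ h ih => exact .step ih h

/-- The number of edges of a path is at least half the number of its vertices, etc. -/
lemma le_two_card_GE {D M : ℕ} (hD : 1 ≤ D) (hM : 2 ≤ M) :
    M ^ D ≤ 2 * Fintype.card (GE D M) := by
  rcases Nat.lt_or_ge D 2 with h | h
  · have : D = 1 := by omega
    subst this
    have h1 : Fintype.card (Fin (M - 1)) ≤ Fintype.card (GE 1 M) := by
      refine Fintype.card_le_of_injective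
        (fun i : Fin (M - 1) => (⟨(fun _ => ⟨i.val, by omega⟩, 0), by
          show i.val + 1 < M
          omega⟩ : GE 1 M)) ?_
      intro i j hij
      have h2 := congrArg (fun e : GE 1 M => (e.1.1 0).val) hij
      exact Fin.ext h2
    rw [Fintype.card_fin] at h1
    rw [pow_one]
    omega
  · have := le_card_GE (D := D) hM h
    omega

/-- If there are no edges, the contradiction consists of the formula `⊥`. -/
lemma gridAxioms_trivial {D M : ℕ} (h : D = 0 ∨ M = 1) (hM : 1 ≤ M) :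
    Fintype.card (GE D M) = 0 ∧ Fm.bot ∈ gridAxioms D M := by
  have hE : IsEmpty (GE D M) := by
    constructor
    rintro ⟨⟨x, i⟩, hx⟩
    rcases h with rfl | rfl
    · exact i.elim0
    · have h1 : (x i).val + 1 < 1 := hx
      omega
  refine ⟨Fintype.card_eq_zero, ?_⟩
  set v : GV D M := fun _ => ⟨0, by omega⟩ with hv
  have h1 : gridAx v = Fm.bot := by
    have hc : gcharge v = true := by
      unfold gcharge
      rw [decide_eq_true_iff]
      intro i
      rfl
    unfold gridAx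
    rw [if_pos hc]
    unfold gparity
    rw [Finset.univ_eq_empty, Finset.filter_empty, Finset.toList_empty]
    rfl
  unfold gridAxioms
  exact List.mem_map.2 ⟨v, Finset.mem_toList.2 (Finset.mem_univ _), h1⟩

/-- The lower bound for the grids. -/
theorem grid_hard (ε : ℝ) (h0 : 0 < ε) (h1 : ε < 1) :
    ∃ (D v : ℕ) (δ : ℝ), 1 ≤ D ∧ 1 ≤ v ∧ 0 < δ ∧ ∀ F : FregeSystem, ∃ c : ℕ, ∀ u : ℕ, c ≤ u →
      ∀ d : ℕ, c ^ 5 ^ d ≤ u → ∀ L : List (Fm (GE D (u ^ v))),
        IsDeriv F.rules (gridAxioms D (u ^ v)) L → Fm.bot ∈ L →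
        (∀ φ ∈ L, depth ⌊(Fintype.card (GE D (u ^ v)) : ℝ) ^ (2 - ε)⌋₊ φ ≤ d) →
        (2 : ℝ) ^ ((Fintype.card (GE D (u ^ v)) : ℝ) ^ (δ / 5 ^ d)) < (subfL L).card := by
  obtain ⟨D, v, δ, hδ, h⟩ := main_sos ε h0 h1
  have key : ∀ F : FregeSystem, ∃ c : ℕ, ∀ u : ℕ, c ≤ u →
      ∀ d : ℕ, c ^ 5 ^ d ≤ u → ∀ L : List (Fm (GE D (u ^ v))),
        IsDeriv F.rules (gridAxioms D (u ^ v)) L → Fm.bot ∈ L →
        (∀ φ ∈ L, depth ⌊(Fintype.card (GE D (u ^ v)) : ℝ) ^ (2 - ε)⌋₊ φ ≤ d) →
        (2 : ℝ) ^ ((Fintype.card (GE D (u ^ v)) : ℝ) ^ (δ / 5 ^ d)) < (subfL L).card := by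
    intro F
    obtain ⟨c, hc⟩ := h F
    refine ⟨c, fun u hu d hd L hL hbot hdepth => ?_⟩
    obtain ⟨-, -, -, k⟩ := hc u hu
    refine k d hd (subfL L).card (subfL L) (subClosed_subfL L) le_rfl (fun χ hχ => ?_) L
      (fun φ hφ => mem_subfL_of_mem hφ) (algDeriv_of_deriv' _ _ hL) hbot
    obtain ⟨φ, hφ, h⟩ := mem_subfL.1 hχ
    exact (depth_le_of_mem_subf h).trans (hdepth φ hφ)
  by_cases hF : Nonempty FregeSystem
  · obtain ⟨F₀⟩ := hF
    have hno : ¬ (D = 0 ∨ v = 0) := by
      intro hDv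
      obtain ⟨c, hc⟩ := key F₀
      have hM1 : 1 ≤ (c + 1) ^ v := Nat.one_le_pow _ _ (by omega)
      have hDv' : D = 0 ∨ (c + 1) ^ v = 1 := by
        rcases hDv with h | h
        · exact Or.inl h
        · right
          rw [h, pow_zero]
      obtain ⟨e1, e2⟩ := gridAxioms_trivial hDv' hM1
      have h3 := hc (c + 1) (by omega) 0 (by simp) [Fm.bot] (IsDeriv.nil.hyp e2) (by simp) (by
        intro φ hφ
        rw [List.mem_singleton] at hφ
        subst hφ
        exact le_rfl)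
      have h4 : (subfL [Fm.bot (α := GE D ((c + 1) ^ v))]).card ≤ 1 := by
        refine (card_subfL_le _).trans ?_
        simp [lsize, Fm.size]
      rw [e1, Nat.cast_zero, Real.zero_rpow (by positivity), Real.rpow_zero] at h3
      have h5 : ((subfL [Fm.bot (α := GE D ((c + 1) ^ v))]).card : ℝ) ≤ 1 := by exact_mod_cast h4
      linarith
    exact ⟨D, v, δ, by omega, by omega, hδ, key⟩
  · exact ⟨1, 1, 1, le_rfl, le_rfl, one_pos, fun F => absurd ⟨F⟩ hF⟩

end SizeSep
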