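import Pool.Agent.Work.MP_c07f0d_lc.SX.Sys

/-!
# Small inferences in Frege derivations, projections of a conjunction
-/

set_option linter.unusedSectionVars false

namespace SizeSep

open FregeEF LineSize

/-- Adding an instance of a derivation to a derivation. -/
lemma pj_cut {α : Type} {R : List Rule} {Γ : List (Fm α)} {Γ' Q : List (Fm ℕ)}
    (h : IsDeriv R Γ' Q) (σ : ℕ → Fm α) {L : List (Fm α)} (h0 : IsDeriv R Γ L)
    (hΓ : ∀ p ∈ Γ', p.subst σ ∈ L) :
    ∃ L', IsDeriv R Γ L' ∧ (∀ p ∈ Q, p.subst σ ∈ L') ∧ L ⊆ L' ∧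
      lsize L' ≤ lsize L + lsize (Q.map (Fm.subst σ)) := by
  induction h with
  | nil => exact ⟨L, h0, by simp, fun _ h => h, by simp [lsize]⟩
  | @hyp Q φ _ hφ ih =>
    obtain ⟨L', h1, h2, h3, h4⟩ := ih
    refine ⟨L', h1, ?_, h3, ?_⟩
    · intro p hp
      rcases List.mem_cons.1 hp with hp | hp
      · subst hp; exact h3 (hΓ _ hφ)
      · exact h2 _ hp
    · rw [List.map_cons, lsize_cons]; omega
  | @step Q φ _ hi ih =>
    obtain ⟨L', h1, h2, h3, h4⟩ := ih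
    refine ⟨φ.subst σ :: L', h1.step ?_, ?_, ?_, ?_⟩
    · exact (hi.subst σ).mono (by
        intro x hx
        obtain ⟨p, hp, rfl⟩ := List.mem_map.1 hx
        exact h2 p hp)
    · intro p hp
      rcases List.mem_cons.1 hp with hp | hp
      · subst hp; exact List.mem_cons_self ..
      · exact List.mem_cons_of_mem _ (h2 _ hp)
    · intro p hp; exact List.mem_cons_of_mem _ (h3 hp)
    · rw [List.map_cons, lsize_cons, lsize_cons]; omega

/-- A small inference in a Frege derivation. -/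
lemma pj_rule (F : FregeSystem) {α : Type} {Γ L : List (Fm α)} (h : IsDeriv F.rules Γ L)
    {M : ℕ} (hM : 1 ≤ M) (prem : List (Fm ℕ)) (concl : Fm ℕ) (θ : List (Fm α))
    (ht : smallTest prem concl = true)
    (hv : ∀ v : ℕ → Prop, (∀ p ∈ prem, p.eval v) → concl.eval v)
    (hθ : ∀ x ∈ θ, x.size ≤ M) (hp : ∀ p ∈ prem, p.subst (sub θ) ∈ L) :
    ∃ L', IsDeriv F.rules Γ L' ∧ L ⊆ L' ∧ concl.subst (sub θ) ∈ L' ∧
      lsize L' ≤ lsize L + F.K * M := by
  obtain ⟨Q, h1, h2, h3⟩ := F.K_spec prem concl ht hv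
  obtain ⟨L', g1, g2, g3, g4⟩ := pj_cut h1 (sub θ) h hp
  refine ⟨L', g1, g3, g2 _ h2, ?_⟩
  have h5 := lsize_map_subst_le (sub θ) M hM Q (sub_size hM hθ)
  have h6 : lsize Q * M ≤ F.K * M := Nat.mul_le_mul_right _ h3
  omega

lemma pj_andl_valid (v : ℕ → Prop) (h : ∀ p ∈ [Fm.and (.var 0) (.var 1)], p.eval v) :
    (Fm.var 0 : Fm ℕ).eval v := by
  simp only [List.mem_cons, List.not_mem_nil, or_false, forall_eq, Fm.eval] at h ⊢
  exact h.1

lemma pj_andr_valid (v : ℕ → Prop) (h : ∀ p ∈ [Fm.and (.var 0) (.var 1)], p.eval v) :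
    (Fm.var 1 : Fm ℕ).eval v := by
  simp only [List.mem_cons, List.not_mem_nil, or_false, forall_eq, Fm.eval] at h ⊢
  exact h.2

lemma pj_andl (F : FregeSystem) {α : Type} {Γ L : List (Fm α)} (h : IsDeriv F.rules Γ L)
    {M : ℕ} {φ ψ : Fm α} (hM : (Fm.and φ ψ).size ≤ M) (hp : Fm.and φ ψ ∈ L) :
    ∃ L', IsDeriv F.rules Γ L' ∧ L ⊆ L' ∧ φ ∈ L' ∧ lsize L' ≤ lsize L + F.K * M := by
  simp only [Fm.size] at hM
  obtain ⟨L', h1, h2, h3, h4⟩ := pj_rule F h (M := M) (by omega) [.and (.var 0) (.var 1)] (.var 0)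
    [φ, ψ] (by decide) pj_andl_valid (by
      simp only [List.mem_cons, List.not_mem_nil, or_false, forall_eq_or_imp, forall_eq]
      omega) (by
      simp only [List.mem_cons, List.not_mem_nil, or_false, forall_eq]
      simpa [Fm.subst, sub] using hp)
  exact ⟨L', h1, h2, by simpa [Fm.subst, sub] using h3, h4⟩

lemma pj_andr (F : FregeSystem) {α : Type} {Γ L : List (Fm α)} (h : IsDeriv F.rules Γ L)
    {M : ℕ} {φ ψ : Fm α} (hM : (Fm.and φ ψ).size ≤ M) (hp : Fm.and φ ψ ∈ L) :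
    ∃ L', IsDeriv F.rules Γ L' ∧ L ⊆ L' ∧ ψ ∈ L' ∧ lsize L' ≤ lsize L + F.K * M := by
  simp only [Fm.size] at hM
  obtain ⟨L', h1, h2, h3, h4⟩ := pj_rule F h (M := M) (by omega) [.and (.var 0) (.var 1)] (.var 1)
    [φ, ψ] (by decide) pj_andr_valid (by
      simp only [List.mem_cons, List.not_mem_nil, or_false, forall_eq_or_imp, forall_eq]
      omega) (by
      simp only [List.mem_cons, List.not_mem_nil, or_false, forall_eq]
      simpa [Fm.subst, sub] using hp)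
  exact ⟨L', h1, h2, by simpa [Fm.subst, sub] using h3, h4⟩

/-- From `conjL f j` to `f i`. -/
lemma pj_conjL (F : FregeSystem) {α : Type} {Γ : List (Fm α)} (f : ℕ → Fm α) {M : ℕ} (i : ℕ) :
    ∀ (j : ℕ) (L : List (Fm α)), IsDeriv F.rules Γ L → (conjL f j).size ≤ M → i < j →
      conjL f j ∈ L →
      ∃ L', IsDeriv F.rules Γ L' ∧ L ⊆ L' ∧ f i ∈ L' ∧ lsize L' ≤ lsize L + j * (F.K * M) := by
  intro j
  induction j with
  | zero => intro L _ _ hi; omega
  | succ j ih =>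
    intro L hL hM hi hm
    rcases Nat.lt_succ_iff_lt_or_eq.1 hi with h | h
    · obtain ⟨L1, a1, a2, a3, a4⟩ := pj_andr F hL (φ := f j) (ψ := conjL f j) hM hm
      obtain ⟨L2, b1, b2, b3, b4⟩ := ih L1 a1 (by
        simp only [conjL, Fm.size] at hM
        omega) h a3
      refine ⟨L2, b1, fun x hx => b2 (a2 hx), b3, ?_⟩
      rw [Nat.add_mul, Nat.one_mul]
      omega
    · subst h
      obtain ⟨L1, a1, a2, a3, a4⟩ := pj_andl F hL (φ := f i) (ψ := conjL f i) hM hm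
      refine ⟨L1, a1, a2, a3, ?_⟩
      rw [Nat.add_mul, Nat.one_mul]
      omega

theorem proj_conjL (F : FregeSystem) {α : Type} (P : Fm α) (f : ℕ → Fm α) (j i : ℕ)
    (hi : i < j) : ∃ L, IsDeriv F.rules [.and P (conjL f j)] L ∧ f i ∈ L ∧
      lsize L ≤ 2 * F.K * (j + 2) * (Fm.and P (conjL f j)).size := by
  have hK := F.K_pos
  have h0 : IsDeriv F.rules [.and P (conjL f j)] [.and P (conjL f j)] :=
    IsDeriv.nil.hyp (List.mem_singleton.2 rfl)
  obtain ⟨L1, a1, _, a3, a4⟩ := pj_andr F h0 (φ := P) (ψ := conjL f j) le_rfl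
    (List.mem_singleton.2 rfl)
  set N := (Fm.and P (conjL f j)).size with hN
  have hN2 : (conjL f j).size ≤ N := by
    rw [hN]
    simp only [Fm.size]
    omega
  obtain ⟨L2, b1, _, b3, b4⟩ := pj_conjL F f (M := N) i j L1 a1 hN2 hi a3
  refine ⟨L2, b1, b3, ?_⟩
  rw [lsize_cons, lsize_nil] at a4
  have e1 : N ≤ F.K * N := Nat.le_mul_of_pos_left _ hK
  have e2 : 2 * F.K * (j + 2) * N = 2 * (j * (F.K * N)) + 4 * (F.K * N) := by ring
  rw [e2]
  omega

end SizeSep
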