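import Pool.Agent.Work.MP_c07f0d_lc.SX.Back
import Pool.Agent.Work.MP_c07f0d_lc.SX.Proj
import Pool.Agent.Work.MP_c07f0d_lc.SX.GridSys

/-!
# From a Frege proof of the glued tautology to a refutation of a grid contradiction
-/

set_option linter.unusedSectionVars false

namespace SizeSep

open FregeEF LineSize GridLine

section

variable {α β : Type}

lemma deriv_map {R : List Rule} {L : List (Fm α)} (σ : α → Fm β) (h : IsDeriv R [] L) :
    IsDeriv R [] (L.map (Fm.subst σ)) := by
  induction h with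
  | nil => exact .nil
  | hyp _ hφ _ => simp at hφ
  | step _ hi ih => exact ih.step (hi.subst σ)

lemma deriv_weaken {R : List Rule} {L : List (Fm α)} (Γ : List (Fm α)) (h : IsDeriv R [] L) :
    IsDeriv R Γ L := by
  induction h with
  | nil => exact .nil
  | hyp _ hφ _ => simp at hφ
  | step _ hi ih => exact ih.step hi

lemma conjL_subst (f : ℕ → Fm α) (σ : α → Fm β) (j : ℕ) :
    (conjL f j).subst σ = conjL (fun i => (f i).subst σ) j := by
  induction j with
  | zero => rfl
  | succ j ih => simp only [conjL, Fm.subst, ih]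

lemma lsize_map1 (σ : α → Fm β) (hσ : ∀ x, σ x = .bot ∨ ∃ y, σ x = .var y) (L : List (Fm α)) :
    lsize (L.map (Fm.subst σ)) = lsize L := by
  induction L with
  | nil => rfl
  | cons φ L ih => rw [List.map_cons, lsize_cons, lsize_cons, ih, size_subst1 σ hσ]

end

/-- From a Frege proof of the glued tautology to a refutation of a grid contradiction: every line is
an instance of a line of the proof, or has almost linear size. -/
theorem lower_core (F : FregeSystem) {D M : ℕ} (hD : 1 ≤ D) (hM : 2 ≤ M) (P : Fm ℕ)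
    (f : ℕ → Fm ℕ) {j i : ℕ} (hi : i < j) (hf : f i = (gridSys D M hD hM).tau)
    {L : List (Fm ℕ)} (hL : IsDeriv F.rules [] L) (hτ : Fm.and P (conjL f j) ∈ L) {B : ℕ}
    (hB : 2 * F.K * (j + 2) * (Fm.and P (conjL f j)).size
      + 20 * F.K * (64 * D ^ 2 + 1) * (2 ^ Nat.clog 2 (M ^ D) * (Nat.clog 2 (M ^ D) + 1)) ≤ B) :
    ∃ L' : List (Fm (GE D M)), IsDeriv F.rules (gridAxioms D M) L' ∧ .bot ∈ L' ∧
      (∀ φ ∈ L', (∃ ψ ∈ L, φ = ψ.subst (gback D M)) ∨ φ.size ≤ B) ∧
      lsize L' ≤ lsize L + B := by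
  set σ := gback D M with hσ
  have hσ1 : ∀ x, σ x = .bot ∨ ∃ y, σ x = .var y := fun x => gback_or x
  set S := gridSys D M hD hM with hS
  -- the substituted proof
  have h1 : IsDeriv F.rules [] (L.map (Fm.subst σ)) := deriv_map σ hL
  have h2 : Fm.and (P.subst σ) (conjL (fun i => (f i).subst σ) j) ∈ L.map (Fm.subst σ) := by
    have := List.mem_map_of_mem (f := Fm.subst σ) hτ
    simpa only [Fm.subst, conjL_subst] using this
  have hsz : (Fm.and (P.subst σ) (conjL (fun i => (f i).subst σ) j)).size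
      = (Fm.and P (conjL f j)).size := by
    rw [← size_subst1 σ hσ1 (Fm.and P (conjL f j))]
    simp only [Fm.subst, conjL_subst]
  -- the component
  obtain ⟨Lp, p1, p2, p3⟩ := proj_conjL F (P.subst σ) (fun i => (f i).subst σ) j i hi
  rw [hsz] at p3
  obtain ⟨L2, a1, a2, a3, a4, a5⟩ := cut_hyp p1 h1 (by
    intro p hp
    rw [List.mem_singleton] at hp
    subst hp
    exact Or.inl h2)
  have h3 : Fm.neg (conjT (fun i => (S.E i).subst σ) (Nat.clog 2 (M ^ D)) 0) ∈ L2 := by
    have h4 : (f i).subst σ ∈ L2 := a3 p2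
    rw [hf] at h4
    have e : (Sys.tau S).subst σ
        = .neg (conjT (fun i => (S.E i).subst σ) (Nat.clog 2 (M ^ D)) 0) := by
      unfold Sys.tau
      rw [Fm.subst, conjT_subst]
      rfl
    rwa [e] at h4
  -- the contradiction
  have hE : ∀ i, ((S.E i).subst σ).size ≤ 64 * D ^ 2 := by
    intro i
    rw [size_subst1 σ hσ1]
    exact S.E_size i
  obtain ⟨Lc, c1, c2, c3⟩ := close_conj F (fun i => (S.E i).subst σ) hE (Nat.clog 2 (M ^ D))
    (gridAxioms D M) (by
      intro i
      rcases gridSys_E hD hM i with h | h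
      · exact Or.inl h
      · right
        show (S.E i).subst σ = _
        rw [hS, h]
        rfl)
  obtain ⟨L3, b1, b2, b3, b4, b5⟩ := cut_hyp c1 (deriv_weaken (gridAxioms D M) a1) (by
    intro p hp
    rcases List.mem_cons.1 hp with hp | hp
    · subst hp
      exact Or.inl h3
    · exact Or.inr hp)
  have hlen := lsize_map1 σ hσ1 L
  refine ⟨L3, b1, b3 c2, ?_, by omega⟩
  intro φ hφ
  rcases b2 φ hφ with h | h
  · right
    have := size_le_lsize h
    omega
  · rcases a2 φ h with h | h
    · right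
      have := size_le_lsize h
      omega
    · obtain ⟨ψ, hψ, rfl⟩ := List.mem_map.1 h
      exact Or.inl ⟨ψ, hψ, rfl⟩

end SizeSep
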