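import Pool.Agent.Work.MP_c07f0d_lc.SX.Lower
import Pool.Agent.Work.MP_c07f0d_lc.AC.Subf

/-!
# The number of different subformulas: substitutions, and the variables of the grid contradictions
-/

set_option linter.unusedSectionVars false

namespace SizeSep

open FregeEF LineSize GridLine AcFrege

section

variable {α β : Type} [DecidableEq α] [DecidableEq β]

lemma subf_subst1 (σ : α → Fm β) (hσ : ∀ x, σ x = .bot ∨ ∃ y, σ x = .var y) (φ : Fm α) :
    subf (φ.subst σ) ⊆ (subf φ).image (Fm.subst σ) := by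
  induction φ with
  | var x =>
    intro χ hχ
    have h1 : χ = σ x := by
      change χ ∈ subf (σ x) at hχ
      rcases hσ x with h | ⟨y, h⟩
      · rw [h] at hχ ⊢
        simpa [subf] using hχ
      · rw [h] at hχ ⊢
        simpa [subf] using hχ
    exact Finset.mem_image.2 ⟨.var x, self_mem_subf _, h1.symm⟩
  | bot =>
    intro χ hχ
    have h1 : χ = .bot := by
      change χ ∈ subf (.bot : Fm β) at hχ
      simpa [subf] using hχ
    exact Finset.mem_image.2 ⟨.bot, self_mem_subf _, h1.symm⟩
  | neg φ ih =>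
    intro χ hχ
    rcases Finset.mem_insert.1 hχ with rfl | h
    · exact Finset.mem_image.2 ⟨.neg φ, self_mem_subf _, rfl⟩
    · obtain ⟨ψ, h1, h2⟩ := Finset.mem_image.1 (ih h)
      exact Finset.mem_image.2 ⟨ψ, mem_subf_neg h1, h2⟩
  | and φ ψ ih1 ih2 =>
    intro χ hχ
    rcases Finset.mem_insert.1 hχ with rfl | h
    · exact Finset.mem_image.2 ⟨.and φ ψ, self_mem_subf _, rfl⟩
    · rcases Finset.mem_union.1 h with h | h
      · obtain ⟨θ, h1, h2⟩ := Finset.mem_image.1 (ih1 h)
        exact Finset.mem_image.2 ⟨θ, mem_subf_and_left h1, h2⟩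
      · obtain ⟨θ, h1, h2⟩ := Finset.mem_image.1 (ih2 h)
        exact Finset.mem_image.2 ⟨θ, mem_subf_and_right h1, h2⟩
  | or φ ψ ih1 ih2 =>
    intro χ hχ
    rcases Finset.mem_insert.1 hχ with rfl | h
    · exact Finset.mem_image.2 ⟨.or φ ψ, self_mem_subf _, rfl⟩
    · rcases Finset.mem_union.1 h with h | h
      · obtain ⟨θ, h1, h2⟩ := Finset.mem_image.1 (ih1 h)
        exact Finset.mem_image.2 ⟨θ, mem_subf_or_left h1, h2⟩
      · obtain ⟨θ, h1, h2⟩ := Finset.mem_image.1 (ih2 h)
        exact Finset.mem_image.2 ⟨θ, mem_subf_or_right h1, h2⟩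
  | imp φ ψ ih1 ih2 =>
    intro χ hχ
    rcases Finset.mem_insert.1 hχ with rfl | h
    · exact Finset.mem_image.2 ⟨.imp φ ψ, self_mem_subf _, rfl⟩
    · rcases Finset.mem_union.1 h with h | h
      · obtain ⟨θ, h1, h2⟩ := Finset.mem_image.1 (ih1 h)
        exact Finset.mem_image.2 ⟨θ, mem_subf_imp_left h1, h2⟩
      · obtain ⟨θ, h1, h2⟩ := Finset.mem_image.1 (ih2 h)
        exact Finset.mem_image.2 ⟨θ, mem_subf_imp_right h1, h2⟩

/-- The number of different subformulas of a proof, all lines of which are instances of lines of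
another proof or lines of a short list. -/
lemma card_subfL_of (σ : α → Fm β) (hσ : ∀ x, σ x = .bot ∨ ∃ y, σ x = .var y) {L : List (Fm α)}
    {L' X : List (Fm β)} (h : ∀ φ ∈ L', (∃ ψ ∈ L, φ = ψ.subst σ) ∨ φ ∈ X) :
    (subfL L').card ≤ (subfL L).card + lsize X := by
  have h1 : subfL L' ⊆ (subfL L).image (Fm.subst σ) ∪ subfL X := by
    intro χ hχ
    obtain ⟨φ, hφ, h2⟩ := mem_subfL.1 hχ
    rcases h φ hφ with ⟨ψ, hψ, rfl⟩ | hX
    · obtain ⟨θ, h3, h4⟩ := Finset.mem_image.1 (subf_subst1 σ hσ ψ h2)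
      exact Finset.mem_union_left _ (Finset.mem_image.2 ⟨θ, mem_subfL.2 ⟨ψ, hψ, h3⟩, h4⟩)
    · exact Finset.mem_union_right _ (mem_subfL.2 ⟨φ, hX, h2⟩)
  calc (subfL L').card ≤ ((subfL L).image (Fm.subst σ) ∪ subfL X).card := Finset.card_le_card h1
    _ ≤ ((subfL L).image (Fm.subst σ)).card + (subfL X).card := Finset.card_union_le _ _
    _ ≤ (subfL L).card + lsize X := Nat.add_le_add Finset.card_image_le (card_subfL_le X)

end

/-! ### The variables of the grid contradictions -/

section

variable {α : Type} [DecidableEq α]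

lemma var_mem_subf {x : α} {φ : Fm α} (h : φ.Occurs x) : .var x ∈ subf φ := by
  induction φ with
  | var y =>
    have : y = x := h
    rw [this]
    exact self_mem_subf _
  | bot => exact h.elim
  | neg φ ih => exact mem_subf_neg (ih h)
  | and φ ψ ih1 ih2 =>
    rcases h with h | h
    · exact mem_subf_and_left (ih1 h)
    · exact mem_subf_and_right (ih2 h)
  | or φ ψ ih1 ih2 =>
    rcases h with h | h
    · exact mem_subf_or_left (ih1 h)
    · exact mem_subf_or_right (ih2 h)
  | imp φ ψ ih1 ih2 =>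
    rcases h with h | h
    · exact mem_subf_imp_left (ih1 h)
    · exact mem_subf_imp_right (ih2 h)

lemma occurs_fm {x : α} {t : XT α} (h : t.Occ x) : t.fm.Occurs x := by
  induction t with
  | leaf o =>
    cases o with
    | none => exact h.elim
    | some y => exact h
  | node a b iha ihb =>
    rcases h with h | h
    · exact Or.inl (Or.inl (iha h))
    · exact Or.inr (Or.inr (ihb h))

lemma occ_ofList {x : α} {t : XT α} (ht : t.Occ x) (k : ℕ) : ∀ l : List (XT α), t ∈ l →
    l.length ≤ 2 ^ k → (XT.ofList k l).Occ x := by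
  induction k with
  | zero =>
    intro l h1 h2
    rcases l with _ | ⟨t', _ | ⟨t'', l⟩⟩
    · simp at h1
    · rw [List.mem_singleton] at h1
      subst h1
      exact ht
    · simp at h2
  | succ k ih =>
    intro l h1 h2
    rw [pow_succ] at h2
    rw [← List.take_append_drop (2 ^ k) l, List.mem_append] at h1
    rcases h1 with h1 | h1
    · exact Or.inl (ih _ h1 (by rw [List.length_take]; exact min_le_left _ _))
    · exact Or.inr (ih _ h1 (by rw [List.length_drop]; omega))

lemma conjT_occurs {f : ℕ → Fm α} {x : α} (κ : ℕ) : ∀ s i, s ≤ i → i < s + 2 ^ κ →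
    (f i).Occurs x → (conjT f κ s).Occurs x := by
  induction κ with
  | zero =>
    intro s i h1 h2 h
    have : i = s := by
      rw [pow_zero] at h2
      omega
    subst this
    exact h
  | succ κ ih =>
    intro s i h1 h2 h
    rw [pow_succ] at h2
    by_cases h3 : i < s + 2 ^ κ
    · exact Or.inl (ih s i h1 h3 h)
    · exact Or.inr (ih (s + 2 ^ κ) i (by omega) (by omega) h)

lemma conjL_mem {f : ℕ → Fm α} {χ : Fm α} {j i : ℕ} (hi : i < j) (h : χ ∈ subf (f i)) :
    χ ∈ subf (conjL f j) := by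
  induction j with
  | zero => omega
  | succ j ih =>
    rcases Nat.lt_succ_iff_lt_or_eq.1 hi with h1 | h1
    · exact mem_subf_and_right (ih h1)
    · subst h1
      exact mem_subf_and_left h

end

variable {D M : ℕ}

lemma gTree_occ (e : GE D M) : (gTree (gsrc e)).Occ e := by
  unfold gTree
  refine occ_ofList (t := .leaf (some e)) rfl _ _ ?_ ?_
  · refine List.mem_map.2 ⟨e, ?_, rfl⟩
    unfold gstar
    rw [Finset.mem_toList, Finset.mem_filter]
    exact ⟨Finset.mem_univ _, Or.inl rfl⟩
  · rw [List.length_map, List.length_map]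
    exact Nat.le_pow_clog (by norm_num) _

lemma mapXT_occ {β : Type} (f : GE D M → β) {t : XT (GE D M)} {e : GE D M} [DecidableEq β]
    (h : t.Occ e) : (mapXT f t).Occ (f e) := by
  induction t with
  | leaf o =>
    cases o with
    | none => exact h.elim
    | some y =>
      have : y = e := h
      subst this
      rfl
  | node a b iha ihb =>
    rcases h with h | h
    · exact Or.inl (iha h)
    · exact Or.inr (ihb h)

/-- All variables occur in the grid contradiction. -/
lemma gridSys_occurs (hD : 1 ≤ D) (hM : 2 ≤ M) (e : GE D M) :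
    (gridSys D M hD hM).tau.Occurs (enc D M e) := by
  obtain ⟨i, hi, hv⟩ := List.getElem_of_mem
    (show gsrc e ∈ gverts D M from Finset.mem_toList.2 (Finset.mem_univ _))
  have him : i < (gridSys D M hD hM).m := by
    show i < M ^ D
    rw [← gverts_length (D := D) (M := M)]
    exact hi
  have h1 : ((gridSys D M hD hM).T i).Occ (enc D M e) := by
    show (mapXT (enc D M) (gTree ((gverts D M).getD i (gzero D hM)))).Occ (enc D M e)
    have h2 : (gverts D M).getD i (gzero D hM) = gsrc e := by
      rw [List.getD_eq_getElem?_getD, List.getElem?_eq_getElem hi, Option.getD_some, hv]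
    rw [h2]
    exact mapXT_occ _ (gTree_occ e)
  have h2 : ((gridSys D M hD hM).E i).Occurs (enc D M e) := by
    unfold Sys.E LineSize.litF
    rw [if_pos him]
    split_ifs
    · exact occurs_fm h1
    · exact occurs_fm h1
  unfold Sys.tau
  show (conjT _ _ 0).Occurs _
  exact conjT_occurs _ 0 i (Nat.zero_le _) (by
    rw [Nat.zero_add]
    exact him.trans_le (Nat.le_pow_clog (by norm_num) _)) h2

/-- The number of subformulas is at least the number of edges. -/
lemma card_edges_le {P : Fm ℕ} {f : ℕ → Fm ℕ} {j i : ℕ} (hD : 1 ≤ D) (hM : 2 ≤ M) (hi : i < j)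
    (hf : f i = (gridSys D M hD hM).tau) {L : List (Fm ℕ)} (hτ : Fm.and P (conjL f j) ∈ L) :
    Fintype.card (GE D M) ≤ (subfL L).card := by
  rw [← Finset.card_univ]
  refine Finset.card_le_card_of_injOn (fun e => .var (enc D M e)) (fun e _ => ?_) ?_
  · refine mem_subfL.2 ⟨_, hτ, mem_subf_and_right (conjL_mem hi ?_)⟩
    rw [hf]
    exact var_mem_subf (gridSys_occurs hD hM e)
  · intro e _ e' _ h
    exact enc_inj (by simpa using h)

/-- From a Frege proof of the glued tautology to a refutation of a grid contradiction: every line is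
an instance of a line of the proof, or is in a list of almost linear size. -/
theorem lower_coreS (F : FregeSystem) {D M : ℕ} (hD : 1 ≤ D) (hM : 2 ≤ M) (P : Fm ℕ)
    (f : ℕ → Fm ℕ) {j i : ℕ} (hi : i < j) (hf : f i = (gridSys D M hD hM).tau)
    {L : List (Fm ℕ)} (hL : IsDeriv F.rules [] L) (hτ : Fm.and P (conjL f j) ∈ L) {B : ℕ}
    (hB : 2 * F.K * (j + 2) * (Fm.and P (conjL f j)).size
      + 20 * F.K * (64 * D ^ 2 + 1) * (2 ^ Nat.clog 2 (M ^ D) * (Nat.clog 2 (M ^ D) + 1)) ≤ B) :
    ∃ L' X : List (Fm (GE D M)), IsDeriv F.rules (gridAxioms D M) L' ∧ .bot ∈ L' ∧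
      (∀ φ ∈ L', (∃ ψ ∈ L, φ = ψ.subst (gback D M)) ∨ φ ∈ X) ∧ lsize X ≤ B := by
  set σ := gback D M with hσ
  have hσ1 : ∀ x, σ x = .bot ∨ ∃ y, σ x = .var y := fun x => gback_or x
  set S := gridSys D M hD hM with hS
  -- the substituted proof
  have h1 : IsDeriv F.rules [] (L.map (Fm.subst σ)) := deriv_map σ hL
  have h2 : Fm.and (P.subst σ) (conjL (fun i => (f i).subst σ) j) ∈ L.map (Fm.subst σ) := by
    have := List.mem_map_of_mem (f := Fm.subst σ) hτ
    simpa only [Fm.subst, conjL_subst] using this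
  have hsz : (Fm.and (P.subst σ) (conjL (fun i => (f i).subst σ) j)).size
      = (Fm.and P (conjL f j)).size := by
    rw [← size_subst1 σ hσ1 (Fm.and P (conjL f j))]
    simp only [Fm.subst, conjL_subst]
  -- the component
  obtain ⟨Lp, p1, p2, p3⟩ := proj_conjL F (P.subst σ) (fun i => (f i).subst σ) j i hi
  rw [hsz] at p3
  obtain ⟨L2, a1, a2, a3, a4, a5⟩ := cut_hyp p1 h1 (by
    intro p hp
    rw [List.mem_singleton] at hp
    subst hp
    exact Or.inl h2)
  have h3 : Fm.neg (conjT (fun i => (S.E i).subst σ) (Nat.clog 2 (M ^ D)) 0) ∈ L2 := by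
    have h4 : (f i).subst σ ∈ L2 := a3 p2
    rw [hf] at h4
    have e : (Sys.tau S).subst σ
        = .neg (conjT (fun i => (S.E i).subst σ) (Nat.clog 2 (M ^ D)) 0) := by
      unfold Sys.tau
      rw [Fm.subst, conjT_subst]
      rfl
    rwa [e] at h4
  -- the contradiction
  have hE : ∀ i, ((S.E i).subst σ).size ≤ 64 * D ^ 2 := by
    intro i
    rw [size_subst1 σ hσ1]
    exact S.E_size i
  obtain ⟨Lc, c1, c2, c3⟩ := close_conj F (fun i => (S.E i).subst σ) hE (Nat.clog 2 (M ^ D))
    (gridAxioms D M) (by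
      intro i
      rcases gridSys_E hD hM i with h | h
      · exact Or.inl h
      · right
        show (S.E i).subst σ = _
        rw [hS, h]
        rfl)
  obtain ⟨L3, b1, b2, b3, b4, b5⟩ := cut_hyp c1 (deriv_weaken (gridAxioms D M) a1) (by
    intro p hp
    rcases List.mem_cons.1 hp with hp | hp
    · subst hp
      exact Or.inl h3
    · exact Or.inr hp)
  refine ⟨L3, Lc ++ Lp, b1, b3 c2, ?_, by rw [lsize_append]; omega⟩
  intro φ hφ
  rcases b2 φ hφ with h | h
  · exact Or.inr (List.mem_append_left _ h)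
  · rcases a2 φ h with h | h
    · exact Or.inr (List.mem_append_right _ h)
    · obtain ⟨ψ, hψ, rfl⟩ := List.mem_map.1 h
      exact Or.inl ⟨ψ, hψ, rfl⟩

end SizeSep
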