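import Pool.Agent.Work.MP_c07f0d_lc.SZ.FregeConj
import Pool.Agent.Work.MP_c07f0d_lc.LS.Upper3

/-!
# Contradictory lists of small parity equations
-/

set_option linter.unusedSectionVars false

namespace SizeSep

open FregeEF LineSize

/-- A contradictory list of `m` small parity equations: the `i`-th equation says that the tree `T i`
of exclusive ors has the value `r i`. -/
structure Sys where
  m : ℕ
  n : ℕ
  a : ℕ
  T : ℕ → XT ℕ
  r : ℕ → Bool
  hm : 1 ≤ m
  size : ∀ i, (T i).fm.size + 1 ≤ a
  below : ∀ i x, (T i).Occ x → x < n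
  sum : ∀ x, valB (fun i => (T i).par x) (List.range m) = false
  charge : valB r (List.range m) = true

/-- The equations, padded by the true formula. -/
def Sys.E (S : Sys) (i : ℕ) : Fm ℕ :=
  if i < S.m then LineSize.litF (S.r i) (S.T i).fm else .neg .bot

/-- The negated balanced conjunction of the equations. -/
def Sys.tau (S : Sys) : Fm ℕ := .neg (conjT S.E (Nat.clog 2 S.m) 0)

/-- The conjunction of `f (j - 1), ..., f 0` and a true formula. -/
def conjL {α : Type} (f : ℕ → Fm α) : ℕ → Fm α
  | 0 => .neg .bot
  | j + 1 => .and (f j) (conjL f j)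

lemma Sys.two_le_a (S : Sys) : 2 ≤ S.a := by
  have h1 := S.size 0
  have h2 := (S.T 0).fm.size_pos
  omega

lemma Sys.E_size (S : Sys) (i : ℕ) : (S.E i).size ≤ S.a := by
  have h1 := S.size i
  have h2 := S.two_le_a
  unfold Sys.E LineSize.litF
  split_ifs
  · omega
  · simp only [Fm.size]
    omega
  · simp only [Fm.size]
    omega

lemma XT.bel_fm {k : ℕ} (t : XT ℕ) (h : ∀ x, t.Occ x → x < k) : Bel k t.fm := by
  induction t with
  | leaf o =>
    cases o with
    | none => exact bel_bot k
    | some y => exact bel_var (h y rfl)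
  | node a b iha ihb =>
    have ha := iha fun x hx => h x (Or.inl hx)
    have hb := ihb fun x hx => h x (Or.inr hx)
    intro x hx
    rcases hx with (h | h) | (h | h)
    · exact ha x h
    · exact hb x h
    · exact ha x h
    · exact hb x h

lemma Sys.E_bel (S : Sys) (i : ℕ) : Bel S.n (S.E i) := by
  unfold Sys.E LineSize.litF
  have h := XT.bel_fm (S.T i) (S.below i)
  split_ifs
  · exact h
  · exact fun x hx => h x hx
  · exact fun x hx => hx.elim

lemma Sys.tau_bel (S : Sys) : Bel S.n S.tau := fun x hx => conjT_bel S.E S.E_bel _ _ x hx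

lemma Sys.tau_size (S : Sys) : S.tau.size ≤ 2 * S.m * (S.a + 1) := by
  have h1 := conjT_size S.E S.E_size (Nat.clog 2 S.m) 0
  have h2 := two_pow_clog_le S.hm
  have h3 := Nat.mul_le_mul_right (S.a + 1) h2
  unfold Sys.tau
  simp only [Fm.size]
  omega

end SizeSep
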