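import Pool.Agent.Work.MP_c07f0d_lc.SX.Sys

/-!
# The negated conjunction of a contradictory system is a tautology
-/

set_option linter.unusedSectionVars false

namespace SizeSep

open FregeEF LineSize

lemma valB_nilX {V : Type} (f : V → Bool) : valB f [] = false := rfl

lemma valB_consX {V : Type} (f : V → Bool) (u : V) (l : List V) :
    valB f (u :: l) = xor (f u) (valB f l) := rfl

lemma valB_falseX {V : Type} (f : V → Bool) (l : List V) (h : ∀ u ∈ l, f u = false) :
    valB f l = false := by
  induction l with
  | nil => rfl
  | cons u l ih =>
    rw [valB_consX, h u List.mem_cons_self, ih fun v hv => h v (List.mem_cons_of_mem _ hv)]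
    rfl

lemma valB_congrX {V : Type} (f g : V → Bool) (l : List V) (h : ∀ u ∈ l, f u = g u) :
    valB f l = valB g l := by
  induction l with
  | nil => rfl
  | cons u l ih =>
    rw [valB_consX, valB_consX, h u List.mem_cons_self,
      ih fun v hv => h v (List.mem_cons_of_mem _ hv)]

lemma valB_xorX {V : Type} (f g : V → Bool) (l : List V) :
    valB (fun u => xor (f u) (g u)) l = xor (valB f l) (valB g l) := by
  induction l with
  | nil => rfl
  | cons u l ih =>
    rw [valB_consX, valB_consX, valB_consX, ih]
    cases f u <;> cases g u <;> cases valB f l <;> cases valB g l <;> rfl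

lemma valB_andX {V : Type} (f : V → Bool) (b : Bool) (l : List V) :
    valB (fun u => f u && b) l = (valB f l && b) := by
  induction l with
  | nil => rfl
  | cons u l ih =>
    rw [valB_consX, valB_consX, ih]
    cases f u <;> cases b <;> cases valB f l <;> rfl

lemma valB_swapX {V W : Type} (f : V → W → Bool) (l : List V) (l' : List W) :
    valB (fun u => valB (fun w => f u w) l') l = valB (fun w => valB (fun u => f u w) l) l' := by
  induction l with
  | nil =>
    rw [valB_nilX, valB_falseX]
    intro u _
    rfl
  | cons u l ih =>
    rw [valB_consX, ih, ← valB_xorX]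
    rfl

lemma valB_singleX (y : ℕ) (b : ℕ → Bool) (n : ℕ) :
    valB (fun x => decide (y = x) && b x) (List.range n) = (decide (y < n) && b y) := by
  induction n with
  | zero => rfl
  | succ n ih =>
    rw [List.range_succ, valB_append, ih, valB_consX, valB_nilX, Bool.xor_false]
    by_cases h1 : y = n
    · subst h1
      simp
    · by_cases h2 : y < n
      · have h3 : y < n + 1 := by omega
        simp [h1, h2, h3]
      · have h3 : ¬ y < n + 1 := by omega
        simp [h1, h2, h3]

open Classical in
/-- The value of a tree of exclusive ors. -/
lemma XT.value (v : ℕ → Prop) (n : ℕ) (t : XT ℕ) (ht : ∀ x, t.Occ x → x < n) :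
    decide (t.fm.eval v) = valB (fun x => t.par x && decide (v x)) (List.range n) := by
  induction t with
  | leaf o =>
    cases o with
    | none =>
      rw [valB_falseX]
      · simp [XT.fm, Fm.eval]
      · intro x _
        rfl
    | some y =>
      have hy : y < n := ht y rfl
      have h := valB_singleX y (fun x => decide (v x)) n
      have e : valB (fun x => (XT.leaf (some y) : XT ℕ).par x && decide (v x)) (List.range n)
          = valB (fun x => decide (y = x) && decide (v x)) (List.range n) :=
        valB_congrX _ _ _ fun x _ => by
          simp only [XT.par]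
      rw [e, h]
      simp [hy, XT.fm, Fm.eval]
  | node a b iha ihb =>
    have ha := iha fun x hx => ht x (Or.inl hx)
    have hb := ihb fun x hx => ht x (Or.inr hx)
    have e : valB (fun x => (XT.node a b).par x && decide (v x)) (List.range n)
        = valB (fun x => xor (a.par x && decide (v x)) (b.par x && decide (v x))) (List.range n) :=
      valB_congrX _ _ _ fun x _ => by
        simp only [XT.par]
        cases a.par x <;> cases b.par x <;> cases decide (v x) <;> rfl
    rw [e, valB_xorX, ← ha, ← hb]
    simp only [XT.fm, xor2, Fm.eval]
    by_cases h1 : a.fm.eval v <;> by_cases h2 : b.fm.eval v <;> simp [h1, h2]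

/-- A balanced conjunction is true if and only if its members are. -/
lemma conjT_evalX {α : Type} (f : ℕ → Fm α) (v : α → Prop) (κ : ℕ) : ∀ s,
    (conjT f κ s).eval v → ∀ i < 2 ^ κ, (f (s + i)).eval v := by
  induction κ with
  | zero =>
    intro s h i hi
    have : i = 0 := by simpa using hi
    subst this
    exact h
  | succ κ ih =>
    intro s h i hi
    rcases Nat.lt_or_ge i (2 ^ κ) with hc | hc
    · exact ih s h.1 i hc
    · have h5 := ih (s + 2 ^ κ) h.2 (i - 2 ^ κ) (by rw [pow_succ] at hi; omega)
      have h6 : s + 2 ^ κ + (i - 2 ^ κ) = s + i := by omega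
      rwa [h6] at h5

/-- The formula `S.tau` is a tautology. -/
theorem Sys.tau_taut (S : Sys) (v : ℕ → Prop) : S.tau.eval v := by
  classical
  intro h
  have h1 : ∀ i < S.m, decide ((S.T i).fm.eval v) = S.r i := by
    intro i hi
    have h2 := conjT_evalX S.E v (Nat.clog 2 S.m) 0 h i
      (hi.trans_le (Nat.le_pow_clog (by norm_num) _))
    rw [Nat.zero_add] at h2
    unfold Sys.E at h2
    rw [if_pos hi] at h2
    unfold LineSize.litF at h2
    split_ifs at h2 with h3
    · rw [h3]
      simpa using h2
    · have h4 : S.r i = false := by simpa using h3
      rw [h4]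
      simpa [Fm.eval] using h2
  have h2 : valB S.r (List.range S.m)
      = valB (fun i => valB (fun x => (S.T i).par x && decide (v x)) (List.range S.n))
        (List.range S.m) := by
    refine valB_congrX _ _ _ fun i hi => ?_
    rw [← h1 i (List.mem_range.1 hi), XT.value v S.n (S.T i) (S.below i)]
  rw [valB_swapX, S.charge] at h2
  have h3 := valB_falseX (fun w => valB (fun u => (S.T u).par w && decide (v w)) (List.range S.m))
    (List.range S.n) (by
      intro x _
      show valB (fun u => (S.T u).par x && decide (v x)) (List.range S.m) = false
      rw [valB_andX (fun i => (S.T i).par x), S.sum x]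
      rfl)
  rw [h3] at h2
  exact absurd h2 (by decide)

end SizeSep
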