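import Pool.Agent.Work.MP_c07f0d_lc.SX.GridHard
import Pool.Agent.Work.MP_c07f0d_lc.SX.Weights
import Pool.Agent.Work.MP_c07f0d_lc.SX.Glue
import Pool.Agent.Work.MP_c07f0d_lc.SX.FregeSys
import Pool.Agent.Work.MP_c07f0d_lc.SX.Taut

/-!
# One sequence of tautologies, and its upper bounds
-/

set_option linter.unusedSectionVars false

namespace SizeSep

open FregeEF LineSize GridLine GridLine.Xor AcFrege

/-- The numbers `1 / (k + 2)`. -/
noncomputable def eps (k : ℕ) : ℝ := 1 / ((k : ℝ) + 2)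

lemma eps_pos (k : ℕ) : 0 < eps k := by
  unfold eps
  positivity

lemma eps_le_half (k : ℕ) : eps k ≤ 1 / 2 := by
  unfold eps
  apply one_div_le_one_div_of_le (by norm_num)
  have : (0 : ℝ) ≤ k := Nat.cast_nonneg _
  linarith

lemma eps_lt_one (k : ℕ) : eps k < 1 := (eps_le_half k).trans_lt (by norm_num)

/-- The dimension of the `k`-th grids. -/
noncomputable def gD (k : ℕ) : ℕ := (grid_hard (eps k) (eps_pos k) (eps_lt_one k)).choose

/-- The exponent of the side of the `k`-th grids. -/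
noncomputable def gv (k : ℕ) : ℕ :=
  (grid_hard (eps k) (eps_pos k) (eps_lt_one k)).choose_spec.choose

/-- The exponent in the lower bound. -/
noncomputable def gδ (k : ℕ) : ℝ :=
  (grid_hard (eps k) (eps_pos k) (eps_lt_one k)).choose_spec.choose_spec.choose

lemma g_spec (k : ℕ) : 1 ≤ gD k ∧ 1 ≤ gv k ∧ 0 < gδ k ∧ ∀ F : FregeSystem, ∃ c : ℕ,
    ∀ u : ℕ, c ≤ u → ∀ d : ℕ, c ^ 5 ^ d ≤ u → ∀ L : List (Fm (GE (gD k) (u ^ gv k))),
      IsDeriv F.rules (gridAxioms (gD k) (u ^ gv k)) L → Fm.bot ∈ L →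
      (∀ φ ∈ L, depth ⌊(Fintype.card (GE (gD k) (u ^ gv k)) : ℝ) ^ (2 - eps k)⌋₊ φ ≤ d) →
      (2 : ℝ) ^ ((Fintype.card (GE (gD k) (u ^ gv k)) : ℝ) ^ (gδ k / 5 ^ d))
        < (subfL L).card :=
  (grid_hard (eps k) (eps_pos k) (eps_lt_one k)).choose_spec.choose_spec.choose_spec

/-- The number of vertices is `u ^ gp k`. -/
noncomputable def gp (k : ℕ) : ℕ := gv k * gD k

lemma gp_pos (k : ℕ) : 1 ≤ gp k := Nat.mul_pos (g_spec k).2.1 (g_spec k).1

lemma gp_pow (k u : ℕ) : (u ^ gv k) ^ gD k = u ^ gp k := (pow_mul u _ _).symm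

/-- The constant of the `k`-th piece. -/
noncomputable def gA (k : ℕ) : ℕ := 500 * (64 * gD k ^ 2) ^ 2 * (1 + gD k)

/-- The weight of the `k`-th piece. -/
noncomputable def gW (k : ℕ) : ℕ := 2 ^ (k + 1) * gA k

lemma gA_ge (k : ℕ) : 200 * (64 * gD k ^ 2) ≤ gA k := by
  have h1 := (g_spec k).1
  have h2 : 1 ≤ gD k ^ 2 := Nat.one_le_pow _ _ h1
  unfold gA
  set x := 64 * gD k ^ 2 with hx
  have h3 : x ≤ x ^ 2 := Nat.le_self_pow (by norm_num) x
  calc 200 * x ≤ 500 * x ^ 2 * 1 := by omega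
    _ ≤ 500 * x ^ 2 * (1 + gD k) := Nat.mul_le_mul_left _ (by omega)

lemma gA_pos (k : ℕ) : 1 ≤ gA k := by
  have h1 := (g_spec k).1
  have h2 : 1 ≤ gD k ^ 2 := Nat.one_le_pow _ _ h1
  have := gA_ge k
  omega

lemma gW_pos (k : ℕ) : 1 ≤ gW k := Nat.mul_pos (Nat.pow_pos (by norm_num)) (gA_pos k)

/-- The parameter of the `k`-th piece. -/
noncomputable def gu (n k : ℕ) : ℕ := rt (gW k) (gp k) n

lemma gu_pow_le (n k : ℕ) : gu n k ^ gp k ≤ n := by
  refine le_trans ?_ (rt_spec (W := gW k) (n := n) (gp_pos k))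
  exact Nat.le_mul_of_pos_left _ (gW_pos k)

/-- The `k`-th piece. -/
noncomputable def piece (n k : ℕ) : Fm ℕ :=
  if h : 1 ≤ gD k ∧ 2 ≤ gu n k ^ gv k then (gridSys (gD k) (gu n k ^ gv k) h.1 h.2).tau
  else .neg .bot

/-- The number of the pieces. -/
def gj (n : ℕ) : ℕ := Nat.log 2 n + 1

/-- The tautologies. -/
noncomputable def tauX (n : ℕ) : Fm ℕ :=
  .and (padF (Nat.clog 2 (n + 1))) (conjL (piece n) (gj n))

/-- The number of variables of the `k`-th piece. -/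
noncomputable def gn (n k : ℕ) : ℕ := Fintype.card (GE (gD k) (gu n k ^ gv k))

lemma gn_le (n k : ℕ) : gn n k ≤ gD k * gu n k ^ gp k := by
  unfold gn
  rw [← gp_pow]
  exact card_GE_le

lemma piece_bel (n k : ℕ) : Bel (gn n k) (piece n k) := by
  unfold piece
  split_ifs with h
  · exact Sys.tau_bel _
  · exact bel_bot _

lemma piece_size (n k : ℕ) : (piece n k).size ≤ gA k * gu n k ^ gp k + 2 := by
  unfold piece
  split_ifs with h
  · refine (Sys.tau_size _).trans ?_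
    have e : (gridSys (gD k) (gu n k ^ gv k) h.1 h.2).m = gu n k ^ gp k := gp_pow k _
    have e2 : (gridSys (gD k) (gu n k ^ gv k) h.1 h.2).a = 64 * gD k ^ 2 := rfl
    rw [e, e2]
    have h1 := (g_spec k).1
    have h2 : 1 ≤ gD k ^ 2 := Nat.one_le_pow _ _ h1
    have h3 := gA_ge k
    have h4 : 2 * (64 * gD k ^ 2 + 1) ≤ gA k := by omega
    calc 2 * gu n k ^ gp k * (64 * gD k ^ 2 + 1) = 2 * (64 * gD k ^ 2 + 1) * gu n k ^ gp k := by ring
      _ ≤ gA k * gu n k ^ gp k := Nat.mul_le_mul_right _ h4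
      _ ≤ _ := Nat.le_add_right _ _
  · simp only [Fm.size]
    omega

lemma conjL_piece_size (n : ℕ) : (conjL (piece n) (gj n)).size ≤ n + 3 * gj n + 2 := by
  rw [conjL_size]
  have h1 := sum_weights gA gW gp gp_pos (fun k => le_rfl) n (gj n)
  have h2 : ∑ i ∈ Finset.range (gj n), ((piece n i).size + 1)
      ≤ ∑ i ∈ Finset.range (gj n), (gA i * rt (gW i) (gp i) n ^ gp i + 3) := by
    refine Finset.sum_le_sum fun i _ => ?_
    have := piece_size n i
    unfold gu at this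
    omega
  have h3 : ∑ i ∈ Finset.range (gj n), (gA i * rt (gW i) (gp i) n ^ gp i + 3)
      = ∑ i ∈ Finset.range (gj n), gA i * rt (gW i) (gp i) n ^ gp i + gj n * 3 := by
    rw [Finset.sum_add_distrib, Finset.sum_const, Finset.card_range, smul_eq_mul]
  rw [h3] at h2
  omega

lemma gj_le (n : ℕ) : gj n ≤ n + 1 := by
  unfold gj
  have := Nat.log_le_self 2 n
  omega

lemma pad_pow_le (n : ℕ) : 2 ^ Nat.clog 2 (n + 1) ≤ 2 * (n + 1) := two_pow_clog_le (by omega)

lemma tauX_le (n : ℕ) : (tauX n).size ≤ 12 * (n + 1) := by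
  have h1 := conjL_piece_size n
  have h2 := gj_le n
  have h3 := padF_size (Nat.clog 2 (n + 1))
  have h4 := pad_pow_le n
  unfold tauX
  simp only [Fm.size]
  omega

lemma tauX_ge (n : ℕ) : 3 * (n + 1) ≤ (tauX n).size := by
  have h3 := padF_size (Nat.clog 2 (n + 1))
  have h4 : n + 1 ≤ 2 ^ Nat.clog 2 (n + 1) := Nat.le_pow_clog (by norm_num) _
  have h5 := conjL_two_le (piece n) (gj n)
  unfold tauX
  simp only [Fm.size]
  omega

lemma log_le (n : ℕ) : Nat.log 2 n + 2 ≤ 2 * Nat.log 2 (tauX n).size := by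
  have h1 := tauX_ge n
  rcases Nat.eq_zero_or_pos n with h0 | h0
  · subst h0
    have : 1 ≤ Nat.log 2 (tauX 0).size := Nat.log_pos (by norm_num) (by omega)
    rw [Nat.log_zero_right]
    omega
  · have h2 : Nat.log 2 n + 1 ≤ Nat.log 2 (tauX n).size := by
      rw [← Nat.log_mul_base (by norm_num) (by omega)]
      exact Nat.log_mono_right (by omega)
    omega

/-! ### Tautologies -/

lemma piece_taut (n k : ℕ) (v : ℕ → Prop) : (piece n k).eval v := by
  unfold piece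
  split_ifs with h
  · exact Sys.tau_taut _ v
  · exact fun h => h

/-- All the formulas are tautologies. -/
theorem tauX_taut (n : ℕ) (v : ℕ → Prop) : (tauX n).eval v :=
  ⟨padF_taut _ v, conjL_taut _ v _ fun i _ => piece_taut n i v⟩

/-! ### Extended Frege proofs -/

lemma clog_pow_le (n k : ℕ) : Nat.clog 2 (gu n k ^ gp k) + 1 ≤ Nat.log 2 n + 2 := by
  have h1 := gu_pow_le n k
  have h2 : Nat.clog 2 (gu n k ^ gp k) ≤ Nat.log 2 n + 1 := by
    apply Nat.clog_le_of_le_pow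
    exact h1.trans (Nat.lt_pow_succ_log_self (by norm_num) n).le
  omega

/-- The cost of a piece. -/
noncomputable def costE (K n k : ℕ) : ℕ := K * (gA k * gu n k ^ gp k * (Nat.log 2 n + 2) + 1)

lemma piece_ef {F : FregeSystem} {τ : Fm ℕ} (n k : ℕ) (s : St F τ) (hs : gn n k ≤ s.k) :
    ∃ s' : St F τ, Cont (costE F.K n k) s s' ∧ piece n k ∈ s'.L := by
  unfold piece
  split_ifs with h
  · obtain ⟨s', a, b⟩ := ef_sys (gridSys (gD k) (gu n k ^ gv k) h.1 h.2) s hs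
    refine ⟨s', a.mono ?_, b⟩
    have e : (gridSys (gD k) (gu n k ^ gv k) h.1 h.2).m = gu n k ^ gp k := gp_pow k _
    have e2 : (gridSys (gD k) (gu n k ^ gv k) h.1 h.2).a = 64 * gD k ^ 2 := rfl
    rw [e, e2]
    unfold costE cE
    calc 200 * (64 * gD k ^ 2) * F.K * (gu n k ^ gp k * (Nat.clog 2 (gu n k ^ gp k) + 1))
        ≤ gA k * F.K * (gu n k ^ gp k * (Nat.log 2 n + 2)) :=
          Nat.mul_le_mul (Nat.mul_le_mul_right _ (gA_ge k))
            (Nat.mul_le_mul_left _ (clog_pow_le n k))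
      _ = F.K * (gA k * gu n k ^ gp k * (Nat.log 2 n + 2)) := by ring
      _ ≤ _ := Nat.mul_le_mul_left _ (Nat.le_succ _)
  · obtain ⟨s', a, b, c⟩ := s.top
    refine ⟨s', a.mono ?_, c⟩
    unfold costE
    exact Nat.le_mul_of_pos_right _ (Nat.succ_pos _)

lemma sum_costE (K n : ℕ) :
    ∑ k ∈ Finset.range (gj n), costE K n k ≤ K * (n * (Nat.log 2 n + 2) + gj n) := by
  have h1 := sum_weights gA gW gp gp_pos (fun k => le_rfl) n (gj n)
  have e : ∑ k ∈ Finset.range (gj n), costE K n k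
      = K * ((∑ k ∈ Finset.range (gj n), gA k * rt (gW k) (gp k) n ^ gp k) * (Nat.log 2 n + 2)
        + gj n) := by
    unfold costE gu
    rw [← Finset.mul_sum, Finset.sum_add_distrib, ← Finset.sum_mul, Finset.sum_const,
      Finset.card_range, smul_eq_mul, mul_one]
  rw [e]
  exact Nat.mul_le_mul_left _ (Nat.add_le_add_right (Nat.mul_le_mul_right _ h1) _)

/-- The number of variables of the whole formula. -/
noncomputable def gN (n : ℕ) : ℕ := ∑ k ∈ Finset.range (gj n), gn n k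

lemma gn_le_gN {n k : ℕ} (hk : k < gj n) : gn n k ≤ gN n := by
  unfold gN
  exact Finset.single_le_sum (f := fun k => gn n k) (fun i _ => Nat.zero_le _)
    (Finset.mem_range.2 hk)

lemma tauX_bel (n : ℕ) : Bel (gN n) (tauX n) := by
  intro x hx
  rcases hx with hx | hx
  · exact padF_bel _ _ x hx
  · exact conjL_bel (piece n) (gj n) (fun i hi => (piece_bel n i).mono (gn_le_gN hi)) x hx

/-- Extended Frege proofs of almost linear size. -/
theorem tauX_ef (F : FregeSystem) (n : ℕ) : ∃ L E, F.IsEFProof (tauX n) L E ∧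
    lsize L ≤ 200 * F.K * ((tauX n).size * Nat.log 2 (tauX n).size) := by
  have hK := F.K_pos
  let s0 : St F (tauX n) := ⟨gN n, [], [], .nil, by simp, tauX_bel n⟩
  obtain ⟨s1, a1, m1⟩ := ef_pad (Nat.clog 2 (n + 1)) s0
  obtain ⟨s2, a2, m2⟩ := ef_conjL (piece n) (costE F.K n) (gN n) (gj n) (fun i hi s hs =>
    piece_ef n i s ((gn_le_gN hi).trans hs)) s1 a1.2.1
  obtain ⟨s3, a3, k3, m3⟩ := s2.andI (a2.1 m1) m2
  have m3' : tauX n ∈ s3.L := m3
  obtain ⟨L', E', e1, e2⟩ := ef_suffix s3.ef m3'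
  refine ⟨tauX n :: L', E', ⟨e1, rfl⟩, e2.trans ?_⟩
  have t1 := ((a1.trans a2 le_rfl).trans a3 le_rfl).2.2
  have t2 : lsize s0.L = 0 := rfl
  rw [t2] at t1
  refine t1.trans ?_
  have h1 := sum_costE F.K n
  have h2 := pad_pow_le n
  have h3 := conjL_piece_size n
  have h4 : (Fm.and (padF (Nat.clog 2 (n + 1))) (conjL (piece n) (gj n))).size
      = (tauX n).size := rfl
  have h5 := tauX_ge n
  have h6 := tauX_le n
  have h7 := log_le n
  have h8 := gj_le n
  have h9 : gj n = Nat.log 2 n + 1 := rfl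
  rw [h4]
  set S := (tauX n).size with hS
  set l := Nat.log 2 n with hl
  set Λ := Nat.log 2 S with hΛ
  have hΛ1 : 1 ≤ Λ := by omega
  -- everything in units of `F.K`
  have g1 : F.K * (6 * 2 ^ Nat.clog 2 (n + 1)) ≤ F.K * (4 * S * Λ) := by
    apply Nat.mul_le_mul_left
    calc 6 * 2 ^ Nat.clog 2 (n + 1) ≤ 4 * S * 1 := by omega
      _ ≤ 4 * S * Λ := Nat.mul_le_mul_left _ hΛ1
  have g2 : ∑ i ∈ Finset.range (gj n), costE F.K n i ≤ F.K * (3 * S * Λ) := by
    refine h1.trans (Nat.mul_le_mul_left _ ?_)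
    have : n * (l + 2) ≤ S * (2 * Λ) := Nat.mul_le_mul (by omega) h7
    have h10 : gj n ≤ S * Λ := by
      calc gj n ≤ S * 1 := by omega
        _ ≤ S * Λ := Nat.mul_le_mul_left _ hΛ1
    have e : 3 * S * Λ = S * (2 * Λ) + S * Λ := by ring
    omega
  have g3 : F.K * ((gj n + 1) * (conjL (piece n) (gj n)).size) ≤ F.K * (8 * S * Λ) := by
    apply Nat.mul_le_mul_left
    calc (gj n + 1) * (conjL (piece n) (gj n)).size ≤ (2 * Λ) * (4 * S) :=
          Nat.mul_le_mul (by omega) (by omega)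
      _ = 8 * S * Λ := by ring
  have g4 : F.K * S ≤ F.K * (S * Λ) := Nat.mul_le_mul_left _ (Nat.le_mul_of_pos_right _ hΛ1)
  have e1 : F.K * (4 * S * Λ) = 4 * (F.K * (S * Λ)) := by ring
  have e2 : F.K * (3 * S * Λ) = 3 * (F.K * (S * Λ)) := by ring
  have e3 : F.K * (8 * S * Λ) = 8 * (F.K * (S * Λ)) := by ring
  have e4 : 200 * F.K * (S * Λ) = 200 * (F.K * (S * Λ)) := by ring
  rw [e4]
  omega

/-! ### Frege proofs -/

/-- The cost of a piece. -/
noncomputable def costF (K n k : ℕ) : ℕ :=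
  K * (gA k * (gu n k ^ gp k) ^ 2 * (Nat.log 2 n + 2) + 1)

lemma piece_pb (F : FregeSystem) (n k : ℕ) : F.PB (piece n k) (costF F.K n k) := by
  unfold piece
  split_ifs with h
  · refine (pb_sys F (gridSys (gD k) (gu n k ^ gv k) h.1 h.2)).mono ?_
    have e : (gridSys (gD k) (gu n k ^ gv k) h.1 h.2).m = gu n k ^ gp k := gp_pow k _
    have e2 : (gridSys (gD k) (gu n k ^ gv k) h.1 h.2).a = 64 * gD k ^ 2 := rfl
    have e3 : (gridSys (gD k) (gu n k ^ gv k) h.1 h.2).n = gn n k := rfl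
    rw [e, e2, e3]
    have h1 := gn_le n k
    have h2 := clog_pow_le n k
    unfold costF cF
    set m := gu n k ^ gp k with hm
    have h3 : m * (m + gn n k) ≤ (1 + gD k) * m ^ 2 := by
      calc m * (m + gn n k) ≤ m * (m + gD k * m) :=
            Nat.mul_le_mul_left _ (Nat.add_le_add_left h1 _)
        _ = (1 + gD k) * m ^ 2 := by ring
    calc 500 * (64 * gD k ^ 2 * (64 * gD k ^ 2)) * F.K * (m * (m + gn n k) * (Nat.clog 2 m + 1))
        ≤ 500 * (64 * gD k ^ 2 * (64 * gD k ^ 2)) * F.K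
            * ((1 + gD k) * m ^ 2 * (Nat.log 2 n + 2)) :=
          Nat.mul_le_mul_left _ (Nat.mul_le_mul h3 h2)
      _ = F.K * (gA k * m ^ 2 * (Nat.log 2 n + 2)) := by
          unfold gA
          ring
      _ ≤ _ := Nat.mul_le_mul_left _ (Nat.le_succ _)
  · have h1 := F.infer [] (.neg .bot) ([] : List (Fm ℕ)) [] 1 (by decide)
      (by intro v _; exact fun h => h) le_rfl (by simp) .nil
    have h2 : F.PB (.neg .bot : Fm ℕ) (F.K * 1) := by
      simpa [Fm.subst] using h1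
    refine h2.mono ?_
    unfold costF
    exact Nat.mul_le_mul_left _ (by omega)

lemma sum_costF (K n : ℕ) :
    ∑ k ∈ Finset.range (gj n), costF K n k ≤ K * (n ^ 2 * (Nat.log 2 n + 2) + gj n) := by
  have h1 := sum_weights_sq gA gW gp gp_pos gA_pos (fun k => le_rfl) n (gj n)
  have e : ∑ k ∈ Finset.range (gj n), costF K n k
      = K * ((∑ k ∈ Finset.range (gj n), gA k * (rt (gW k) (gp k) n ^ gp k) ^ 2)
        * (Nat.log 2 n + 2) + gj n) := by
    unfold costF gu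
    rw [← Finset.mul_sum, Finset.sum_add_distrib, ← Finset.sum_mul, Finset.sum_const,
      Finset.card_range, smul_eq_mul, mul_one]
  rw [e]
  exact Nat.mul_le_mul_left _ (Nat.add_le_add_right (Nat.mul_le_mul_right _ h1) _)

/-- Frege proofs of almost quadratic size. -/
theorem tauX_frege (F : FregeSystem) (n : ℕ) : ∃ L, F.IsProof (tauX n) L ∧
    lsize L ≤ 200 * F.K * ((tauX n).size ^ 2 * Nat.log 2 (tauX n).size) := by
  have hK := F.K_pos
  have p1 := pb_pad (F := F) (Nat.clog 2 (n + 1))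
  have p2 := pb_conjL (F := F) (piece n) (costF F.K n) (gj n) fun i _ => piece_pb F n i
  have p3 := F.infer [.var 0, .var 1] (.and (.var 0) (.var 1))
    [padF (Nat.clog 2 (n + 1)), conjL (piece n) (gj n)] [_, _] (tauX n).size (by decide)
    andI_valid (Fm.size_pos _) (by
      simp only [List.mem_cons, List.not_mem_nil, or_false, forall_eq_or_imp, forall_eq, tauX,
        Fm.size]
      omega) (.cons (by simpa [Fm.subst, sub] using p1)
        (.cons (by simpa [Fm.subst, sub] using p2) .nil))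
  have p4 : F.PB (tauX n) ([F.K * (3 * 2 ^ Nat.clog 2 (n + 1) * (Nat.clog 2 (n + 1) + 2)),
      ∑ i ∈ Finset.range (gj n), costF F.K n i + F.K * ((gj n + 1) * (conjL (piece n) (gj n)).size)
      ].sum + F.K * (tauX n).size) := by
    simpa [Fm.subst, sub, tauX] using p3
  refine (p4.mono ?_).isProof
  simp only [List.sum_cons, List.sum_nil]
  have h1 := sum_costF F.K n
  have h2 := pad_pow_le n
  have h3 := conjL_piece_size n
  have h5 := tauX_ge n
  have h7 := log_le n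
  have h8 := gj_le n
  have h9 : gj n = Nat.log 2 n + 1 := rfl
  have h10 : Nat.clog 2 (n + 1) ≤ Nat.log 2 n + 1 := by
    apply Nat.clog_le_of_le_pow
    exact Nat.lt_pow_succ_log_self (by norm_num) n
  set S := (tauX n).size with hS
  set l := Nat.log 2 n with hl
  set Λ := Nat.log 2 S with hΛ
  have hΛ1 : 1 ≤ Λ := by omega
  have hSS : S ≤ S ^ 2 := Nat.le_self_pow (by norm_num) S
  have hSΛ : S * Λ ≤ S ^ 2 * Λ := Nat.mul_le_mul_right _ hSS
  have g1 : F.K * (3 * 2 ^ Nat.clog 2 (n + 1) * (Nat.clog 2 (n + 1) + 2))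
      ≤ F.K * (6 * (S ^ 2 * Λ)) := by
    apply Nat.mul_le_mul_left
    calc 3 * 2 ^ Nat.clog 2 (n + 1) * (Nat.clog 2 (n + 1) + 2) ≤ (2 * S) * (3 * Λ) :=
          Nat.mul_le_mul (by omega) (by omega)
      _ = 6 * (S * Λ) := by ring
      _ ≤ 6 * (S ^ 2 * Λ) := Nat.mul_le_mul_left _ hSΛ
  have g2 : ∑ i ∈ Finset.range (gj n), costF F.K n i ≤ F.K * (3 * (S ^ 2 * Λ)) := by
    refine h1.trans (Nat.mul_le_mul_left _ ?_)
    have : n ^ 2 * (l + 2) ≤ S ^ 2 * (2 * Λ) :=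
      Nat.mul_le_mul (Nat.pow_le_pow_left (by omega) _) h7
    have h10 : gj n ≤ S ^ 2 * Λ := by
      calc gj n ≤ S * 1 := by omega
        _ ≤ S * Λ := Nat.mul_le_mul_left _ hΛ1
        _ ≤ S ^ 2 * Λ := hSΛ
    have e : 3 * (S ^ 2 * Λ) = S ^ 2 * (2 * Λ) + S ^ 2 * Λ := by ring
    omega
  have g3 : F.K * ((gj n + 1) * (conjL (piece n) (gj n)).size) ≤ F.K * (8 * (S ^ 2 * Λ)) := by
    apply Nat.mul_le_mul_left
    calc (gj n + 1) * (conjL (piece n) (gj n)).size ≤ (2 * Λ) * (4 * S) :=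
          Nat.mul_le_mul (by omega) (by omega)
      _ = 8 * (S * Λ) := by ring
      _ ≤ _ := Nat.mul_le_mul_left _ hSΛ
  have g4 : F.K * S ≤ F.K * (S ^ 2 * Λ) :=
    Nat.mul_le_mul_left _ ((Nat.le_mul_of_pos_right _ hΛ1).trans hSΛ)
  have e1 : F.K * (6 * (S ^ 2 * Λ)) = 6 * (F.K * (S ^ 2 * Λ)) := by ring
  have e2 : F.K * (3 * (S ^ 2 * Λ)) = 3 * (F.K * (S ^ 2 * Λ)) := by ring
  have e3 : F.K * (8 * (S ^ 2 * Λ)) = 8 * (F.K * (S ^ 2 * Λ)) := by ring
  have e4 : 200 * F.K * (S ^ 2 * Λ) = 200 * (F.K * (S ^ 2 * Λ)) := by ring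
  rw [e4]
  omega

/-! ### The pieces are large -/

/-- For a fixed `k` and large `n`, the `k`-th piece is the tautology of a large grid. -/
theorem piece_large (k : ℕ) : ∃ b : ℝ, 0 < b ∧ ∀ u₀ : ℕ, ∃ n₀ : ℕ, ∀ n ≥ n₀,
    k < gj n ∧ u₀ ≤ gu n k ∧ (b * n ≤ (Fintype.card (GE (gD k) (gu n k ^ gv k)) : ℝ)) ∧
    (Fintype.card (GE (gD k) (gu n k ^ gv k)) ≤ gD k * n) ∧
    (gu n k ^ gv k) ^ gD k ≤ n ∧
    ∃ h : 1 ≤ gD k ∧ 2 ≤ gu n k ^ gv k,
      piece n k = (gridSys (gD k) (gu n k ^ gv k) h.1 h.2).tau := by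
  have hD := (g_spec k).1
  have hv := (g_spec k).2.1
  have hW := gW_pos k
  refine ⟨1 / (2 * (gW k * 2 ^ gp k : ℕ)), by positivity, fun u₀ => ?_⟩
  obtain ⟨n₁, h1⟩ := rt_large hW (gp_pos k) (max u₀ 2)
  refine ⟨max n₁ (2 ^ k), fun n hn => ?_⟩
  have hu : max u₀ 2 ≤ gu n k := h1 n ((le_max_left _ _).trans hn)
  have hu2 : 2 ≤ gu n k := (le_max_right _ _).trans hu
  have hM2 : 2 ≤ gu n k ^ gv k := hu2.trans (Nat.le_self_pow (by omega) _)
  refine ⟨?_, (le_max_left _ _).trans hu, ?_, ?_, ?_, ⟨hD, hM2⟩, ?_⟩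
  · have h2 : 2 ^ k ≤ n := (le_max_right _ _).trans hn
    have h3 : k ≤ Nat.log 2 n := Nat.le_log_of_pow_le (by norm_num) h2
    unfold gj
    omega
  · have h2 : n < gW k * 2 ^ gp k * gu n k ^ gp k := lt_rt hW (gp_pos k) (by
      have : 2 ≤ rt (gW k) (gp k) n := hu2
      omega)
    have h3 := le_two_card_GE (D := gD k) hD hM2
    rw [gp_pow] at h3
    have h4 : n ≤ 2 * (gW k * 2 ^ gp k) * Fintype.card (GE (gD k) (gu n k ^ gv k)) := by
      calc n ≤ gW k * 2 ^ gp k * gu n k ^ gp k := h2.le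
        _ ≤ gW k * 2 ^ gp k * (2 * Fintype.card (GE (gD k) (gu n k ^ gv k))) :=
          Nat.mul_le_mul_left _ h3
        _ = _ := by ring
    have h5 : (n : ℝ) ≤ 2 * (gW k * 2 ^ gp k : ℕ)
        * (Fintype.card (GE (gD k) (gu n k ^ gv k)) : ℝ) := by exact_mod_cast h4
    have h6 : (0 : ℝ) < 2 * (gW k * 2 ^ gp k : ℕ) := by positivity
    rw [one_div, inv_mul_le_iff₀ h6]
    exact h5
  · have h2 := gn_le n k
    have h3 := gu_pow_le n k
    unfold gn at h2
    exact h2.trans (Nat.mul_le_mul_left _ h3)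
  · rw [gp_pow]
    exact gu_pow_le n k
  · unfold piece
    rw [dif_pos ⟨hD, hM2⟩]

end SizeSep
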